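import Pool.Agent.Lib.Tate.R.Ec.Spec

/-!
# C42, block R/Ec: the inverse of `rho` (`S_Ri`)
-/

set_option autoImplicit false

open Topology unitInterval Filter Set
open scoped Topology.Homotopy OnePoint

noncomputable section

namespace Pool.Agent.Tate.Ec

namespace Ri

private lemma sq_R (u : ℝ) : Real.sqrt (4 + u ^ 2) ^ 2 = 4 + u ^ 2 := Real.sq_sqrt (by positivity)

private lemma R_pos (u : ℝ) : 0 < Real.sqrt (4 + u ^ 2) := Real.sqrt_pos.2 (by positivity)

private lemma R_abs (u : ℝ) : |u| < Real.sqrt (4 + u ^ 2) := by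
  refine Real.lt_sqrt_of_sq_lt ?_
  rw [sq_abs]
  linarith

private lemma c_abs (u : ℝ) : |u / (2 + Real.sqrt (4 + u ^ 2))| < 1 := by
  have h1 := R_pos u
  have h2 := R_abs u
  rw [abs_div, abs_of_pos (show 0 < 2 + Real.sqrt (4 + u ^ 2) by linarith),
    div_lt_one (by linarith)]
  linarith

private lemma ri_coe (u : ℝ) : ((ri u : I) : ℝ) = (1 + u / (2 + Real.sqrt (4 + u ^ 2))) / 2 := by
  have h1 := abs_lt.1 (c_abs u)
  unfold ri
  rw [Set.projIcc_of_mem]
  constructor <;> linarith [h1.1, h1.2]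

private lemma ri_Ioo (u : ℝ) : 0 < ((ri u : I) : ℝ) ∧ ((ri u : I) : ℝ) < 1 := by
  have h1 := abs_lt.1 (c_abs u)
  rw [ri_coe]
  constructor <;> linarith [h1.1, h1.2]

private lemma rho_ri (u : ℝ) : rho (ri u) = u := by
  obtain ⟨h0, h1⟩ := ri_Ioo u
  unfold rho
  rw [div_eq_iff (by nlinarith), ri_coe]
  have h2 := sq_R u
  have h3 : (2 + Real.sqrt (4 + u ^ 2)) ≠ 0 := by
    have := R_pos u
    positivity
  generalize Real.sqrt (4 + u ^ 2) = R at h2 h3
  field_simp
  linear_combination (-u) * h2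

private lemma rho_inj {t t' : ℝ} (h0 : 0 < t) (h1 : t < 1) (h0' : 0 < t') (h1' : t' < 1)
    (h : (2 * t - 1) / (t * (1 - t)) = (2 * t' - 1) / (t' * (1 - t'))) : t = t' := by
  have h2 : 0 < 1 - t := by linarith
  have h3 : 0 < 1 - t' := by linarith
  rw [div_eq_div_iff (by positivity) (by positivity)] at h
  have h4 : (t - t') * (t * t' + (1 - t) * (1 - t')) = 0 := by linear_combination h
  have h5 : 0 < t * t' + (1 - t) * (1 - t') := by positivity
  rcases mul_eq_zero.1 h4 with h6 | h6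
  · linarith
  · exact absurd h6 h5.ne'

private lemma ri_rho (t : I) (h0 : t ≠ 0) (h1 : t ≠ 1) : ri (rho t) = t := by
  have a0 : 0 < (t : ℝ) := lt_of_le_of_ne t.2.1 fun h => h0 (Subtype.ext h.symm)
  have a1 : (t : ℝ) < 1 := lt_of_le_of_ne t.2.2 fun h => h1 (Subtype.ext h)
  obtain ⟨b0, b1⟩ := ri_Ioo (rho t)
  exact Subtype.ext (rho_inj b0 b1 a0 a1 (rho_ri (rho t)))

private lemma ri_cont : Continuous ri := by
  unfold ri
  refine continuous_projIcc.comp ?_
  have h : Continuous fun u : ℝ => u / (2 + Real.sqrt (4 + u ^ 2)) := by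
    refine continuous_id.div (by fun_prop) fun u => ?_
    have := R_pos u
    positivity
  exact (continuous_const.add h).div_const 2

private lemma ri_der (u : ℝ) : HasDerivAt (fun u => (ri u : ℝ))
    (1 / (Real.sqrt (4 + u ^ 2) * (2 + Real.sqrt (4 + u ^ 2)))) u := by
  have e : (fun u => (ri u : ℝ)) = fun u => (1 + u / (2 + Real.sqrt (4 + u ^ 2))) / 2 :=
    funext ri_coe
  rw [e]
  have hR := R_pos u
  have h1 : HasDerivAt (fun u : ℝ => 4 + u ^ 2) (2 * u) u := by
    have := (hasDerivAt_pow 2 u).const_add 4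
    simpa using this
  have h2 := h1.sqrt (show (4 : ℝ) + u ^ 2 ≠ 0 by positivity)
  have h3 := ((hasDerivAt_id u).div (h2.const_add 2) (by
    show 2 + Real.sqrt (4 + u ^ 2) ≠ 0
    positivity))
  have h4 := (h3.const_add 1).div_const 2
  refine h4.congr_deriv ?_
  have h5 := sq_R u
  simp only [id]
  generalize Real.sqrt (4 + u ^ 2) = R at h5 hR
  field_simp
  linear_combination h5

end Ri

open Ri in
theorem pRi : S_Ri := by
  refine ⟨ri_coe, fun u => ⟨fun h => ?_, fun h => ?_⟩, rho_ri, ri_rho, ri_cont, fun t => ?_,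
    fun u => ?_, ?_, ri_der⟩
  · have := (ri_Ioo u).1
    rw [h] at this
    simp at this
  · have := (ri_Ioo u).2
    rw [h] at this
    simp at this
  · unfold rho
    rw [coe_symm_eq, ← neg_div]
    congr 1 <;> ring
  · apply Subtype.ext
    rw [coe_symm_eq, ri_coe, ri_coe, neg_sq]
    ring
  · refine strictMono_of_deriv_pos fun u => ?_
    rw [(ri_der u).deriv]
    have := R_pos u
    positivity

end Pool.Agent.Tate.Ec
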