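import Pool.Agent.Lib.Tate.R.Ec.Spec

set_option linter.unusedSectionVars false

open Topology unitInterval Filter Set
open scoped Topology.Homotopy OnePoint

noncomputable section

namespace Pool.Agent.Tate.Ec

namespace BnAux

/-- The entry `false, false`. -/
def ff (k : KK) : ℝ := (k.1 false false).re

/-- The entry `false, true`. -/
def ft (k : KK) : ℂ := k.1 false true

theorem e_ft (k : KK) : k.1 false true = ft k := rfl

theorem e_ff (k : KK) : k.1 false false = (ff k : ℂ) := by
  have h := congrFun (congrFun k.2.1 false) false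
  rw [Matrix.conjTranspose_apply] at h
  have h2 := (Complex.conj_eq_iff_re (z := k.1 false false)).1 h
  exact h2.symm

theorem e_tf (k : KK) : k.1 true false = (starRingEnd ℂ) (k.1 false true) := by
  have h := congrFun (congrFun k.2.1 true) false
  rw [Matrix.conjTranspose_apply] at h
  exact h.symm

theorem e_tt (k : KK) : k.1 true true = ((1 - ff k : ℝ) : ℂ) := by
  have h := k.2.2.2
  rw [Matrix.trace, Fintype.sum_bool, Matrix.diag_apply, Matrix.diag_apply, e_ff] at h
  push_cast
  linear_combination h

theorem e_pr (k : KK) : ft k * (starRingEnd ℂ) (ft k) =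
    (ff k : ℂ) * (1 - ff k) := by
  have h := congrFun (congrFun k.2.2.1 false) false
  rw [Matrix.mul_apply, Fintype.sum_bool, e_ff, e_tf, e_ft] at h
  linear_combination h

theorem ff_mem (k : KK) : 0 ≤ ff k ∧ ff k ≤ 1 := by
  have h := e_pr k
  rw [Complex.mul_conj] at h
  have h2 : Complex.normSq (ft k) = ff k * (1 - ff k) := by exact_mod_cast h
  have h3 := Complex.normSq_nonneg (ft k)
  rw [h2] at h3
  constructor <;> nlinarith

theorem continuous_ff : Continuous ff := by
  refine Complex.continuous_re.comp ?_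
  exact (continuous_apply_apply false false).comp continuous_subtype_val

theorem continuous_ft : Continuous ft :=
  (continuous_apply_apply false true).comp continuous_subtype_val

theorem KK.ext' {k k' : KK} (h1 : ff k = ff k') (h2 : ft k = ft k') :
    k = k' := by
  apply Subtype.ext
  ext a b
  cases a <;> cases b
  · rw [e_ff, e_ff, h1]
  · exact h2
  · rw [e_tf, e_tf, e_ft, e_ft, h2]
  · rw [e_tt, e_tt, h1]

/-- The factor. -/
def mu (a : ℝ) (k : KK) : ℝ := 1 - a * max 0 (min 1 (4 * ff k - 2))

/-- The denominator. -/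
def dn (a : ℝ) (k : KK) : ℝ := ff k + mu a k ^ 2 * (1 - ff k)

theorem dn_pos (a : ℝ) (k : KK) : 0 < dn a k := by
  obtain ⟨h0, h1⟩ := ff_mem k
  unfold dn
  by_cases h : ff k ≤ 1 / 2
  · have : mu a k = 1 := by
      unfold mu
      rw [max_eq_left]
      · ring
      · exact (min_le_right _ _).trans (by linarith)
    rw [this]
    linarith
  · have : 0 ≤ mu a k ^ 2 * (1 - ff k) := mul_nonneg (sq_nonneg _) (by linarith)
    linarith

/-- The matrix. -/
def ccm (a : ℝ) (k : KK) : Matrix Bool Bool ℂ := fun i j => match i, j with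
    | false, false => ((ff k : ℝ) : ℂ) / (dn a k : ℝ)
    | false, true => ((mu a k : ℝ) : ℂ) * ft k / (dn a k : ℝ)
    | true, false => ((mu a k : ℝ) : ℂ) * (starRingEnd ℂ) (ft k) / (dn a k : ℝ)
    | true, true => (((mu a k) ^ 2 * (1 - ff k) : ℝ) : ℂ) / (dn a k : ℝ)

/-- The deformation of `CP^1`. -/
def cc (a : ℝ) (k : KK) : KK :=
  ⟨ccm a k, by
    have h0 : ((dn a k : ℝ) : ℂ) ≠ 0 := by exact_mod_cast (dn_pos a k).ne'
    have hp := e_pr k
    have hd : ((dn a k : ℝ) : ℂ) = (ff k : ℂ) + (mu a k : ℂ) ^ 2 * (1 - (ff k : ℂ)) := by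
      unfold dn
      push_cast
      ring
    refine ⟨?_, ?_, ?_⟩
    · ext i j
      rw [Matrix.conjTranspose_apply]
      cases i <;> cases j <;> simp [ccm, Complex.conj_ofReal]
    · ext i j
      rw [Matrix.mul_apply, Fintype.sum_bool]
      unfold ccm
      cases i <;> cases j <;> simp only [] <;> push_cast <;> field_simp
      · rw [hd]
        linear_combination ((mu a k : ℂ) ^ 2) * hp
      · rw [hd]
        ring
      · rw [hd]
        ring
      · rw [hd]
        linear_combination ((mu a k : ℂ) ^ 2) * hp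
    · rw [Matrix.trace, Fintype.sum_bool, Matrix.diag_apply, Matrix.diag_apply]
      unfold ccm
      simp only []
      push_cast
      field_simp
      rw [hd]
      ring⟩

theorem continuous_mu : Continuous fun p : ℝ × KK => mu p.1 p.2 := by
  unfold mu
  have := continuous_ff
  fun_prop

theorem continuous_dn : Continuous fun p : ℝ × KK => dn p.1 p.2 := by
  unfold dn
  have := continuous_ff
  have := continuous_mu
  fun_prop

theorem continuous_cc : Continuous fun p : ℝ × KK => cc p.1 p.2 := by
  have h1 := continuous_ff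
  have h2 := continuous_mu
  have h3 := continuous_dn
  have h4 : Continuous fun p : ℝ × KK => ft p.2 := continuous_ft.comp continuous_snd
  have h0 : ∀ p : ℝ × KK, ((dn p.1 p.2 : ℝ) : ℂ) ≠ 0 := fun p => by
    exact_mod_cast (dn_pos p.1 p.2).ne'
  refine Continuous.subtype_mk ?_ _
  refine continuous_pi fun i => continuous_pi fun j => ?_
  have h3' : Continuous fun p : ℝ × KK => ((dn p.1 p.2 : ℝ) : ℂ) :=
    Complex.continuous_ofReal.comp h3
  have h2' : Continuous fun p : ℝ × KK => ((mu p.1 p.2 : ℝ) : ℂ) :=
    Complex.continuous_ofReal.comp h2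
  cases i <;> cases j
  · exact (Complex.continuous_ofReal.comp (h1.comp continuous_snd)).div h3' h0
  · exact (h2'.mul h4).div h3' h0
  · exact (h2'.mul (Complex.continuous_conj.comp h4)).div h3' h0
  · refine Continuous.div (Complex.continuous_ofReal.comp ?_) h3' h0
    exact (h2.pow 2).mul (continuous_const.sub (h1.comp continuous_snd))

theorem cc_zero (k : KK) : cc 0 k = k := by
  have hm : mu 0 k = 1 := by unfold mu; ring
  have hd : dn 0 k = 1 := by unfold dn; rw [hm]; ring
  apply KK.ext'
  · show (((ff k : ℝ) : ℂ) / (dn 0 k : ℝ)).re = _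
    rw [hd]
    simp
  · show ((mu 0 k : ℝ) : ℂ) * ft k / (dn 0 k : ℝ) = _
    rw [hd, hm]
    simp

theorem ff_k0 : ff k0 = 1 := by
  show (if false = false ∧ false = false then (1 : ℂ) else 0).re = 1
  simp

theorem eq_k0 {k : KK} (h : ff k = 1) : k = k0 := by
  apply KK.ext' (h.trans ff_k0.symm)
  have h2 := e_pr k
  rw [h] at h2
  simp only [Complex.ofReal_one, sub_self, mul_zero, mul_eq_zero, map_eq_zero, or_self] at h2
  rw [h2]
  show 0 = (if false = false ∧ true = false then (1 : ℂ) else 0)
  simp

theorem cc_k0 (a : ℝ) : cc a k0 = k0 := by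
  apply eq_k0
  show (((ff k0 : ℝ) : ℂ) / (dn a k0 : ℝ)).re = 1
  have : dn a k0 = 1 := by unfold dn; rw [ff_k0]; ring
  rw [this, ff_k0]
  simp

theorem cc_one {k : KK} (h : 3 / 4 ≤ ff k) : cc 1 k = k0 := by
  apply eq_k0
  have hm : mu 1 k = 0 := by
    unfold mu
    rw [min_eq_left (by linarith), max_eq_right zero_le_one]
    ring
  show (((ff k : ℝ) : ℂ) / (dn 1 k : ℝ)).re = 1
  have hd : dn 1 k = ff k := by unfold dn; rw [hm]; ring
  rw [hd, div_self]
  · simp
  · have : ff k ≠ 0 := by linarith
    exact_mod_cast this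

instance : LocallyCompactSpace KK := by
  have hcl : IsClosed {p : Matrix Bool Bool ℂ |
      p.conjTranspose = p ∧ p * p = p ∧ p.trace = 1} := by
    refine IsClosed.inter ?_ (IsClosed.inter ?_ ?_)
    · exact isClosed_eq (by fun_prop) continuous_id
    · exact isClosed_eq (by fun_prop) continuous_id
    · exact isClosed_eq (by fun_prop) continuous_const
  have : LocallyCompactSpace (Matrix Bool Bool ℂ) :=
    inferInstanceAs (LocallyCompactSpace (Bool → Bool → ℂ))
  exact hcl.isClosedEmbedding_subtypeVal.locallyCompactSpace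

end BnAux

open BnAux

theorem pBn : S_Bn := by
  intro N X _ x₀ g hg
  obtain ⟨h⟩ := hg
  -- h : homotopy from ev0 g to const
  have h0 : ∀ s, h (0, s) = g s k0 := fun s => h.apply_zero s
  have h1 : ∀ s, h (1, s) = x₀ := fun s => h.apply_one s
  have hb : ∀ t, ∀ s ∈ Cube.boundary N, h (t, s) = x₀ := by
    intro t s hs
    have := h.eq_fst t hs
    rw [this]
    exact (ev0 g).2 s hs
  have gb : ∀ s ∈ Cube.boundary N, ∀ k, g s k = x₀ := by
    intro s hs k
    have : g s = ContinuousMap.const KK x₀ := g.2 s hs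
    rw [this]
    rfl
  -- evaluation
  have hgc : Continuous fun p : (N → I) × KK => g p.1 p.2 :=
    continuous_eval.comp ((g.1.continuous.comp continuous_fst).prodMk continuous_snd)
  -- the clamp
  let v : KK → I := fun k => Set.projIcc 0 1 zero_le_one (4 * ff k - 3)
  have hv : Continuous v := by
    have := continuous_ff
    exact continuous_projIcc.comp (by fun_prop)
  have hv0 : ∀ k, ff k = 3 / 4 → v k = 0 := by
    intro k hk
    show Set.projIcc 0 1 zero_le_one (4 * ff k - 3) = 0
    rw [hk, Set.projIcc_of_le_left zero_le_one (by norm_num)]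
    rfl
  have hv1 : v k0 = 1 := by
    show Set.projIcc 0 1 zero_le_one (4 * ff k0 - 3) = 1
    rw [ff_k0, Set.projIcc_of_right_le zero_le_one (by norm_num)]
    rfl
  -- the second homotopy
  let F : I × (N → I) → KK → X := fun p k =>
    if ff k ≤ 3 / 4 then g p.2 (cc 1 k) else h (p.1 * v k, p.2)
  have hF : Continuous fun q : (I × (N → I)) × KK => F q.1 q.2 := by
    refine Continuous.if_le ?_ ?_ (continuous_ff.comp continuous_snd) continuous_const ?_
    · refine hgc.comp (Continuous.prodMk (continuous_snd.comp continuous_fst) ?_)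
      exact continuous_cc.comp (continuous_const.prodMk continuous_snd)
    · refine h.continuous.comp (Continuous.prodMk ?_ (continuous_snd.comp continuous_fst))
      exact (continuous_fst.comp continuous_fst).mul (hv.comp continuous_snd)
    · rintro ⟨⟨t, s⟩, k⟩ hk
      have hk' : ff k = 3 / 4 := hk
      show g s (cc 1 k) = h (t * v k, s)
      rw [hv0 k hk', mul_zero, h0, cc_one hk'.ge]
  have hF0 : ∀ s k, F (0, s) k = g s (cc 1 k) := by
    intro s k
    show (if ff k ≤ 3 / 4 then g s (cc 1 k) else h (0 * v k, s)) = _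
    split_ifs with hk
    · rfl
    · rw [zero_mul, h0, cc_one (by linarith)]
  have hF1 : ∀ s, F (1, s) k0 = x₀ := by
    intro s
    show (if ff k0 ≤ 3 / 4 then g s (cc 1 k0) else h (1 * v k0, s)) = _
    rw [if_neg (by rw [ff_k0]; norm_num), hv1, mul_one, h1]
  have hFb : ∀ t, ∀ s ∈ Cube.boundary N, ∀ k, F (t, s) k = x₀ := by
    intro t s hs k
    show (if ff k ≤ 3 / 4 then g s (cc 1 k) else h (t * v k, s)) = _
    split_ifs
    · exact gb s hs _
    · exact hb _ s hs
  let Fc : C(I × (N → I), C(KK, X)) :=
    ⟨fun p => ⟨F p, hF.comp (continuous_const.prodMk continuous_id)⟩,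
      ContinuousMap.continuous_of_continuous_uncurry _ hF⟩
  -- the first homotopy
  let G : I × (N → I) → KK → X := fun p k => g p.2 (cc p.1 k)
  have hG : Continuous fun q : (I × (N → I)) × KK => G q.1 q.2 := by
    refine hgc.comp (Continuous.prodMk (continuous_snd.comp continuous_fst) ?_)
    exact continuous_cc.comp (Continuous.prodMk (continuous_subtype_val.comp
      (continuous_fst.comp continuous_fst)) continuous_snd)
  let Gc : C(I × (N → I), C(KK, X)) :=
    ⟨fun p => ⟨G p, hG.comp (continuous_const.prodMk continuous_id)⟩,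
      ContinuousMap.continuous_of_continuous_uncurry _ hG⟩
  -- the loops
  let g1 : GenLoop N C(KK, X) (ContinuousMap.const KK x₀) :=
    ⟨⟨fun s => Gc (1, s), Gc.continuous.comp (continuous_const.prodMk continuous_id)⟩, by
      intro s hs
      ext k
      exact gb s hs _⟩
  let g2 : GenLoop N C(KK, X) (ContinuousMap.const KK x₀) :=
    ⟨⟨fun s => Fc (1, s), Fc.continuous.comp (continuous_const.prodMk continuous_id)⟩, by
      intro s hs
      ext k
      exact hFb 1 s hs k⟩
  have e1 : GenLoop.Homotopic g g1 := by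
    refine ⟨⟨⟨⟨Gc, Gc.continuous⟩, ?_, ?_⟩, ?_⟩⟩
    · intro s
      ext k
      show g s (cc ((0 : I) : ℝ) k) = g s k
      rw [Set.Icc.coe_zero, cc_zero]
    · intro s
      rfl
    · intro t s hs
      ext k
      show g s (cc t k) = g s k
      rw [gb s hs, gb s hs]
  have e2 : GenLoop.Homotopic g1 g2 := by
    refine ⟨⟨⟨⟨Fc, Fc.continuous⟩, ?_, ?_⟩, ?_⟩⟩
    · intro s
      ext k
      show F (0, s) k = g s (cc ((1 : I) : ℝ) k)
      rw [hF0]
      rfl
    · intro s
      rfl
    · intro t s hs
      ext k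
      show F (t, s) k = g s (cc ((1 : I) : ℝ) k)
      rw [hFb t s hs, gb s hs]
  exact ⟨g2, e1.trans e2, hF1⟩

end Pool.Agent.Tate.Ec
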