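import Pool.Agent.Lib.Tate.R.Ec.Spec

/-!
# C42 (MP_071d69_gt), R/Ec/Fo: folding `CP^1` to the disc (helper82)
-/

open Topology unitInterval Filter Set
open scoped Topology.Homotopy OnePoint

noncomputable section

namespace Pool.Agent.Tate.Ec

namespace FoAux

/-- the folding of the plane -/
def cc (w : ℂ) : ℂ := if ‖w‖ ≤ 1 then w else ((starRingEnd ℂ) w)⁻¹

theorem cc_eq {w : ℂ} (h : ‖w‖ = 1) : w = ((starRingEnd ℂ) w)⁻¹ := by
  have h1 : w * (starRingEnd ℂ) w = 1 := by
    rw [Complex.mul_conj, Complex.normSq_eq_norm_sq, h]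
    norm_num
  exact eq_inv_of_mul_eq_one_left h1

theorem cc_cont : Continuous cc := by
  unfold cc
  refine continuous_if_le continuous_norm continuous_const continuousOn_id ?_ fun w h => cc_eq h
  refine ContinuousOn.inv₀ Complex.continuous_conj.continuousOn fun w hw => ?_
  have h1 : 1 ≤ ‖w‖ := hw
  intro h0
  have h2 : w = 0 := by
    rw [← Complex.conj_conj w, h0, map_zero]
  rw [h2, norm_zero] at h1
  linarith

theorem cc_lim : Tendsto cc (cocompact ℂ) (𝓝 0) := by
  rw [tendsto_zero_iff_norm_tendsto_zero]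
  have h1 : Tendsto (fun w : ℂ => ‖w‖⁻¹) (cocompact ℂ) (𝓝 0) :=
    tendsto_inv_atTop_zero.comp tendsto_norm_cocompact_atTop
  refine h1.congr' ?_
  have h2 : ∀ᶠ w : ℂ in cocompact ℂ, 1 < ‖w‖ :=
    tendsto_norm_cocompact_atTop.eventually (eventually_gt_atTop 1)
  filter_upwards [h2] with w hw
  unfold cc
  rw [if_neg (not_le.2 hw), norm_inv, Complex.norm_conj]

/-- the folding of the sphere -/
def cp (p : OnePoint ℂ) : ℂ := OnePoint.elim p 0 cc

theorem cp_cont : Continuous cp := by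
  rw [OnePoint.continuous_iff]
  refine ⟨?_, cc_cont⟩
  rw [coclosedCompact_eq_cocompact]
  exact cc_lim

theorem fo_eq (t : ℝ) (k : KK) : fo t k = psi (t * cp (phi k)) := by
  unfold fo cp
  cases h : phi k using OnePoint.rec with
  | infty =>
    show psi 0 = psi ((t : ℂ) * 0)
    rw [mul_zero]
  | coe w =>
    show (if ‖w‖ ≤ 1 then psi (t * w) else psi (t * ((starRingEnd ℂ) w)⁻¹)) = psi (t * cc w)
    unfold cc
    by_cases hw : ‖w‖ ≤ 1
    · rw [if_pos hw, if_pos hw]
    · rw [if_neg hw, if_neg hw]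

end FoAux

theorem pFo (h : S_Ps) : S_Fo := by
  obtain ⟨hH, hphi, h1, h2, -⟩ := h
  have hpsi : Continuous psi := hH.comp OnePoint.continuous_coe
  have hps : ∀ w : ℂ, phi (psi w) = (w : OnePoint ℂ) := fun w => h1 (w : OnePoint ℂ)
  refine ⟨?_, ?_, ?_, ?_⟩
  · have e : (fun p : ℝ × KK => fo p.1 p.2) =
        fun p : ℝ × KK => psi ((p.1 : ℂ) * FoAux.cp (phi p.2)) := by
      funext p
      exact FoAux.fo_eq p.1 p.2
    rw [e]
    refine hpsi.comp ?_
    exact (Complex.continuous_ofReal.comp continuous_fst).mul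
      (FoAux.cp_cont.comp (hphi.comp continuous_snd))
  · intro t w hw
    rw [FoAux.fo_eq, hps]
    show psi ((t : ℂ) * FoAux.cc w) = _
    unfold FoAux.cc
    rw [if_pos hw]
  · intro t w hw
    rw [FoAux.fo_eq, hps]
    show psi ((t : ℂ) * FoAux.cc w) = _
    unfold FoAux.cc
    rcases hw.eq_or_lt with h3 | h3
    · rw [if_pos h3.symm.le, ← FoAux.cc_eq h3.symm]
    · rw [if_neg (not_le.2 h3)]
  · intro t
    have h3 : phi k0 = ∞ := h1 ∞
    rw [FoAux.fo_eq, h3]
    show psi ((t : ℂ) * 0) = psi 0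
    rw [mul_zero]

end Pool.Agent.Tate.Ec
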