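import Pool.Agent.Lib.Tate.R.Ec.Spec

/-!
# C42 (MP_071d69_gt), R/Ec/Gn: a based map is null homotopic if its adjoint is (helper77)
-/

set_option linter.unusedSectionVars false

open Topology unitInterval Filter Set
open scoped Topology.Homotopy OnePoint

noncomputable section

namespace Pool.Agent.Tate.Ec

namespace GnAux

/-- on the boundary of the square -/
def OnB (a b : I) : Prop := (a = 0 ∨ a = 1) ∨ b = 0 ∨ b = 1

theorem psi'_pos {a b : I} (h : OnB a b) : psi' a b = k0 := by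
  unfold psi'
  exact if_pos h

theorem psi'_neg {a b : I} (h : ¬ OnB a b) : psi' a b = psi ⟨rho a, rho b⟩ := by
  unfold psi'
  exact if_neg h

theorem psiH_inj (hPs : S_Ps) {p q : OnePoint ℂ} (h : psiH p = psiH q) : p = q := by
  rw [← hPs.2.2.1 p, ← hPs.2.2.1 q, h]

theorem surj (hRi : S_Ri) (hPs : S_Ps) (k : KK) : ∃ p : I × I, psi' p.1 p.2 = k := by
  have h := hPs.2.2.2.1 k
  rcases hp : phi k with _ | w
  · refine ⟨(0, 0), ?_⟩
    rw [← h, hp, psi'_pos (Or.inl (Or.inl rfl))]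
    rfl
  · refine ⟨(ri w.re, ri w.im), ?_⟩
    rw [← h, hp]
    show psi' (ri w.re) (ri w.im) = psi w
    rw [psi'_neg, hRi.2.2.1, hRi.2.2.1]
    rintro ((h1 | h1) | h1 | h1)
    · exact (hRi.2.1 _).1 h1
    · exact (hRi.2.1 _).2 h1
    · exact (hRi.2.1 _).1 h1
    · exact (hRi.2.1 _).2 h1

theorem eq_cases (hRi : S_Ri) (hPs : S_Ps) {a b a' b' : I} (h : psi' a b = psi' a' b') :
    (a = a' ∧ b = b') ∨ (OnB a b ∧ OnB a' b') := by
  have key : ∀ w : ℂ, psi w ≠ k0 := by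
    intro w hw
    have h1 : ((w : ℂ) : OnePoint ℂ) = ∞ := psiH_inj hPs hw
    exact OnePoint.coe_ne_infty w h1
  by_cases h1 : OnB a b
  · by_cases h2 : OnB a' b'
    · exact Or.inr ⟨h1, h2⟩
    · rw [psi'_pos h1, psi'_neg h2] at h
      exact absurd h.symm (key _)
  · by_cases h2 : OnB a' b'
    · rw [psi'_neg h1, psi'_pos h2] at h
      exact absurd h (key _)
    · rw [psi'_neg h1, psi'_neg h2] at h
      have h3 : (((⟨rho a, rho b⟩ : ℂ)) : OnePoint ℂ) = ((⟨rho a', rho b'⟩ : ℂ) : OnePoint ℂ) :=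
        psiH_inj hPs h
      have h4 : (⟨rho a, rho b⟩ : ℂ) = ⟨rho a', rho b'⟩ := OnePoint.coe_injective h3
      have h5 : rho a = rho a' := congrArg Complex.re h4
      have h6 : rho b = rho b' := congrArg Complex.im h4
      have e1 : ∀ c c' : I, (c ≠ 0 ∧ c ≠ 1) → (c' ≠ 0 ∧ c' ≠ 1) → rho c = rho c' → c = c' := by
        intro c c' hc hc' hcc
        rw [← hRi.2.2.2.1 c hc.1 hc.2, ← hRi.2.2.2.1 c' hc'.1 hc'.2, hcc]
      unfold OnB at h1 h2
      push Not at h1 h2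
      exact Or.inl ⟨e1 _ _ h1.1 h2.1 h5, e1 _ _ h1.2 h2.2 h6⟩

variable {M X : Type} [TopologicalSpace X] {x₀ : X}

/-- the coordinates of the large cube -/
def cm (x : Unit ⊕ M → I) (p : I × I) : Fin 3 ⊕ M → I :=
  Sum.elim ![p.1, p.2, x (Sum.inl ())] (x ∘ Sum.inr)

theorem continuous_cm : Continuous fun z : (I × (Unit ⊕ M → I)) × (I × I) =>
    ((z.1.1, cm z.1.2 z.2) : I × (Fin 3 ⊕ M → I)) := by
  refine Continuous.prodMk (by fun_prop) (continuous_pi ?_)
  rintro (i | m)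
  · fin_cases i
    · show Continuous fun z : (I × (Unit ⊕ M → I)) × (I × I) => z.2.1
      fun_prop
    · show Continuous fun z : (I × (Unit ⊕ M → I)) × (I × I) => z.2.2
      fun_prop
    · show Continuous fun z : (I × (Unit ⊕ M → I)) × (I × I) => z.1.2 (Sum.inl ())
      fun_prop
  · show Continuous fun z : (I × (Unit ⊕ M → I)) × (I × I) => z.1.2 (Sum.inr m)
    fun_prop

theorem cm_bdry {x : Unit ⊕ M → I} {p : I × I} (h : OnB p.1 p.2) :
    cm x p ∈ Cube.boundary (Fin 3 ⊕ M) := by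
  rcases h with h | h
  · exact ⟨Sum.inl 0, h⟩
  · exact ⟨Sum.inl 1, h⟩

theorem cm_bdry' {x : Unit ⊕ M → I} {p : I × I} (h : x ∈ Cube.boundary (Unit ⊕ M)) :
    cm x p ∈ Cube.boundary (Fin 3 ⊕ M) := by
  obtain ⟨i | m, h⟩ := h
  · exact ⟨Sum.inl 2, h⟩
  · exact ⟨Sum.inr m, h⟩

theorem gh'_cm (g : GK M x₀) (x : Unit ⊕ M → I) (p : I × I) :
    gh' g (cm x p) = g x (psi' p.1 p.2) := by
  have h : (Sum.elim (fun _ : Unit => cm x p (Sum.inl 2)) (cm x p ∘ Sum.inr) :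
      Unit ⊕ M → I) = x := by
    funext i
    rcases i with i | m
    · rfl
    · rfl
  unfold gh'
  rw [h]
  rfl

/-- the quotient map -/
def qm (M : Type) (z : (I × (Unit ⊕ M → I)) × (I × I)) : (I × (Unit ⊕ M → I)) × KK :=
  (z.1, psi' z.2.1 z.2.2)

theorem qm_quot (hRi : S_Ri) (hPs : S_Ps) : IsQuotientMap (qm M) := by
  have hc : Continuous (qm M) :=
    Continuous.prodMk continuous_fst (hPs.2.2.2.2.comp continuous_snd)
  refine hc.isClosedMap.isQuotientMap hc ?_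
  rintro ⟨z, k⟩
  obtain ⟨p, hp⟩ := surj hRi hPs k
  exact ⟨(z, p), Prod.ext rfl hp⟩

end GnAux

open GnAux in
theorem pGn (hRi : S_Ri) (hPs : S_Ps) : S_Gn := by
  intro M X _ _ _ x₀ g hg hgh hH
  obtain ⟨H⟩ := hH
  have hb : ∀ (t : I) (s : Fin 3 ⊕ M → I), s ∈ Cube.boundary (Fin 3 ⊕ M) → H (t, s) = x₀ :=
    fun t s hs => H.eq_snd t hs
  -- the choice of the coordinates
  choose P hP using surj hRi hPs
  have hwell : ∀ (t : I) (x : Unit ⊕ M → I) (p p' : I × I), psi' p.1 p.2 = psi' p'.1 p'.2 →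
      H (t, cm x p) = H (t, cm x p') := by
    intro t x p p' h
    rcases eq_cases hRi hPs h with h1 | h1
    · rw [Prod.ext h1.1 h1.2]
    · rw [hb t _ (cm_bdry h1.1), hb t _ (cm_bdry h1.2)]
  let G₀ : (I × (Unit ⊕ M → I)) × KK → X := fun z => H (z.1.1, cm z.1.2 (P z.2))
  have hG : ∀ (z : I × (Unit ⊕ M → I)) (p : I × I), G₀ (z, psi' p.1 p.2) = H (z.1, cm z.2 p) :=
    fun z p => hwell _ _ _ _ (hP _)
  have hc : Continuous G₀ := by
    rw [(qm_quot hRi hPs).continuous_iff]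
    have h1 : G₀ ∘ qm M = fun z => H (z.1.1, cm z.1.2 z.2) := by
      funext z
      exact hG z.1 z.2
    rw [h1]
    exact (H.continuous).comp continuous_cm
  let G : C(I × (Unit ⊕ M → I), C(KK, X)) := ContinuousMap.curry ⟨G₀, hc⟩
  have hGa : ∀ (z : I × (Unit ⊕ M → I)) (k : KK), ∃ p : I × I, psi' p.1 p.2 = k ∧
      G z k = H (z.1, cm z.2 p) := by
    intro z k
    exact ⟨P k, hP k, rfl⟩
  refine ⟨⟨⟨G, ?_, ?_⟩, ?_⟩⟩
  · intro x
    refine ContinuousMap.ext fun k => ?_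
    obtain ⟨p, hp, h1⟩ := hGa (0, x) k
    refine h1.trans ?_
    show H (0, cm x p) = _
    rw [H.apply_zero, ← hp]
    exact (hgh _).trans (gh'_cm g x p)
  · intro x
    refine ContinuousMap.ext fun k => ?_
    obtain ⟨p, hp, h1⟩ := hGa (1, x) k
    refine h1.trans ?_
    show H (1, cm x p) = _
    rw [H.apply_one]
    rfl
  · intro t x hx
    refine ContinuousMap.ext fun k => ?_
    obtain ⟨p, hp, h1⟩ := hGa (t, x) k
    refine h1.trans ?_
    show H (t, cm x p) = _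
    rw [hb t _ (cm_bdry' hx)]
    have h2 : g.1 x = ContinuousMap.const KK x₀ := g.2 x hx
    rw [h2]
    rfl

end Pool.Agent.Tate.Ec
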