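import Pool.Agent.Lib.Tate.R.Ec.Spec

/-!
# C42, block R/Ec: homotopies of functions (`S_Ho`)
-/

set_option autoImplicit false

open Topology unitInterval Filter Set
open scoped Topology.Homotopy OnePoint

noncomputable section

namespace Pool.Agent.Tate.Ec

namespace Ho

private lemma bd_closed (N : Type) [Fintype N] : IsClosed (Cube.boundary N) := by
  have e : Cube.boundary N = ⋃ i : N, {y : N → I | y i = 0 ∨ y i = 1} := by
    ext y
    simp [Cube.boundary]
  rw [e]
  refine isClosed_iUnion_of_finite fun i => ?_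
  exact (isClosed_eq (continuous_apply i) continuous_const).union
    (isClosed_eq (continuous_apply i) continuous_const)

private lemma rho_cont {Y N : Type} [TopologicalSpace Y] (hR : Wi.S_Rh) (a : Y → N → I)
    (ha : Continuous a) : ContinuousOn (fun (y : Y) (i : N) => rho (a y i))
      {y | a y ∉ Cube.boundary N} := by
  refine continuousOn_pi.2 fun i => ?_
  refine hR.1.comp ((continuous_apply i).comp ha).continuousOn fun y hy => ?_
  have h : ¬ ∃ i, a y i = 0 ∨ a y i = 1 := hy
  push Not at h
  exact h i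

open Classical in
private lemma jcont {Y Z N : Type} [Fintype N] [TopologicalSpace Y] [TopologicalSpace Z]
    (hR : Wi.S_Rh) (a : Y → N → I) (ha : Continuous a) (k : Y → Z) (p : Z → N → ℝ)
    (hp : Continuous p) (hk : ContinuousOn k {y | a y ∉ Cube.boundary N})
    (hpk : ∀ y i, p (k y) i = rho (a y i)) :
    Continuous fun y => if a y ∈ Cube.boundary N then (∞ : OnePoint Z) else (k y : OnePoint Z) := by
  rw [continuous_iff_continuousAt]
  intro y
  by_cases hy : a y ∈ Cube.boundary N
  · unfold ContinuousAt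
    simp only [hy, if_true]
    rw [Filter.Tendsto, OnePoint.le_nhds_infty]
    intro K _ hK
    have hb : Bornology.IsBounded (p '' K) := (hK.image hp).isBounded
    obtain ⟨M, hM⟩ := hb.exists_norm_le
    obtain ⟨i, hi⟩ := hy
    have h1 := hR.2 (a y i) hi (M + 1)
    have h2 : ∀ᶠ y' in 𝓝 y, a y' i ≠ 0 → a y' i ≠ 1 → M + 1 ≤ |rho (a y' i)| :=
      ((continuous_apply i).comp ha).continuousAt.eventually h1
    rw [Filter.mem_map]
    filter_upwards [h2] with y' hy'
    by_cases h3 : a y' ∈ Cube.boundary N
    · right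
      simp [h3]
    · left
      have h4 : ¬ ∃ i, a y' i = 0 ∨ a y' i = 1 := h3
      push Not at h4
      have h5 := hy' (h4 i).1 (h4 i).2
      refine ⟨k y', fun h6 => ?_, by simp [h3]⟩
      have h7 := hM _ ⟨k y', h6, rfl⟩
      have h8 := (norm_le_pi_norm (p (k y')) i).trans h7
      rw [hpk, Real.norm_eq_abs] at h8
      linarith
  · have hopen : IsOpen {y | a y ∉ Cube.boundary N} :=
      (bd_closed N).isOpen_compl.preimage ha
    have h1 : ContinuousAt (fun y => (k y : OnePoint Z)) y :=
      OnePoint.continuous_coe.continuousAt.comp (hk.continuousAt (hopen.mem_nhds hy))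
    refine h1.congr ?_
    filter_upwards [hopen.mem_nhds hy] with y' hy'
    have h2 : a y' ∉ Cube.boundary N := hy'
    rw [if_neg h2]

end Ho

open Ho in
theorem pHo (h1 : Wi.S_Rh) (_h2 : S_Gl) : S_Ho := by
  intro N X _ _ x₀ F hF
  classical
  let H : I × (N → I) → X := fun y => if y.2 ∈ Cube.boundary N then x₀ else
    F (fun i => rho (y.2 i), (y.1 : ℝ))
  have hj := jcont h1 (fun y : I × (N → I) => y.2) continuous_snd
    (fun y : I × (N → I) => ((fun i => rho (y.2 i) : N → ℝ), (y.1 : ℝ)))
    (fun v : (N → ℝ) × ℝ => v.1) continuous_fst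
    ((rho_cont h1 (fun y : I × (N → I) => y.2) continuous_snd).prodMk
      (continuous_subtype_val.comp continuous_fst).continuousOn) (fun _ _ => rfl)
  have hH : Continuous H := by
    have e : H = Cel.hat x₀ F ∘ fun y : I × (N → I) => if y.2 ∈ Cube.boundary N then
        (∞ : OnePoint ((N → ℝ) × ℝ)) else
        (((fun i => rho (y.2 i) : N → ℝ), (y.1 : ℝ)) : OnePoint ((N → ℝ) × ℝ)) := by
      funext y
      simp only [H, Function.comp]
      split_ifs <;> rfl
    rw [e]
    refine ContinuousOn.comp_continuous hF hj fun y => ?_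
    by_cases h : y.2 ∈ Cube.boundary N
    · simp only [h, if_true]
      exact mem_insert _ _
    · simp only [h, if_false]
      exact mem_insert_of_mem _ ⟨_, ⟨mem_univ _, y.1.2⟩, rfl⟩
  have hg : ∀ t : I, gl' x₀ (fun v => F (v, (t : ℝ))) = fun s => H (t, s) := by
    intro t
    funext s
    rfl
  have hgc : ∀ t : I, Continuous (gl' x₀ (fun v => F (v, (t : ℝ)))) := by
    intro t
    rw [hg]
    exact hH.comp (continuous_const.prodMk continuous_id)
  have hgl : ∀ (t : I) (s : N → I), gl x₀ (fun v => F (v, (t : ℝ))) s = H (t, s) := by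
    intro t s
    unfold gl
    rw [dif_pos (hgc t)]
    rfl
  have h0 := hgl 0
  have h1' := hgl 1
  simp only [Icc.coe_zero, Icc.coe_one] at h0 h1'
  refine ⟨⟨⟨⟨H, hH⟩, fun s => (h0 s).symm, fun s => (h1' s).symm⟩, ?_⟩⟩
  intro t s hs
  show H (t, s) = gl x₀ (fun v => F (v, 0)) s
  rw [h0]
  simp only [H, hs, if_true]

end Pool.Agent.Tate.Ec
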