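import Pool.Agent.Lib.Tate.R.Ec.Spec

set_option linter.unusedSectionVars false

open Topology unitInterval Filter Set
open scoped Topology.Homotopy OnePoint

noncomputable section

namespace Pool.Agent.Tate.Ec

namespace KaAux

theorem tendsto_infty {Z V : Type} [NormedAddCommGroup V] (l : Filter Z) (k : Z → OnePoint V)
    (h : ∀ R : ℝ, ∀ᶠ z in l, k z = ∞ ∨ ∃ v : V, k z = (v : OnePoint V) ∧ R < ‖v‖) :
    Tendsto k l (𝓝 ∞) := by
  rw [OnePoint.hasBasis_nhds_infty.tendsto_right_iff]
  rintro K ⟨_, hK⟩
  obtain ⟨R, hR⟩ := hK.isBounded.exists_norm_le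
  filter_upwards [h R] with z hz
  rcases hz with hz | ⟨v, hv, hvR⟩
  · right; exact hz
  · left
    refine ⟨v, ?_, hv.symm⟩
    intro hvK
    have := hR v hvK
    linarith

def G (q : OnePoint ℂ × ℝ) : OnePoint (Fin 3 → ℝ) :=
  OnePoint.elim q.1 ∞ fun w => ((![w.re, w.im, q.2] : Fin 3 → ℝ) : OnePoint (Fin 3 → ℝ))

theorem continuous_G : Continuous G := by
  rw [continuous_iff_continuousAt]
  rintro ⟨p, x⟩
  induction p using OnePoint.rec with
  | infty =>
    have hG : G (∞, x) = ∞ := rfl
    unfold ContinuousAt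
    rw [hG]
    apply tendsto_infty
    intro R
    have hopen : ∀ᶠ q : OnePoint ℂ in 𝓝 ∞, q = ∞ ∨ ∃ w : ℂ, q = (w : OnePoint ℂ) ∧ 2 * R < ‖w‖ := by
      have hK : IsCompact (Metric.closedBall (0 : ℂ) (2 * R)) := isCompact_closedBall _ _
      have := OnePoint.hasBasis_nhds_infty.mem_of_mem (i := Metric.closedBall (0 : ℂ) (2 * R))
        ⟨hK.isClosed, hK⟩
      filter_upwards [this] with q hq
      rcases hq with ⟨w, hw, rfl⟩ | hq
      · right
        refine ⟨w, rfl, ?_⟩
        rw [mem_compl_iff, mem_closedBall_zero_iff, not_le] at hw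
        exact hw
      · left; exact hq
    have h2 : ∀ᶠ q : OnePoint ℂ × ℝ in 𝓝 (∞, x), q.1 = ∞ ∨
        ∃ w : ℂ, q.1 = (w : OnePoint ℂ) ∧ 2 * R < ‖w‖ :=
      (continuous_fst.tendsto ((∞ : OnePoint ℂ), x)).eventually hopen
    filter_upwards [h2] with q hq
    rcases hq with hq | ⟨w, hw, hwR⟩
    · left
      unfold G
      rw [hq]
      rfl
    · right
      refine ⟨![w.re, w.im, q.2], ?_, ?_⟩
      · unfold G
        rw [hw]
        rfl
      · have h3 : ‖w‖ ≤ |w.re| + |w.im| := Complex.norm_le_abs_re_add_abs_im w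
        have h4 : |w.re| ≤ ‖(![w.re, w.im, q.2] : Fin 3 → ℝ)‖ :=
          norm_le_pi_norm (![w.re, w.im, q.2] : Fin 3 → ℝ) 0
        have h5 : |w.im| ≤ ‖(![w.re, w.im, q.2] : Fin 3 → ℝ)‖ :=
          norm_le_pi_norm (![w.re, w.im, q.2] : Fin 3 → ℝ) 1
        linarith
  | coe w =>
    have hemb : IsOpenEmbedding (Prod.map ((↑) : ℂ → OnePoint ℂ) (id : ℝ → ℝ)) :=
      OnePoint.isOpenEmbedding_coe.prodMap IsOpenEmbedding.id
    have : ContinuousAt (G ∘ Prod.map ((↑) : ℂ → OnePoint ℂ) (id : ℝ → ℝ)) (w, x) := by
      have e : G ∘ Prod.map ((↑) : ℂ → OnePoint ℂ) (id : ℝ → ℝ) = fun q : ℂ × ℝ =>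
          ((![q.1.re, q.1.im, q.2] : Fin 3 → ℝ) : OnePoint (Fin 3 → ℝ)) := rfl
      rw [e]
      refine (OnePoint.continuous_coe.comp ?_).continuousAt
      refine continuous_pi fun i => ?_
      fin_cases i
      · exact Complex.continuous_re.comp continuous_fst
      · exact Complex.continuous_im.comp continuous_fst
      · exact continuous_snd
    exact (hemb.continuousAt_iff (g := G) (x := (w, x))).1 this

/-- the product rule if one factor vanishes -/
theorem hasFDerivAt_mul' {E : Type} [NormedAddCommGroup E] [NormedSpace ℝ E] {a b : E → ℝ}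
    {a' : E →L[ℝ] ℝ} {p : E} (ha : HasFDerivAt a a' p) (h0 : a p = 0) (hb : ContinuousAt b p) :
    HasFDerivAt (fun v => a v * b v) (b p • a') p := by
  rw [hasFDerivAt_iff_isLittleO]
  have h1 := (hasFDerivAt_iff_isLittleO.1 ha)
  have h2 : (fun v => a v - a p) =O[𝓝 p] fun v => v - p := ha.isBigO_sub
  have h3 : (fun v => b v - b p) =o[𝓝 p] (fun _ => (1 : ℝ)) := by
    rw [Asymptotics.isLittleO_one_iff]
    have : Tendsto (fun v => b v - b p) (𝓝 p) (𝓝 (b p - b p)) :=
      hb.tendsto.sub tendsto_const_nhds
    rwa [sub_self] at this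
  have h4 : (fun v => (b v - b p) * (a v - a p)) =o[𝓝 p] fun v => v - p := by
    have := h3.mul_isBigO (h2.norm_right)
    have e : (fun v => (1 : ℝ) * ‖v - p‖) = fun v => ‖v - p‖ := by
      funext v; ring
    rw [e] at this
    exact this.of_norm_right
  have h5 : (fun v => b p * (a v - a p - a' (v - p))) =o[𝓝 p] fun v => v - p :=
    h1.const_mul_left _
  refine (h4.add h5).congr_left ?_
  intro v
  simp only [h0, smul_apply, smul_eq_mul]
  ring

end KaAux

open KaAux

theorem pKa (hRi : S_Ri) (hPs : S_Ps) (hRh : Wi.S_Rh) : S_Ka := by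
  obtain ⟨hri, hri01, hrr, hrho, hric, -, -, -, hder⟩ := hRi
  obtain ⟨hpsc, hphc, hphps, hpsph, -⟩ := hPs
  obtain ⟨hrhc, hrhi⟩ := hRh
  obtain ⟨S, hS⟩ : ∃ S : (Fin 3 → ℝ) → Fin 3 → I, S = fun u i => ri (u i) := ⟨_, rfl⟩
  have hSc : Continuous S := by
    rw [hS]
    exact continuous_pi fun i => hric.comp (continuous_apply i)
  have hSi : ∀ u i, S u i = ri (u i) := fun u i => by rw [hS]
  have hlt : ∀ u, (rad (S u) : ℝ) < 1 := by
    intro u
    show ‖ctr (S u)‖ < 1
    rw [pi_norm_lt_iff zero_lt_one]
    intro i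
    have h1 : (0 : ℝ) < S u i := by
      have := (hri01 (u i)).1
      rw [← hSi u i] at this
      exact lt_of_le_of_ne (S u i).2.1 fun h => this (Subtype.ext h.symm)
    have h2 : (S u i : ℝ) < 1 := by
      have := (hri01 (u i)).2
      rw [← hSi u i] at this
      exact lt_of_le_of_ne (S u i).2.2 fun h => this (Subtype.ext h)
    unfold ctr
    rw [Real.norm_eq_abs, abs_lt]
    constructor <;> linarith
  have hne1 : ∀ u, rad (S u) ≠ 1 := by
    intro u h
    have := hlt u
    rw [h] at this
    exact lt_irrefl _ this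
  have hne0 : ∀ u, ctr (S u) ≠ 0 → rad (S u) ≠ 0 := by
    intro u h h0
    apply h
    have : ‖ctr (S u)‖ = 0 := congrArg Subtype.val h0
    exact norm_eq_zero.1 this
  have hk1 : ∀ u, ctr (S u) = 0 → kap u = ∞ := by
    intro u h
    unfold kap
    rw [if_pos]
    rw [← h, hS]
  have hk2 : ∀ u, ctr (S u) ≠ 0 → kap u = G (phi (ln (ctr (S u))), rho (rad (S u))) := by
    intro u h
    unfold kap G
    rw [if_neg]
    · rw [hS]
    · intro h0
      apply h
      rw [← h0, hS]
  have hcrad : Continuous fun u => rad (S u) := continuous_rad.comp hSc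
  have hcctr : Continuous fun u => ctr (S u) := continuous_ctr.comp hSc
  -- large values
  have hbig : ∀ (u : Fin 3 → ℝ) (R : ℝ), R < |rho (rad (S u))| →
      kap u = ∞ ∨ ∃ v : Fin 3 → ℝ, kap u = (v : OnePoint (Fin 3 → ℝ)) ∧ R < ‖v‖ := by
    intro u R hR
    by_cases h : ctr (S u) = 0
    · left; exact hk1 u h
    · rw [hk2 u h]
      unfold G
      generalize phi (ln (ctr (S u))) = q
      induction q using OnePoint.rec with
      | infty => left; rfl
      | coe w =>
        right
        refine ⟨![w.re, w.im, rho (rad (S u))], rfl, ?_⟩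
        have h5 : |rho (rad (S u))| ≤ ‖(![w.re, w.im, rho (rad (S u))] : Fin 3 → ℝ)‖ :=
          norm_le_pi_norm (![w.re, w.im, rho (rad (S u))] : Fin 3 → ℝ) 2
        linarith
  have hlim : ∀ (l : Filter (Fin 3 → ℝ)) (t : I), (t = 0 ∨ t = 1) →
      Tendsto (fun u => rad (S u)) l (𝓝 t) → Tendsto kap l (𝓝 ∞) := by
    intro l t ht hl
    apply tendsto_infty
    intro R
    filter_upwards [hl.eventually (hrhi t ht (R + 1))] with u hu
    by_cases h : ctr (S u) = 0
    · left; exact hk1 u h
    · apply hbig
      have := hu (hne0 u h) (hne1 u)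
      linarith
  have hcont : Continuous kap := by
    rw [continuous_iff_continuousAt]
    intro u
    by_cases h : ctr (S u) = 0
    · unfold ContinuousAt
      rw [hk1 u h]
      apply hlim _ 0 (Or.inl rfl)
      have := hcrad.tendsto u
      rwa [rad_eq_zero h] at this
    · have hev : ∀ᶠ v in 𝓝 u, ctr (S v) ≠ 0 := (isOpen_ne.preimage hcctr).mem_nhds h
      refine ContinuousAt.congr
        (f := fun v => G (phi (ln (ctr (S v))), rho (rad (S v)))) ?_ ?_
      · refine continuous_G.continuousAt.comp (ContinuousAt.prodMk ?_ ?_)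
        · refine hphc.continuousAt.comp ?_
          refine Topology.IsInducing.subtypeVal.continuousAt_iff.2 ?_
          refine continuousAt_pi.2 fun a => continuousAt_pi.2 fun b => ?_
          exact ContinuousAt.comp (x := u) (g := fun w => lnm w a b)
            (f := fun v => ctr (S v)) (continuousAt_lnm h a b) hcctr.continuousAt
        · have ho : IsOpen {t : I | t ≠ 0 ∧ t ≠ 1} := isOpen_ne.inter isOpen_ne
          have := hrhc.continuousAt (ho.mem_nhds ⟨hne0 u h, hne1 u⟩)
          exact ContinuousAt.comp (x := u) (g := rho) (f := fun v => rad (S v)) this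
            hcrad.continuousAt
      · filter_upwards [hev] with v hv
        exact (hk2 v hv).symm
  have hinf : Tendsto kap (cocompact (Fin 3 → ℝ)) (𝓝 ∞) := by
    apply hlim _ 1 (Or.inr rfl)
    rw [tendsto_subtype_rng]
    have hn : Tendsto (fun u : Fin 3 → ℝ => ‖u‖) (cocompact (Fin 3 → ℝ)) atTop :=
      tendsto_norm_cocompact_atTop
    have h1 : Tendsto (fun u : Fin 3 → ℝ => 1 - 4 / (4 + ‖u‖)) (cocompact (Fin 3 → ℝ))
        (𝓝 (1 - 0)) := by
      refine tendsto_const_nhds.sub ?_
      exact (tendsto_const_nhds (x := (4 : ℝ))).div_atTop (tendsto_atTop_add_const_left _ _ hn)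
    rw [sub_zero] at h1
    refine tendsto_of_tendsto_of_tendsto_of_le_of_le h1 tendsto_const_nhds ?_ ?_
    · intro u
      show 1 - 4 / (4 + ‖u‖) ≤ ‖ctr (S u)‖
      obtain ⟨i, hi⟩ : ∃ i, ‖u‖ = |u i| := by
        obtain ⟨i, _, hi⟩ := Finset.exists_max_image Finset.univ (fun i => |u i|)
          ⟨(0 : Fin 3), Finset.mem_univ _⟩
        refine ⟨i, le_antisymm ?_ (norm_le_pi_norm u i)⟩
        rw [pi_norm_le_iff_of_nonneg (abs_nonneg _)]
        intro j
        exact hi j (Finset.mem_univ _)
      have h3 : |ctr (S u) i| ≤ ‖ctr (S u)‖ := norm_le_pi_norm (ctr (S u)) i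
      have h4 : ctr (S u) i = u i / (2 + Real.sqrt (4 + u i ^ 2)) := by
        unfold ctr
        rw [hSi, hri]
        ring
      have h5 : Real.sqrt (4 + u i ^ 2) ≤ 2 + |u i| := by
        rw [Real.sqrt_le_left (by positivity)]
        nlinarith [abs_nonneg (u i), sq_abs (u i)]
      have h6 : 0 ≤ Real.sqrt (4 + u i ^ 2) := Real.sqrt_nonneg _
      have h7 : |u i| / (4 + |u i|) ≤ |ctr (S u) i| := by
        rw [h4, abs_div, abs_of_pos (show 0 < 2 + Real.sqrt (4 + u i ^ 2) by linarith)]
        apply div_le_div_of_nonneg_left (abs_nonneg _) (by linarith) (by linarith)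
      have h8 : 1 - 4 / (4 + |u i|) = |u i| / (4 + |u i|) := by
        have : 4 + |u i| ≠ 0 := by positivity
        field_simp
        ring
      rw [hi, h8]
      exact h7.trans h3
    · intro u
      exact (rad (S u)).2.2
  have hctri : ∀ u i, ctr (S u) i = 2 * (ri (u i) : ℝ) - 1 := by
    intro u i
    unfold ctr
    rw [hSi]
  refine ⟨?_, ?_⟩
  · unfold Cel.VanOn
    rw [image_univ]
    apply Continuous.continuousOn
    rw [continuous_iff_continuousAt]
    intro q
    induction q using OnePoint.rec with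
    | infty =>
      rw [OnePoint.continuousAt_infty']
      have : (coclosedCompact (Fin 3 → ℝ)) = cocompact (Fin 3 → ℝ) := coclosedCompact_eq_cocompact
      rw [this]
      exact hinf
    | coe u =>
      rw [OnePoint.continuousAt_coe]
      exact hcont.continuousAt
  · -- the point `p`
    have hq4 : (1 / 4 : ℝ) ∈ Set.Icc (0 : ℝ) 1 := by constructor <;> norm_num
    have hq2 : (1 / 2 : ℝ) ∈ Set.Icc (0 : ℝ) 1 := by constructor <;> norm_num
    obtain ⟨t4, ht4⟩ : ∃ t : I, (t : ℝ) = 1 / 4 := ⟨⟨1 / 4, hq4⟩, rfl⟩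
    obtain ⟨t2, ht2⟩ : ∃ t : I, (t : ℝ) = 1 / 2 := ⟨⟨1 / 2, hq2⟩, rfl⟩
    have hrho2 : rho t2 = 0 := by
      unfold rho
      rw [ht2]
      norm_num
    have hri0 : ri 0 = t2 := by
      rw [← hrho2]
      apply hrho
      · intro h; rw [h] at ht2; norm_num at ht2
      · intro h; rw [h] at ht2; norm_num at ht2
    have hri4 : ri (rho t4) = t4 := by
      apply hrho
      · intro h; rw [h] at ht4; norm_num at ht4
      · intro h; rw [h] at ht4; norm_num at ht4
    obtain ⟨p, hp⟩ : ∃ p : Fin 3 → ℝ, p = ![0, 0, rho t4] := ⟨_, rfl⟩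
    have hp0 : p 0 = 0 := by rw [hp]; rfl
    have hp1 : p 1 = 0 := by rw [hp]; rfl
    have hp2 : p 2 = rho t4 := by rw [hp]; rfl
    have hc0 : ctr (S p) 0 = 0 := by rw [hctri, hp0, hri0, ht2]; norm_num
    have hc1 : ctr (S p) 1 = 0 := by rw [hctri, hp1, hri0, ht2]; norm_num
    have hc2 : ctr (S p) 2 = -(1 / 2) := by rw [hctri, hp2, hri4, ht4]; norm_num
    have hnp : nrm (ctr (S p)) = 1 / 2 := by
      unfold nrm
      rw [hc0, hc1, hc2]
      rw [show ((0 : ℝ) ^ 2 + 0 ^ 2 + (-(1 / 2)) ^ 2) = (1 / 2) ^ 2 by norm_num]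
      exact Real.sqrt_sq (by norm_num)
    obtain ⟨rr, hrr'⟩ : ∃ rr : ℝ → ℝ, rr = fun t => (2 * t - 1) / (t * (1 - t)) := ⟨_, rfl⟩
    obtain ⟨B, hB⟩ : ∃ B : (Fin 3 → ℝ) → ℝ,
      B = fun v => (nrm (ctr (S v)) - ctr (S v) 2)⁻¹ := ⟨_, rfl⟩
    obtain ⟨κ', hκ⟩ : ∃ κ' : (Fin 3 → ℝ) → Fin 3 → ℝ, κ' = fun v =>
      ![ctr (S v) 0 * B v, -ctr (S v) 1 * B v, rr (-ctr (S v) 2)] := ⟨_, rfl⟩
    have hncont : Continuous fun v => nrm (ctr (S v)) := by
      have : Continuous nrm := by unfold nrm; fun_prop
      exact this.comp hcctr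
    have hBc : ContinuousAt B p := by
      rw [hB]
      refine ContinuousAt.inv₀ ?_ ?_
      · exact hncont.continuousAt.sub ((continuous_apply 2).comp hcctr).continuousAt
      · rw [hnp, hc2]; norm_num
    have hBp : B p = 1 := by
      rw [hB]
      simp only []
      rw [hnp, hc2]; norm_num
    refine ⟨p, κ', ![2 * (1 / (Real.sqrt (4 + p 0 ^ 2) * (2 + Real.sqrt (4 + p 0 ^ 2)))),
      -(2 * (1 / (Real.sqrt (4 + p 1 ^ 2) * (2 + Real.sqrt (4 + p 1 ^ 2))))),
      -(16 * (1 / (Real.sqrt (4 + p 2 ^ 2) * (2 + Real.sqrt (4 + p 2 ^ 2)))))], ?_, ?_, ?_, ?_, ?_,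
      ?_, ?_⟩
    · -- zeros
      intro v hv
      by_cases h : ctr (S v) = 0
      · rw [hk1 v h] at hv
        exact absurd hv (OnePoint.infty_ne_coe _)
      · rw [hk2 v h] at hv
        obtain ⟨q, hq⟩ : ∃ q, q = phi (ln (ctr (S v))) := ⟨_, rfl⟩
        rw [← hq] at hv
        have hq' : psiH q = ln (ctr (S v)) := by rw [hq]; exact hpsph _
        induction q using OnePoint.rec with
        | infty => exact absurd hv (OnePoint.infty_ne_coe _)
        | coe w =>
          have hv' : (![w.re, w.im, rho (rad (S v))] : Fin 3 → ℝ) = 0 := OnePoint.coe_injective hv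
          have e0 : w.re = 0 := congrFun hv' 0
          have e1 : w.im = 0 := congrFun hv' 1
          have e2 : rho (rad (S v)) = 0 := congrFun hv' 2
          have hw : w = 0 := Complex.ext e0 e1
          subst hw
          have hff : (lnm (ctr (S v)) false false) = 0 := by
            have h1 : (psiH ((0 : ℂ) : OnePoint ℂ)).1 false false = lnm (ctr (S v)) false false := by
              rw [hq']
              rfl
            rw [← h1]
            show (((Complex.normSq 0 / (1 + Complex.normSq 0) : ℝ)) : ℂ) = 0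
            simp
          have hnpos := nrm_pos h
          obtain ⟨c, hcdef⟩ : ∃ c, c = ctr (S v) := ⟨_, rfl⟩
          rw [← hcdef] at hff hnpos h
          have hff2 : 1 + c 2 / nrm c = 0 := by
            unfold lnm at hff
            rw [if_neg h] at hff
            simp only [] at hff
            have h2 : ((1 : ℂ) + (c 2 : ℂ) / (nrm c : ℂ)) = 0 := by
              have := mul_eq_zero.1 (show ((1 : ℂ) + (c 2 : ℂ) / (nrm c : ℂ)) * (2 : ℂ)⁻¹ = 0 by
                rw [← div_eq_mul_inv]; exact hff)
              rcases this with h3 | h3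
              · exact h3
              · norm_num at h3
            exact_mod_cast h2
          have hc2' : c 2 = -nrm c := by
            have : nrm c ≠ 0 := hnpos.ne'
            field_simp at hff2
            linarith
          have hsq := nrm_sq c
          have h0 : c 0 = 0 := by
            have : c 2 ^ 2 = nrm c ^ 2 := by rw [hc2']; ring
            nlinarith [sq_nonneg (c 0), sq_nonneg (c 1)]
          have h1 : c 1 = 0 := by
            have : c 2 ^ 2 = nrm c ^ 2 := by rw [hc2']; ring
            nlinarith [sq_nonneg (c 0), sq_nonneg (c 1)]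
          have hc2neg : c 2 < 0 := by linarith
          have hnorm : ‖c‖ = -c 2 := by
            apply le_antisymm
            · rw [pi_norm_le_iff_of_nonneg (by linarith)]
              intro i
              fin_cases i
              · show ‖c 0‖ ≤ _
                rw [h0, norm_zero]; linarith
              · show ‖c 1‖ ≤ _
                rw [h1, norm_zero]; linarith
              · show ‖c 2‖ ≤ _
                rw [Real.norm_eq_abs, abs_of_neg hc2neg]
            · have := norm_le_pi_norm c 2
              rw [Real.norm_eq_abs, abs_of_neg hc2neg] at this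
              exact this
          have hr : (rad (S v) : ℝ) = -c 2 := by
            rw [← hnorm, hcdef]
            rfl
          have hr1 := hlt v
          rw [hr] at hr1
          have hr2 : 2 * (rad (S v) : ℝ) - 1 = 0 := by
            unfold rho at e2
            rw [hr] at e2 ⊢
            rcases div_eq_zero_iff.1 e2 with h3 | h3
            · exact h3
            · rcases mul_eq_zero.1 h3 with h4 | h4 <;> linarith
          rw [hr] at hr2
          have hcv : ∀ i, c i = 2 * (ri (v i) : ℝ) - 1 := by
            intro i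
            rw [hcdef]
            exact hctri v i
          have key : ∀ i (t : I), (ri (v i) : ℝ) = t → v i = rho t := by
            intro i t ht
            have : ri (v i) = t := Subtype.ext ht
            rw [← this, hrr]
          have k0' : v 0 = 0 := by
            have := key 0 t2 (by have := hcv 0; rw [ht2]; linarith)
            rw [this, hrho2]
          have k1' : v 1 = 0 := by
            have := key 1 t2 (by have := hcv 1; rw [ht2]; linarith)
            rw [this, hrho2]
          have k2' : v 2 = rho t4 := key 2 t4 (by have := hcv 2; rw [ht4]; linarith)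
          funext i
          fin_cases i
          · show v 0 = p 0
            rw [k0', hp0]
          · show v 1 = p 1
            rw [k1', hp1]
          · show v 2 = p 2
            rw [k2', hp2]
    · -- near `p`
      have o0 : ∀ᶠ v in 𝓝 p, |ctr (S v) 0| < 1 / 4 := by
        have hc : Continuous fun v => |ctr (S v) 0| := ((continuous_apply 0).comp hcctr).abs
        have := hc.tendsto p
        rw [hc0, abs_zero] at this
        exact this.eventually (gt_mem_nhds (by norm_num))
      have o1 : ∀ᶠ v in 𝓝 p, |ctr (S v) 1| < 1 / 4 := by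
        have hc : Continuous fun v => |ctr (S v) 1| := ((continuous_apply 1).comp hcctr).abs
        have := hc.tendsto p
        rw [hc1, abs_zero] at this
        exact this.eventually (gt_mem_nhds (by norm_num))
      have o2 : ∀ᶠ v in 𝓝 p, ctr (S v) 2 < -(1 / 4) := by
        have hc : Continuous fun v => ctr (S v) 2 := (continuous_apply 2).comp hcctr
        have := hc.tendsto p
        rw [hc2] at this
        exact this.eventually (gt_mem_nhds (by norm_num))
      filter_upwards [o0, o1, o2] with v v0 v1 v2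
      have hne : ctr (S v) ≠ 0 := by
        intro h
        rw [h] at v2
        simp at v2
        linarith
      rw [hk2 v hne, hκ]
      simp only []
      have hnorm : (rad (S v) : ℝ) = -ctr (S v) 2 := by
        show ‖ctr (S v)‖ = _
        apply le_antisymm
        · rw [pi_norm_le_iff_of_nonneg (by linarith)]
          intro i
          fin_cases i
          · show |ctr (S v) 0| ≤ _
            linarith
          · show |ctr (S v) 1| ≤ _
            linarith
          · show |ctr (S v) 2| ≤ _
            rw [abs_of_neg (by linarith)]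
        · have := norm_le_pi_norm (ctr (S v)) 2
          rw [Real.norm_eq_abs, abs_of_neg (by linarith)] at this
          exact this
      have hrho' : rho (rad (S v)) = rr (-ctr (S v) 2) := by
        unfold rho
        rw [hnorm, hrr']
      rw [hrho', hB]
      simp only []
      obtain ⟨c, hcdef⟩ : ∃ c, c = ctr (S v) := ⟨_, rfl⟩
      rw [← hcdef] at hne v2 ⊢
      have hnpos := nrm_pos hne
      have hden : nrm c - c 2 ≠ 0 := by
        have : 0 < nrm c - c 2 := by linarith
        exact this.ne'
      have htt : lnm c true true ≠ 0 := by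
        unfold lnm
        rw [if_neg hne]
        simp only []
        have h1 : ((1 : ℂ) - (c 2 : ℂ) / (nrm c : ℂ)) / 2 =
            (((nrm c - c 2) / (2 * nrm c) : ℝ) : ℂ) := by
          have : (nrm c : ℂ) ≠ 0 := by exact_mod_cast hnpos.ne'
          push_cast
          field_simp
        rw [h1]
        have h2 : (nrm c - c 2) / (2 * nrm c) ≠ 0 := div_ne_zero hden (by positivity)
        exact_mod_cast h2
      have hphi : phi (ln c) = ((⟨c 0 * (nrm c - c 2)⁻¹, -c 1 * (nrm c - c 2)⁻¹⟩ : ℂ) :
          OnePoint ℂ) := by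
        unfold phi
        rw [if_neg (show ¬ (ln c).1 true true = 0 from htt)]
        congr 1
        show lnm c false true / lnm c true true = _
        unfold lnm
        simp only [if_neg hne]
        have h1 : (nrm c : ℂ) ≠ 0 := by exact_mod_cast hnpos.ne'
        have h2 : (nrm c : ℂ) - (c 2 : ℂ) ≠ 0 := by exact_mod_cast hden
        have h3 : (1 : ℂ) - (c 2 : ℂ) / (nrm c : ℂ) ≠ 0 := by
          intro h4
          apply h2
          field_simp at h4
          simpa using h4
        rw [Complex.mk_eq_add_mul_I]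
        push_cast
        field_simp
        ring
      rw [hphi]
      rfl
    · rw [hκ]
      simp only []
      rw [hc0, hc1, hc2, hrr']
      funext i
      fin_cases i <;> simp
    · show 0 < 2 * (1 / (Real.sqrt (4 + p 0 ^ 2) * (2 + Real.sqrt (4 + p 0 ^ 2))))
      positivity
    · show -(2 * (1 / (Real.sqrt (4 + p 1 ^ 2) * (2 + Real.sqrt (4 + p 1 ^ 2))))) < 0
      have : 0 < 2 * (1 / (Real.sqrt (4 + p 1 ^ 2) * (2 + Real.sqrt (4 + p 1 ^ 2)))) := by positivity
      linarith
    · show -(16 * (1 / (Real.sqrt (4 + p 2 ^ 2) * (2 + Real.sqrt (4 + p 2 ^ 2))))) < 0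
      have : 0 < 16 * (1 / (Real.sqrt (4 + p 2 ^ 2) * (2 + Real.sqrt (4 + p 2 ^ 2)))) := by positivity
      linarith
    · -- the derivative
      have hcd : ∀ i, HasFDerivAt (fun v : Fin 3 → ℝ => ctr (S v) i)
          ((2 * (1 / (Real.sqrt (4 + p i ^ 2) * (2 + Real.sqrt (4 + p i ^ 2))))) •
            (ContinuousLinearMap.proj i : (Fin 3 → ℝ) →L[ℝ] ℝ)) p := by
        intro i
        have e : (fun v : Fin 3 → ℝ => ctr (S v) i) = fun v => 2 * (ri (v i) : ℝ) - 1 := by
          funext v
          exact hctri v i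
        rw [e]
        have h1 := (hder (p i)).const_mul 2
        have h2 : HasDerivAt (fun x : ℝ => 2 * (ri x : ℝ) - 1)
            (2 * (1 / (Real.sqrt (4 + p i ^ 2) * (2 + Real.sqrt (4 + p i ^ 2))))) (p i) :=
          h1.sub_const 1
        have h3 : HasFDerivAt (fun v : Fin 3 → ℝ => v i)
            (ContinuousLinearMap.proj i : (Fin 3 → ℝ) →L[ℝ] ℝ) p :=
          (ContinuousLinearMap.proj i : (Fin 3 → ℝ) →L[ℝ] ℝ).hasFDerivAt
        exact h2.comp_hasFDerivAt p h3
      rw [hasFDerivAt_pi]
      intro i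
      fin_cases i
      · have h1 := hasFDerivAt_mul' (hcd 0) hc0 hBc
        rw [hBp, one_smul] at h1
        rw [hκ]
        exact h1
      · have h1 := hasFDerivAt_mul' (hcd 1).neg (by simp [hc1]) hBc
        rw [hBp, one_smul] at h1
        rw [hκ]
        refine h1.congr_fderiv ?_
        ext v
        simp
      · have hrrd : HasDerivAt rr 8 (1 / 2) := by
          rw [hrr']
          have n1 : HasDerivAt (fun t : ℝ => 2 * t - 1) 2 (1 / 2) := by
            simpa using ((hasDerivAt_id (1 / 2 : ℝ)).const_mul 2).sub_const 1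
          have n2 : HasDerivAt (fun t : ℝ => t * (1 - t)) (1 * (1 - 1 / 2) + 1 / 2 * (-1)) (1 / 2) := by
            exact (hasDerivAt_id' (1 / 2 : ℝ)).fun_mul ((hasDerivAt_id' (1 / 2 : ℝ)).const_sub 1)
          have n3 := n1.fun_div n2 (by norm_num)
          exact n3.congr_deriv (by norm_num)
        have h2 : HasDerivAt rr 8 (-ctr (S p) 2) := by
          rw [hc2, neg_neg]
          exact hrrd
        have h3 := h2.comp_hasFDerivAt p (hcd 2).neg
        rw [hκ]
        refine HasFDerivAt.congr_fderiv h3 ?_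
        ext v
        simp
        ring

end Pool.Agent.Tate.Ec
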