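import Pool.Agent.Lib.Tate.R.Ec.Spec

/-!
# C42, block R/Ec: every `GenLoop` comes from a function (`S_Lg`)
-/

set_option autoImplicit false

open Topology unitInterval Filter Set
open scoped Topology.Homotopy OnePoint

noncomputable section

namespace Pool.Agent.Tate.Ec

namespace Lg

private lemma rho_cont' : ContinuousOn rho {t : I | t ≠ 0 ∧ t ≠ 1} := by
  unfold rho
  refine ContinuousOn.div (by fun_prop) (by fun_prop) fun t ht => ?_
  have h0 : (t : ℝ) ≠ 0 := fun h => ht.1 (Subtype.ext h)
  have h1 : (1 - (t : ℝ)) ≠ 0 := fun h => ht.2 (Subtype.ext (by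
    show (t : ℝ) = 1
    linarith))
  exact mul_ne_zero h0 h1

private lemma rho_cont {N : Type} : ContinuousOn (fun (y : N → I) (i : N) => rho (y i))
      {y | y ∉ Cube.boundary N} := by
  refine continuousOn_pi.2 fun i => ?_
  refine rho_cont'.comp (continuous_apply i).continuousOn fun y hy => ?_
  have h : ¬ ∃ i, y i = 0 ∨ y i = 1 := hy
  push Not at h
  exact h i

end Lg

open Lg in
theorem pLg (h1 : S_Ri) (h2 : Cel.S_Ha) : S_Lg := by
  intro N X _ _ x₀ g
  classical
  obtain ⟨-, -, hr, hir, hric, -⟩ := h1
  have hf : Continuous fun v : N → ℝ => g fun i => ri (v i) :=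
    g.1.continuous.comp (continuous_pi fun i => hric.comp (continuous_apply i))
  constructor
  · rw [h2]
    refine ⟨hf.continuousOn, ?_⟩
    rw [principal_univ, inf_top_eq]
    refine tendsto_nhds.2 fun U hU hx => ?_
    rw [Filter.mem_cocompact]
    have hC : IsCompact {s : N → I | g s ∉ U} :=
      (hU.isClosed_compl.preimage g.1.continuous).isCompact
    have hCb : {s : N → I | g s ∉ U} ⊆ {y | y ∉ Cube.boundary N} := by
      intro s hs hb
      apply hs
      have h3 : g s = x₀ := g.2 s hb
      rwa [h3]
    refine ⟨_, hC.image_of_continuousOn (rho_cont.mono hCb), ?_⟩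
    intro v hv
    by_contra hcon
    exact hv ⟨fun i => ri (v i), hcon, funext fun i => hr (v i)⟩
  · have e : gl' x₀ (fun v : N → ℝ => g fun i => ri (v i)) = g := by
      funext s
      unfold gl'
      split_ifs with h
      · exact (g.2 s h).symm
      · have h3 : ¬ ∃ i, s i = 0 ∨ s i = 1 := h
        push Not at h3
        show g (fun i => ri (rho (s i))) = g s
        congr 1
        exact funext fun i => hir (s i) (h3 i).1 (h3 i).2
    have hc : Continuous (gl' x₀ (fun v : N → ℝ => g fun i => ri (v i))) := by
      rw [e]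
      exact g.1.continuous
    unfold gl
    rw [dif_pos hc]
    apply Subtype.ext
    apply ContinuousMap.ext
    intro s
    exact congrFun e s

end Pool.Agent.Tate.Ec
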