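import Pool.Agent.Lib.Tate.R.Ec.Spec

/-!
# C42 (MP_071d69_gt), R/Ec/Li: linear maps act by the sign of the determinant (helper25, task 12412)
-/

set_option autoImplicit false
set_option linter.unusedSectionVars false

open Topology unitInterval Filter Set
open scoped Topology.Homotopy OnePoint

noncomputable section

namespace Pool.Agent.Tate.Ec

namespace LiAux

theorem univ_eq {Z : Type} :
    insert (∞ : OnePoint Z) ((fun z : Z => (z : OnePoint Z)) '' univ) = univ := by
  ext p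
  simp only [mem_univ, iff_true]
  induction p using OnePoint.rec with
  | infty => exact mem_insert _ _
  | coe z => exact mem_insert_of_mem _ ⟨z, mem_univ _, rfl⟩

theorem van_univ {Z Y : Type} [TopologicalSpace Z] [TopologicalSpace Y] {y0 : Y} {h : Z → Y} :
    Cel.VanOn y0 univ h ↔ Continuous (Cel.hat y0 h) := by
  unfold Cel.VanOn
  rw [univ_eq, continuousOn_univ]

theorem van_comp {Z Z' Y : Type} [TopologicalSpace Z] [TopologicalSpace Z'] [TopologicalSpace Y]
    {y0 : Y} {f : Z' → Y} {k : Z → OnePoint Z'} (hf : Cel.VanOn y0 univ f)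
    (hk : Cel.VanOn (∞ : OnePoint Z') univ k) :
    Cel.VanOn y0 univ (fun v => Cel.hat y0 f (k v)) := by
  rw [van_univ] at hf hk ⊢
  have h : Cel.hat y0 (fun v => Cel.hat y0 f (k v)) = Cel.hat y0 f ∘ Cel.hat ∞ k := by
    funext p
    induction p using OnePoint.rec with
    | infty => rfl
    | coe z => rfl
  rw [h]
  exact hf.comp hk

variable {N X : Type} [Fintype N] [TopologicalSpace X] {x₀ : X}

theorem bound (k' : (N → ℝ) × ℝ → (N → ℝ)) (hc : Continuous k')
    (hl : ∀ (t c : ℝ) (v : N → ℝ), k' (c • v, t) = c • k' (v, t))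
    (hi : ∀ t ∈ Icc (0 : ℝ) 1, ∀ v, k' (v, t) = 0 → v = 0) :
    ∃ δ : ℝ, 0 < δ ∧ ∀ t ∈ Icc (0 : ℝ) 1, ∀ v, δ * ‖v‖ ≤ ‖k' (v, t)‖ := by
  have hK : IsCompact (Metric.sphere (0 : N → ℝ) 1 ×ˢ Icc (0 : ℝ) 1) :=
    (isCompact_sphere _ _).prod isCompact_Icc
  obtain ⟨δ, hδ, h⟩ := hK.exists_forall_le' (f := fun z => ‖k' z‖) hc.norm.continuousOn (a := 0)
    (by
      rintro ⟨v, t⟩ ⟨hv, ht⟩
      rw [norm_pos_iff]
      intro h0
      have := hi t ht v h0
      subst this
      simp at hv)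
  refine ⟨δ, hδ, fun t ht v => ?_⟩
  by_cases hv : v = 0
  · subst hv
    simp
  have hn : 0 < ‖v‖ := norm_pos_iff.2 hv
  have h1 := h (‖v‖⁻¹ • v, t) ⟨by
    rw [mem_sphere_zero_iff_norm, norm_smul, norm_inv, norm_norm, inv_mul_cancel₀ hn.ne'], ht⟩
  have h2 : k' (v, t) = ‖v‖ • k' (‖v‖⁻¹ • v, t) := by
    rw [← hl, smul_smul, mul_inv_cancel₀ hn.ne', one_smul]
  rw [h2, norm_smul, norm_norm, mul_comm]
  exact mul_le_mul_of_nonneg_left h1 hn.le

theorem proper (k' : (N → ℝ) × ℝ → (N → ℝ)) (hc : Continuous k')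
    (hl : ∀ (t c : ℝ) (v : N → ℝ), k' (c • v, t) = c • k' (v, t))
    (hi : ∀ t ∈ Icc (0 : ℝ) 1, ∀ v, k' (v, t) = 0 → v = 0) :
    Tendsto (fun z => ‖k' z‖) (cocompact ((N → ℝ) × ℝ) ⊓ 𝓟 (univ ×ˢ Icc (0 : ℝ) 1)) atTop := by
  obtain ⟨δ, hδ, h⟩ := bound k' hc hl hi
  refine tendsto_atTop.2 fun b => ?_
  rw [eventually_inf_principal]
  have hK : IsCompact (Metric.closedBall (0 : N → ℝ) (b / δ) ×ˢ Icc (0 : ℝ) 1) :=
    (isCompact_closedBall _ _).prod isCompact_Icc
  filter_upwards [hK.compl_mem_cocompact] with z hz hz'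
  have h1 : z.1 ∉ Metric.closedBall (0 : N → ℝ) (b / δ) := fun h2 => hz ⟨h2, hz'.2⟩
  rw [mem_closedBall_zero_iff, not_le, div_lt_iff₀ hδ] at h1
  have h3 := h z.2 hz'.2 z.1
  have h4 : k' (z.1, z.2) = k' z := rfl
  rw [h4] at h3
  linarith [mul_comm δ ‖z.1‖]

/-- the path lemma -/
theorem path (hPu : S_Pu) (hPc : S_Pc) {f : (N → ℝ) → X} (hf : Cel.VanOn x₀ univ f)
    (k' : (N → ℝ) × ℝ → (N → ℝ)) (hc : Continuous k')
    (hl : ∀ (t c : ℝ) (v : N → ℝ), k' (c • v, t) = c • k' (v, t))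
    (hi : ∀ t ∈ Icc (0 : ℝ) 1, ∀ v, k' (v, t) = 0 → v = 0) :
    GenLoop.Homotopic (gl x₀ fun v => f (k' (v, 0))) (gl x₀ fun v => f (k' (v, 1))) := by
  have h1 := hPc ((N → ℝ) × ℝ) (N → ℝ) (univ ×ˢ Icc (0 : ℝ) 1) k' hc.continuousOn
    (proper k' hc hl hi)
  exact hPu N (N → ℝ) X x₀ f (fun z => (k' z : OnePoint (N → ℝ))) hf h1

variable [DecidableEq N]

theorem inj {A : Matrix N N ℝ} (h : A.det ≠ 0) {v : N → ℝ} (hv : A.mulVec v = 0) : v = 0 := by
  have h1 : A⁻¹ * A = 1 := Matrix.nonsing_inv_mul A (isUnit_iff_ne_zero.2 h)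
  rw [← Matrix.one_mulVec v, ← h1, ← Matrix.mulVec_mulVec, hv, Matrix.mulVec_zero]

theorem pathM (hPu : S_Pu) (hPc : S_Pc) {f : (N → ℝ) → X} (hf : Cel.VanOn x₀ univ f)
    (A : ℝ → Matrix N N ℝ) (hc : Continuous A) (hd : ∀ t ∈ Icc (0 : ℝ) 1, (A t).det ≠ 0) :
    GenLoop.Homotopic (gl x₀ fun v => f ((A 0).mulVec v)) (gl x₀ fun v => f ((A 1).mulVec v)) :=
  path hPu hPc hf (fun z => (A z.2).mulVec z.1)
    ((hc.comp continuous_snd).matrix_mulVec continuous_fst)
    (fun t c v => Matrix.mulVec_smul _ _ _) fun t ht v hv => inj (hd t ht) hv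

theorem van_mul (hPc : S_Pc) {f : (N → ℝ) → X} (hf : Cel.VanOn x₀ univ f) {A : Matrix N N ℝ}
    (hA : A.det ≠ 0) : Cel.VanOn x₀ univ fun v => f (A.mulVec v) := by
  have hcA : Continuous fun v : N → ℝ => A.mulVec v :=
    continuous_const.matrix_mulVec continuous_id
  obtain ⟨δ, hδ, h⟩ := bound (fun z : (N → ℝ) × ℝ => A.mulVec z.1) (hcA.comp continuous_fst)
    (fun t c v => Matrix.mulVec_smul _ _ _) fun t ht v hv => inj hA hv
  have h1 : Tendsto (fun v : N → ℝ => ‖A.mulVec v‖) (cocompact (N → ℝ) ⊓ 𝓟 univ) atTop := by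
    rw [principal_univ, inf_top_eq]
    refine tendsto_atTop_mono (fun v => h 0 ⟨le_rfl, zero_le_one⟩ v) ?_
    exact (tendsto_norm_cocompact_atTop).const_mul_atTop hδ
  exact van_comp hf (hPc (N → ℝ) (N → ℝ) univ _ hcA.continuousOn h1)

/-- the reflection of the cube -/
def rf (i : N) (s : N → I) : N → I := fun j => if j = i then σ (s i) else s j

theorem rf_rf (i : N) (s : N → I) : rf i (rf i s) = s := by
  funext j
  unfold rf
  by_cases h : j = i
  · subst h
    simp
  · simp [h]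

theorem rf_bd {i : N} {s : N → I} (h : s ∈ Cube.boundary N) : rf i s ∈ Cube.boundary N := by
  obtain ⟨j, hj⟩ := h
  refine ⟨j, ?_⟩
  unfold rf
  by_cases h : j = i
  · subst h
    rw [if_pos rfl]
    rcases hj with hj | hj
    · right
      rw [hj, symm_zero]
    · left
      rw [hj, symm_one]
  · rw [if_neg h]
    exact hj

theorem rf_bd' {i : N} {s : N → I} : rf i s ∈ Cube.boundary N ↔ s ∈ Cube.boundary N :=
  ⟨fun h => rf_rf i s ▸ rf_bd h, rf_bd⟩

theorem rho_symm (t : I) : rho (σ t) = -rho t := by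
  unfold rho
  rw [coe_symm_eq]
  rw [← neg_div]
  congr 1 <;> ring

theorem gl_apply (hG : S_Gl) {f : (N → ℝ) → X} (hf : Cel.VanOn x₀ univ f) (s : N → I) :
    gl x₀ f s = gl' x₀ f s := by
  unfold gl
  rw [dif_pos (hG N X x₀ f hf)]
  rfl

/-- the reflection matrix -/
def rm (i : N) : Matrix N N ℝ := Matrix.diagonal fun j => if j = i then -1 else 1

theorem rm_det (i : N) : (rm i).det = -1 := by
  unfold rm
  rw [Matrix.det_diagonal, Finset.prod_ite_eq' Finset.univ i fun _ => (-1 : ℝ)]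
  simp

theorem gl_rm (hG : S_Gl) (hPc : S_Pc) {f : (N → ℝ) → X} (hf : Cel.VanOn x₀ univ f) (i : N) :
    gl x₀ (fun v => f ((rm i).mulVec v)) = GenLoop.symmAt i (gl x₀ f) := by
  have hd : (rm i).det ≠ 0 := by rw [rm_det]; norm_num
  apply GenLoop.ext
  intro s
  rw [gl_apply hG (van_mul hPc hf hd)]
  change _ = gl x₀ f (rf i s)
  rw [gl_apply hG hf]
  unfold gl'
  by_cases h : s ∈ Cube.boundary N
  · rw [if_pos h, if_pos (rf_bd' (i := i) |>.2 h)]
  · rw [if_neg h, if_neg (fun h1 => h (rf_bd'.1 h1))]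
    change f ((rm i).mulVec fun j => rho (s j)) = f fun j => rho (rf i s j)
    have e : ((rm i).mulVec fun j => rho (s j)) = fun j => rho (rf i s j) := by
      funext j
      unfold rm rf
      rw [Matrix.mulVec_diagonal]
      by_cases hj : j = i
      · subst hj
        rw [if_pos rfl, if_pos rfl, rho_symm, neg_one_mul]
      · rw [if_neg hj, if_neg hj, one_mul]
    rw [e]

end LiAux

open LiAux in
theorem pLi (hPu : S_Pu) (hPc : S_Pc) (hG : S_Gl) : S_Li := by
  intro N X _ _ _ x₀ f A i hf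
  haveI : Nonempty N := ⟨i⟩
  have hq : ∀ g g' : GenLoop N X x₀, GenLoop.Homotopic g g' ↔ hcl g = hcl g' := fun g g' =>
    ⟨fun h => Quotient.sound h, fun h => Quotient.exact h⟩
  have hs : ∀ (j : N) (g : GenLoop N X x₀), hcl (GenLoop.symmAt j g) = (hcl g)⁻¹ := fun j g =>
    (HomotopyGroup.inv_spec (i := j) (p := g)).symm
  obtain ⟨P, hP⟩ : ∃ P : Matrix N N ℝ → Prop, ∀ A, P A ↔ ∀ f : (N → ℝ) → X,
      Cel.VanOn x₀ univ f →
      (0 < A.det → hcl (gl x₀ fun v => f (A.mulVec v)) = hcl (gl x₀ f)) ∧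
      (A.det < 0 → hcl (gl x₀ fun v => f (A.mulVec v)) = (hcl (gl x₀ f))⁻¹) :=
    ⟨fun A => ∀ f : (N → ℝ) → X, Cel.VanOn x₀ univ f →
      (0 < A.det → hcl (gl x₀ fun v => f (A.mulVec v)) = hcl (gl x₀ f)) ∧
      (A.det < 0 → hcl (gl x₀ fun v => f (A.mulVec v)) = (hcl (gl x₀ f))⁻¹), fun A => Iff.rfl⟩
  have hmul : ∀ A B : Matrix N N ℝ, A.det ≠ 0 → B.det ≠ 0 → P A → P B → P (A * B) := by
    intro A B hA hB pA pB
    rw [hP] at pA pB ⊢
    intro f hf
    have e : (fun v => f ((A * B).mulVec v)) = fun v => (fun v => f (A.mulVec v)) (B.mulVec v) := by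
      funext v
      rw [← Matrix.mulVec_mulVec]
    have a := pA f hf
    have b := pB _ (van_mul hPc hf hA)
    rw [e, Matrix.det_mul]
    rcases lt_or_gt_of_ne hA with hA | hA <;> rcases lt_or_gt_of_ne hB with hB | hB
    · refine ⟨fun _ => ?_, fun h => absurd h (mul_pos_of_neg_of_neg hA hB).not_gt⟩
      rw [b.2 hB, a.2 hA, inv_inv]
    · refine ⟨fun h => absurd h (mul_neg_of_neg_of_pos hA hB).not_gt, fun _ => ?_⟩
      rw [b.1 hB, a.2 hA]
    · refine ⟨fun h => absurd h (mul_neg_of_pos_of_neg hA hB).not_gt, fun _ => ?_⟩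
      rw [b.2 hB, a.1 hA]
    · refine ⟨fun _ => ?_, fun h => absurd h (mul_pos hA hB).not_gt⟩
      rw [b.1 hB, a.1 hA]
  have hone : P 1 := by
    rw [hP]
    intro f hf
    refine ⟨fun _ => ?_, fun h => ?_⟩
    · simp only [Matrix.one_mulVec]
    · rw [Matrix.det_one] at h
      norm_num at h
  -- paths from the identity
  have hpath : ∀ B : ℝ → Matrix N N ℝ, Continuous B → (∀ t ∈ Icc (0 : ℝ) 1, 0 < (B t).det) →
      B 1 = 1 → P (B 0) := by
    intro B hB hd h1
    rw [hP]
    intro f hf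
    refine ⟨fun _ => ?_, fun h => absurd h (hd 0 ⟨le_rfl, zero_le_one⟩).not_gt⟩
    have h2 := pathM hPu hPc hf B hB fun t ht => (hd t ht).ne'
    rw [h1, hq] at h2
    rw [h2]
    simp only [Matrix.one_mulVec]
  have href : ∀ j, P (rm j) := by
    intro j
    rw [hP]
    intro f hf
    refine ⟨fun h => ?_, fun _ => ?_⟩
    · rw [rm_det] at h
      norm_num at h
    · rw [gl_rm hG hPc hf, hs]
  have hset : ∀ S : Finset N, P (Matrix.diagonal fun j => if j ∈ S then (-1 : ℝ) else 1) ∧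
      (Matrix.diagonal fun j => if j ∈ S then (-1 : ℝ) else 1).det ≠ 0 := by
    intro S
    induction S using Finset.induction_on with
    | empty =>
      have e : (Matrix.diagonal fun j : N => if j ∈ (∅ : Finset N) then (-1 : ℝ) else 1) = 1 := by
        simp
      rw [e, Matrix.det_one]
      exact ⟨hone, one_ne_zero⟩
    | insert a S ha ih =>
      have e : (Matrix.diagonal fun j : N => if j ∈ insert a S then (-1 : ℝ) else 1) =
          rm a * Matrix.diagonal fun j : N => if j ∈ S then (-1 : ℝ) else 1 := by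
        unfold rm
        rw [Matrix.diagonal_mul_diagonal]
        congr 1
        funext j
        by_cases hj : j = a
        · subst hj
          simp [ha]
        · simp [hj]
      have hr : (rm a).det ≠ 0 := by rw [rm_det]; norm_num
      rw [e, Matrix.det_mul]
      exact ⟨hmul _ _ hr ih.2 (href a) ih.1, mul_ne_zero hr ih.2⟩
  have key : A.det ≠ 0 → P A := by
    intro hA
    refine Matrix.diagonal_transvection_induction_of_det_ne_zero P A hA ?_ ?_ hmul
    · intro D hD
      rw [Matrix.det_diagonal, Finset.prod_ne_zero_iff] at hD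
      have e : Matrix.diagonal D = (Matrix.diagonal fun j => |D j|) *
          Matrix.diagonal fun j => if j ∈ Finset.univ.filter (fun j => D j < 0) then
            (-1 : ℝ) else 1 := by
        rw [Matrix.diagonal_mul_diagonal]
        congr 1
        funext j
        by_cases hj : D j < 0
        · simp [hj, abs_of_neg]
        · simp [hj, abs_of_nonneg (not_lt.1 hj)]
      have hpos : ∀ t ∈ Icc (0 : ℝ) 1, 0 < (Matrix.diagonal fun j => (1 - t) * |D j| + t).det := by
        intro t ht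
        rw [Matrix.det_diagonal]
        refine Finset.prod_pos fun j _ => ?_
        have h1 : 0 < |D j| := abs_pos.2 (hD j (Finset.mem_univ j))
        rcases ht.1.eq_or_lt with h0 | h0
        · rw [← h0]
          simpa using h1
        · have : 0 ≤ (1 - t) * |D j| := mul_nonneg (by linarith [ht.2]) h1.le
          linarith
      have h0 := hpath (fun t => Matrix.diagonal fun j => (1 - t) * |D j| + t)
        (Continuous.matrix_diagonal (by fun_prop)) hpos (by simp)
      have e0 : (fun j => (1 - (0 : ℝ)) * |D j| + 0) = fun j => |D j| := by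
        funext j
        ring
      have hp0 := hpos 0 ⟨le_rfl, zero_le_one⟩
      simp only [e0] at h0 hp0
      rw [e]
      exact hmul _ _ hp0.ne' (hset _).2 h0 (hset _).1
    · rintro ⟨a, b, hab, c⟩
      rw [Matrix.TransvectionStruct.toMatrix_mk]
      have h0 := hpath (fun t => Matrix.transvection a b ((1 - t) * c)) (by
          unfold Matrix.transvection
          refine continuous_const.add ?_
          refine continuous_matrix fun p q => ?_
          simp only [Matrix.single_apply]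
          split_ifs
          · fun_prop
          · exact continuous_const)
        (fun t _ => by
          rw [Matrix.det_transvection_of_ne a b hab]
          exact one_pos) (by simp)
      simpa using h0
  refine ⟨fun h => ?_, fun h => ?_⟩
  · rw [hq]
    exact ((hP A).1 (key h.ne') f hf).1 h
  · rw [hq, hs]
    exact ((hP A).1 (key h.ne) f hf).2 h

end Pool.Agent.Tate.Ec
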