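import Pool.Agent.Lib.Tate.R.Ec.Spec
import Pool.Agent.Lib.Tate.Inj.Ha

/-!
# C42 (MP_071d69_gt), R/Ec/Pc: criterion for `VanOn ∞` (helper82)
-/

open Topology unitInterval Filter Set
open scoped Topology.Homotopy OnePoint

noncomputable section

namespace Pool.Agent.Tate.Ec

theorem pPc : S_Pc := by
  intro Z V _ _ _ _ _ C k' hk hT
  refine (Cel.pHa Z (OnePoint V) ∞ C fun z => (k' z : OnePoint V)).2 ⟨?_, ?_⟩
  · exact OnePoint.continuous_coe.comp_continuousOn hk
  · have h1 : Tendsto k' (cocompact Z ⊓ 𝓟 C) (cocompact V) := by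
      rw [← Metric.cobounded_eq_cocompact]
      exact tendsto_norm_atTop_iff_cobounded.1 hT
    have h2 : Tendsto (fun v : V => (v : OnePoint V)) (cocompact V) (𝓝 ∞) := by
      rw [← coclosedCompact_eq_cocompact]
      exact OnePoint.tendsto_coe_infty
    exact h2.comp h1

end Pool.Agent.Tate.Ec
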