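import Pool.Agent.Lib.Tate.R.Ec.Spec

set_option linter.unusedSectionVars false
set_option autoImplicit false

open Topology unitInterval Filter Set
open scoped Topology.Homotopy OnePoint

noncomputable section

namespace Pool.Agent.Tate.Ec

theorem pPm (hLg : S_Lg) (hLi : S_Li) : S_Pm := by
  intro N X _ _ _ x₀ π i g
  obtain ⟨h1, h2⟩ := hLg N X x₀ g
  obtain ⟨-, h3⟩ := hLg N X x₀ (GenLoop.congr x₀ π g)
  have h4 : (fun v : N → ℝ => (GenLoop.congr x₀ π g) fun i => ri (v i)) =
      fun v : N → ℝ => (fun w : N → ℝ => g fun i => ri (w i)) ((π.permMatrix ℝ).mulVec v) := by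
    funext v
    rw [Matrix.permMatrix_mulVec]
    rfl
  rw [h4] at h3
  obtain ⟨l1, l2⟩ := hLi N X x₀ (fun w : N → ℝ => g fun i => ri (w i)) (π.permMatrix ℝ) i h1
  rw [h3, h2, Matrix.det_permutation] at l1 l2
  constructor
  · intro hs
    apply l1
    rw [hs]
    simp
  · intro hs
    apply l2
    rw [hs]
    simp

end Pool.Agent.Tate.Ec
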