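import Pool.Agent.Lib.Tate.R.Ec.Spec

/-!
# C42, block R/Ec: `CP^1` is the one point compactification of `ℂ` (`S_Ps`)
-/

set_option autoImplicit false

open Topology unitInterval Filter Set
open scoped Topology.Homotopy OnePoint

noncomputable section

namespace Pool.Agent.Tate.Ec

namespace Ps

private lemma bd_closed (N : Type) [Fintype N] : IsClosed (Cube.boundary N) := by
  have e : Cube.boundary N = ⋃ i : N, {y : N → I | y i = 0 ∨ y i = 1} := by
    ext y
    simp [Cube.boundary]
  rw [e]
  refine isClosed_iUnion_of_finite fun i => ?_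
  exact (isClosed_eq (continuous_apply i) continuous_const).union
    (isClosed_eq (continuous_apply i) continuous_const)

open Classical in
private lemma jcont {Y Z N : Type} [Fintype N] [TopologicalSpace Y] [TopologicalSpace Z]
    (hR : Wi.S_Rh) (a : Y → N → I) (ha : Continuous a) (k : Y → Z) (p : Z → N → ℝ)
    (hp : Continuous p) (hk : ContinuousOn k {y | a y ∉ Cube.boundary N})
    (hpk : ∀ y i, p (k y) i = rho (a y i)) :
    Continuous fun y => if a y ∈ Cube.boundary N then (∞ : OnePoint Z) else (k y : OnePoint Z) := by
  rw [continuous_iff_continuousAt]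
  intro y
  by_cases hy : a y ∈ Cube.boundary N
  · unfold ContinuousAt
    simp only [hy, if_true]
    rw [Filter.Tendsto, OnePoint.le_nhds_infty]
    intro K _ hK
    have hb : Bornology.IsBounded (p '' K) := (hK.image hp).isBounded
    obtain ⟨M, hM⟩ := hb.exists_norm_le
    obtain ⟨i, hi⟩ := hy
    have h1 := hR.2 (a y i) hi (M + 1)
    have h2 : ∀ᶠ y' in 𝓝 y, a y' i ≠ 0 → a y' i ≠ 1 → M + 1 ≤ |rho (a y' i)| :=
      ((continuous_apply i).comp ha).continuousAt.eventually h1
    rw [Filter.mem_map]
    filter_upwards [h2] with y' hy'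
    by_cases h3 : a y' ∈ Cube.boundary N
    · right
      simp [h3]
    · left
      have h4 : ¬ ∃ i, a y' i = 0 ∨ a y' i = 1 := h3
      push Not at h4
      have h5 := hy' (h4 i).1 (h4 i).2
      refine ⟨k y', fun h6 => ?_, by simp [h3]⟩
      have h7 := hM _ ⟨k y', h6, rfl⟩
      have h8 := (norm_le_pi_norm (p (k y')) i).trans h7
      rw [hpk, Real.norm_eq_abs] at h8
      linarith
  · have hopen : IsOpen {y | a y ∉ Cube.boundary N} :=
      (bd_closed N).isOpen_compl.preimage ha
    have h1 : ContinuousAt (fun y => (k y : OnePoint Z)) y :=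
      OnePoint.continuous_coe.continuousAt.comp (hk.continuousAt (hopen.mem_nhds hy))
    refine h1.congr ?_
    filter_upwards [hopen.mem_nhds hy] with y' hy'
    have h2 : a y' ∉ Cube.boundary N := hy'
    rw [if_neg h2]

private lemma den_pos (w : ℂ) : 0 < 1 + Complex.normSq w := by
  have := Complex.normSq_nonneg w
  linarith

private lemma den_ne (w : ℂ) : ((1 + Complex.normSq w : ℝ) : ℂ) ≠ 0 := by
  exact_mod_cast (den_pos w).ne'

private lemma psi_cont : Continuous psi := by
  refine Continuous.subtype_mk ?_ _
  refine continuous_pi fun a => continuous_pi fun b => ?_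
  have h1 : Continuous fun w : ℂ => ((1 + Complex.normSq w : ℝ) : ℂ) :=
    Complex.continuous_ofReal.comp (continuous_const.add Complex.continuous_normSq)
  rcases a with _ | _ <;> rcases b with _ | _
  · exact Complex.continuous_ofReal.comp (Complex.continuous_normSq.div
      (continuous_const.add Complex.continuous_normSq) fun w => (den_pos w).ne')
  · exact continuous_id.div h1 den_ne
  · exact Complex.continuous_conj.div h1 den_ne
  · exact Complex.continuous_ofReal.comp (continuous_const.div
      (continuous_const.add Complex.continuous_normSq) fun w => (den_pos w).ne')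

private lemma lim_inv : Tendsto (fun w : ℂ => 1 / (1 + Complex.normSq w)) (cocompact ℂ) (𝓝 0) := by
  have h1 : Tendsto (fun w : ℂ => Complex.normSq w) (cocompact ℂ) atTop := by
    have h2 := (tendsto_pow_atTop (α := ℝ) two_ne_zero).comp (tendsto_norm_cocompact_atTop (E := ℂ))
    refine h2.congr fun w => ?_
    simp [Complex.normSq_eq_norm_sq]
  exact (tendsto_atTop_add_const_left _ 1 h1).const_div_atTop 1

private lemma lim_sq : Tendsto (fun w : ℂ => Complex.normSq w / (1 + Complex.normSq w))
    (cocompact ℂ) (𝓝 1) := by
  have h1 := lim_inv.const_sub 1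
  rw [sub_zero] at h1
  refine h1.congr fun w => ?_
  have := (den_pos w).ne'
  field_simp
  ring

private lemma lim_w : Tendsto (fun w : ℂ => ‖w‖ / (1 + Complex.normSq w)) (cocompact ℂ) (𝓝 0) := by
  have h1 : Tendsto (fun w : ℂ => 1 / ‖w‖) (cocompact ℂ) (𝓝 0) :=
    (tendsto_norm_cocompact_atTop (E := ℂ)).const_div_atTop 1
  refine squeeze_zero (fun w => div_nonneg (norm_nonneg _) (den_pos w).le) (fun w => ?_) h1
  rcases (norm_nonneg w).eq_or_lt with h | h
  · rw [← h]
    simp
  · rw [div_le_div_iff₀ (den_pos w) h, Complex.normSq_eq_norm_sq]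
    nlinarith

private lemma psi_lim : Tendsto psi (cocompact ℂ) (𝓝 k0) := by
  rw [tendsto_subtype_rng]
  refine tendsto_pi_nhds.2 fun a => tendsto_pi_nhds.2 fun b => ?_
  rcases a with _ | _ <;> rcases b with _ | _
  · have h : Tendsto (fun w : ℂ => ((Complex.normSq w / (1 + Complex.normSq w) : ℝ) : ℂ))
        (cocompact ℂ) (𝓝 ((1 : ℝ) : ℂ)) := (Complex.continuous_ofReal.tendsto 1).comp lim_sq
    have e : k0.1 false false = ((1 : ℝ) : ℂ) := by simp [k0]
    rw [e]
    exact h
  · have h : Tendsto (fun w : ℂ => w / ((1 + Complex.normSq w : ℝ) : ℂ))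
        (cocompact ℂ) (𝓝 0) := by
      rw [tendsto_zero_iff_norm_tendsto_zero]
      refine lim_w.congr fun w => ?_
      rw [norm_div, Complex.norm_real, Real.norm_of_nonneg (den_pos w).le]
    have e : k0.1 false true = 0 := by simp [k0]
    rw [e]
    exact h
  · have h : Tendsto (fun w : ℂ => (starRingEnd ℂ) w / ((1 + Complex.normSq w : ℝ) : ℂ))
        (cocompact ℂ) (𝓝 0) := by
      rw [tendsto_zero_iff_norm_tendsto_zero]
      refine lim_w.congr fun w => ?_
      rw [norm_div, Complex.norm_real, Real.norm_of_nonneg (den_pos w).le, Complex.norm_conj]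
    have e : k0.1 true false = 0 := by simp [k0]
    rw [e]
    exact h
  · have h : Tendsto (fun w : ℂ => ((1 / (1 + Complex.normSq w) : ℝ) : ℂ))
        (cocompact ℂ) (𝓝 ((0 : ℝ) : ℂ)) := (Complex.continuous_ofReal.tendsto 0).comp lim_inv
    have e : k0.1 true true = ((0 : ℝ) : ℂ) := by simp [k0]
    rw [e]
    exact h

private lemma psiH_cont : Continuous psiH := by
  rw [OnePoint.continuous_iff]
  refine ⟨?_, psi_cont⟩
  rw [coclosedCompact_eq_cocompact]
  exact psi_lim

private lemma phi_psiH (p : OnePoint ℂ) : phi (psiH p) = p := by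
  induction p using OnePoint.rec with
  | infty =>
    show phi k0 = ∞
    unfold phi
    rw [if_pos (by simp [k0])]
  | coe w =>
    show phi (psi w) = w
    have e1 : (psi w).1 true true = ((1 / (1 + Complex.normSq w) : ℝ) : ℂ) := rfl
    have e2 : (psi w).1 false true = w / ((1 + Complex.normSq w : ℝ) : ℂ) := rfl
    have h0 := den_ne w
    have h1 : ((1 / (1 + Complex.normSq w) : ℝ) : ℂ) ≠ 0 := by
      rw [Complex.ofReal_div, Complex.ofReal_one]
      exact one_div_ne_zero h0
    unfold phi
    rw [e1, e2, if_neg h1]
    congr 1
    rw [Complex.ofReal_div, Complex.ofReal_one]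
    field_simp

private lemma psiH_phi (k : KK) : psiH (phi k) = k := by
  obtain ⟨A, hA1, hA2, hA3⟩ := k
  have e1 : (starRingEnd ℂ) (A true false) = A false true := by
    have := congrFun (congrFun hA1 false) true
    rwa [Matrix.conjTranspose_apply] at this
  have e2 : (starRingEnd ℂ) (A true true) = A true true := by
    have := congrFun (congrFun hA1 true) true
    rwa [Matrix.conjTranspose_apply] at this
  have e3 : A true true * A true true + A true false * A false true = A true true := by
    have := congrFun (congrFun hA2 true) true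
    rwa [Matrix.mul_apply, Fintype.sum_bool] at this
  have e4 : A true true + A false false = 1 := by
    have := hA3
    rwa [Matrix.trace, Fintype.sum_bool, Matrix.diag_apply, Matrix.diag_apply] at this
  have e1' : (starRingEnd ℂ) (A false true) = A true false := by
    rw [← e1, Complex.conj_conj]
  have ed : A true true = ((A true true).re : ℂ) := (Complex.conj_eq_iff_re.1 e2).symm
  set r : ℝ := (A true true).re with hr
  have en : Complex.normSq (A false true) = r - r ^ 2 := by
    have h1 : ((Complex.normSq (A false true) : ℝ) : ℂ) = ((r - r ^ 2 : ℝ) : ℂ) := by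
      rw [← Complex.mul_conj, e1']
      push_cast
      rw [← ed]
      linear_combination e3
    exact_mod_cast h1
  apply Subtype.ext
  by_cases hd : A true true = 0
  · have hr0 : r = 0 := by rw [hr, hd]; rfl
    have hb : A false true = 0 := by
      rw [hr0] at en
      exact Complex.normSq_eq_zero.1 (by rw [en]; ring)
    have e5 : phi ⟨A, hA1, hA2, hA3⟩ = ∞ := by
      unfold phi
      rw [if_pos hd]
    rw [e5]
    show k0.1 = A
    ext a b
    rcases a with _ | _ <;> rcases b with _ | _
    · have : A false false = 1 := by rw [← e4, hd, zero_add]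
      rw [this]
      simp [k0]
    · rw [hb]
      simp [k0]
    · rw [← e1', hb]
      simp [k0]
    · rw [hd]
      simp [k0]
  · have hr0 : r ≠ 0 := by
      intro h
      apply hd
      rw [ed, h, Complex.ofReal_zero]
    have e5 : phi ⟨A, hA1, hA2, hA3⟩ = ((A false true / A true true : ℂ) : OnePoint ℂ) := by
      unfold phi
      rw [if_neg hd]
    rw [e5]
    show (psi (A false true / A true true)).1 = A
    have hn : Complex.normSq (A false true / A true true) = (1 - r) / r := by
      rw [Complex.normSq_div, en, ed, Complex.normSq_ofReal]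
      field_simp
    have hn1 : 1 + Complex.normSq (A false true / A true true) = 1 / r := by
      rw [hn]
      field_simp
      ring
    have hrc : (r : ℂ) ≠ 0 := by exact_mod_cast hr0
    ext a b
    rcases a with _ | _ <;> rcases b with _ | _
    · show ((Complex.normSq (A false true / A true true) /
        (1 + Complex.normSq (A false true / A true true)) : ℝ) : ℂ) = A false false
      rw [hn1, hn]
      have e6 : A false false = ((1 - r : ℝ) : ℂ) := by
        push_cast
        rw [← ed]
        linear_combination e4
      rw [e6]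
      congr 1
      field_simp
    · show (A false true / A true true) /
        ((1 + Complex.normSq (A false true / A true true) : ℝ) : ℂ) = A false true
      rw [hn1, ed]
      push_cast
      field_simp
    · show (starRingEnd ℂ) (A false true / A true true) /
        ((1 + Complex.normSq (A false true / A true true) : ℝ) : ℂ) = A true false
      rw [hn1, map_div₀, e1', ed, Complex.conj_ofReal]
      push_cast
      field_simp
    · show ((1 / (1 + Complex.normSq (A false true / A true true)) : ℝ) : ℂ) = A true true
      rw [hn1, ed]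
      congr 1
      field_simp

private lemma phi_cont : Continuous phi := by
  let e : OnePoint ℂ ≃ KK := ⟨psiH, phi, phi_psiH, psiH_phi⟩
  have he : Continuous e := psiH_cont
  exact (he.homeoOfEquivCompactToT2).symm.continuous

end Ps

open Ps in
theorem pPs (h1 : Wi.S_Rh) : S_Ps := by
  refine ⟨psiH_cont, phi_cont, phi_psiH, psiH_phi, ?_⟩
  classical
  have ha : Continuous fun y : I × I => (![y.1, y.2] : Fin 2 → I) := by
    refine continuous_pi fun i => ?_
    fin_cases i
    · exact continuous_fst
    · exact continuous_snd
  have hb : ∀ y : I × I, (![y.1, y.2] : Fin 2 → I) ∈ Cube.boundary (Fin 2) ↔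
      ((y.1 = 0 ∨ y.1 = 1) ∨ y.2 = 0 ∨ y.2 = 1) := by
    intro y
    simp [Cube.boundary, Fin.exists_fin_two]
  have hj := jcont h1 (fun y : I × I => (![y.1, y.2] : Fin 2 → I)) ha
    (fun y : I × I => (⟨rho y.1, rho y.2⟩ : ℂ)) (fun w : ℂ => ![w.re, w.im]) (by
      refine continuous_pi fun i => ?_
      fin_cases i
      · exact Complex.continuous_re
      · exact Complex.continuous_im) (by
      have e : (fun y : I × I => (⟨rho y.1, rho y.2⟩ : ℂ)) =
          fun y => (rho y.1 : ℂ) + (rho y.2 : ℂ) * Complex.I := by
        funext y
        apply Complex.ext <;> simp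
      rw [e]
      have c1 : ContinuousOn (fun y : I × I => rho y.1)
          {y | (![y.1, y.2] : Fin 2 → I) ∉ Cube.boundary (Fin 2)} := by
        refine h1.1.comp continuous_fst.continuousOn fun y hy => ?_
        have h2 : ¬ _ := hy
        rw [hb] at h2
        push Not at h2
        exact h2.1
      have c2 : ContinuousOn (fun y : I × I => rho y.2)
          {y | (![y.1, y.2] : Fin 2 → I) ∉ Cube.boundary (Fin 2)} := by
        refine h1.1.comp continuous_snd.continuousOn fun y hy => ?_
        have h2 : ¬ _ := hy
        rw [hb] at h2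
        push Not at h2
        exact h2.2
      exact (Complex.continuous_ofReal.comp_continuousOn c1).add
        ((Complex.continuous_ofReal.comp_continuousOn c2).mul continuousOn_const)) (by
      intro y i
      fin_cases i <;> rfl)
  have e : (fun p : I × I => psi' p.1 p.2) = psiH ∘ fun y : I × I =>
      if (![y.1, y.2] : Fin 2 → I) ∈ Cube.boundary (Fin 2) then (∞ : OnePoint ℂ)
      else ((⟨rho y.1, rho y.2⟩ : ℂ) : OnePoint ℂ) := by
    funext y
    simp only [Function.comp]
    unfold psi'
    by_cases h : (![y.1, y.2] : Fin 2 → I) ∈ Cube.boundary (Fin 2)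
    · rw [if_pos h, if_pos ((hb y).1 h)]
      rfl
    · rw [if_neg h, if_neg (fun h' => h ((hb y).2 h'))]
      rfl
  rw [e]
  exact psiH_cont.comp hj

end Pool.Agent.Tate.Ec
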