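import Pool.Agent.Lib.Tate.R.Ec.Spec

/-!
# C42 (MP_071d69_gt), R/Ec/Pu: composition with a homotopy of maps of spheres (helper82)
-/

open Topology unitInterval Filter Set
open scoped Topology.Homotopy OnePoint

noncomputable section

namespace Pool.Agent.Tate.Ec

theorem pPu (h1 : S_Ho) : S_Pu := by
  intro N Z X _ _ _ x₀ f k hf hk
  refine h1 N X x₀ (fun p => Cel.hat x₀ f (k p)) ?_
  have e : Cel.hat x₀ (fun p => Cel.hat x₀ f (k p)) =
      Cel.hat x₀ f ∘ Cel.hat (∞ : OnePoint Z) k := by
    funext p
    cases p using OnePoint.rec with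
    | infty => rfl
    | coe z => rfl
  unfold Cel.VanOn at hf hk ⊢
  rw [e]
  refine hf.comp hk fun p _ => ?_
  have h2 : (insert (∞ : OnePoint Z) ((fun z : Z => (z : OnePoint Z)) '' univ)) = univ := by
    refine eq_univ_of_forall fun q => ?_
    cases q using OnePoint.rec with
    | infty => exact Or.inl rfl
    | coe z => exact Or.inr ⟨z, mem_univ _, rfl⟩
  rw [h2]
  exact mem_univ _

end Pool.Agent.Tate.Ec
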