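import Pool.Agent.Lib.Tate.R.Ec.Spec

set_option linter.unusedSectionVars false
set_option autoImplicit false

open Topology unitInterval Filter Set
open scoped Topology.Homotopy OnePoint

noncomputable section

namespace Pool.Agent.Tate.Ec

private theorem px_van {Z Y : Type} [TopologicalSpace Z] [TopologicalSpace Y] {y0 : Y} {h : Z → Y} :
    Cel.VanOn y0 univ h ↔ Continuous (Cel.hat y0 h) := by
  unfold Cel.VanOn
  rw [image_univ]
  have : insert ∞ (range fun z : Z => (z : OnePoint Z)) = univ := OnePoint.insert_infty_range_coe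
  rw [this, continuousOn_univ]

/-- the map of the product of two spheres to the sphere -/
private def pq (N M : Type) (p : OnePoint (N → ℝ) × OnePoint (M → ℝ)) : OnePoint (N ⊕ M → ℝ) :=
  OnePoint.elim p.1 ∞ fun u => OnePoint.elim p.2 ∞ fun w => ((Sum.elim u w : N ⊕ M → ℝ) :
    OnePoint (N ⊕ M → ℝ))

private theorem pq_coe {N M : Type} (u : N → ℝ) (w : M → ℝ) :
    pq N M ((u : OnePoint (N → ℝ)), (w : OnePoint (M → ℝ))) = ((Sum.elim u w : N ⊕ M → ℝ) :
      OnePoint (N ⊕ M → ℝ)) := rfl

private theorem pq_inl {N M : Type} (b : OnePoint (M → ℝ)) : pq N M (∞, b) = ∞ := rfl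

private theorem pq_inr {N M : Type} (a : OnePoint (N → ℝ)) : pq N M (a, ∞) = ∞ := by
  induction a using OnePoint.rec with
  | infty => rfl
  | coe u => rfl

private theorem pq_pre {N M : Type} (V : Set (N ⊕ M → ℝ)) :
    pq N M ⁻¹' ((OnePoint.some : (N ⊕ M → ℝ) → OnePoint (N ⊕ M → ℝ)) '' V) =
      Prod.map (OnePoint.some : (N → ℝ) → OnePoint (N → ℝ))
        (OnePoint.some : (M → ℝ) → OnePoint (M → ℝ)) ''
        ((fun p : (N → ℝ) × (M → ℝ) => (Sum.elim p.1 p.2 : N ⊕ M → ℝ)) ⁻¹' V) := by
  ext ⟨a, b⟩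
  induction a using OnePoint.rec with
  | infty =>
    constructor
    · rintro ⟨v, -, hv⟩
      rw [pq_inl] at hv
      exact absurd hv (OnePoint.coe_ne_infty v)
    · rintro ⟨⟨u, w⟩, -, h⟩
      exact absurd (congrArg Prod.fst h) (OnePoint.coe_ne_infty u)
  | coe u =>
    induction b using OnePoint.rec with
    | infty =>
      constructor
      · rintro ⟨v, -, hv⟩
        rw [pq_inr] at hv
        exact absurd hv (OnePoint.coe_ne_infty v)
      · rintro ⟨⟨u', w⟩, -, h⟩
        exact absurd (congrArg Prod.snd h) (OnePoint.coe_ne_infty w)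
    | coe w =>
      constructor
      · rintro ⟨v, hv, h⟩
        rw [pq_coe] at h
        have h' : v = Sum.elim u w := OnePoint.coe_injective h
        refine ⟨(u, w), ?_, rfl⟩
        show Sum.elim u w ∈ V
        rw [← h']
        exact hv
      · rintro ⟨⟨u', w'⟩, hV, h⟩
        have h1 : u' = u := OnePoint.coe_injective (congrArg Prod.fst h)
        have h2 : w' = w := OnePoint.coe_injective (congrArg Prod.snd h)
        subst h1
        subst h2
        exact ⟨_, hV, rfl⟩

private theorem pq_cont (N M : Type) [Fintype N] [Fintype M] : Continuous (pq N M) := by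
  have hs : Continuous fun p : (N → ℝ) × (M → ℝ) => (Sum.elim p.1 p.2 : N ⊕ M → ℝ) := by
    refine continuous_pi ?_
    rintro (i | i)
    · exact (continuous_apply i).comp continuous_fst
    · exact (continuous_apply i).comp continuous_snd
  have hc : Continuous (Prod.map (OnePoint.some : (N → ℝ) → OnePoint (N → ℝ))
      (OnePoint.some : (M → ℝ) → OnePoint (M → ℝ))) :=
    OnePoint.continuous_coe.prodMap OnePoint.continuous_coe
  have ho : IsOpenMap (Prod.map (OnePoint.some : (N → ℝ) → OnePoint (N → ℝ))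
      (OnePoint.some : (M → ℝ) → OnePoint (M → ℝ))) :=
    OnePoint.isOpenEmbedding_coe.isOpenMap.prodMap OnePoint.isOpenEmbedding_coe.isOpenMap
  rw [continuous_def]
  intro U hU
  have hU' := OnePoint.isOpen_def.1 hU
  by_cases hinf : ∞ ∈ U
  · have hK := hU'.1 hinf
    have h1 : U = ((OnePoint.some : (N ⊕ M → ℝ) → OnePoint (N ⊕ M → ℝ)) ''
        ((OnePoint.some : (N ⊕ M → ℝ) → OnePoint (N ⊕ M → ℝ)) ⁻¹' U)ᶜ)ᶜ := by
      ext x
      induction x using OnePoint.rec with
      | infty =>
        constructor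
        · rintro - ⟨v, -, hv⟩
          exact OnePoint.coe_ne_infty v hv
        · exact fun _ => hinf
      | coe v =>
        constructor
        · rintro h ⟨v', hv', h'⟩
          have := OnePoint.coe_injective h'
          subst this
          exact hv' h
        · intro h
          by_contra h'
          exact h ⟨v, h', rfl⟩
    rw [h1, preimage_compl, pq_pre, isOpen_compl_iff]
    have h2 : (fun p : (N → ℝ) × (M → ℝ) => (Sum.elim p.1 p.2 : N ⊕ M → ℝ)) ⁻¹'
        ((OnePoint.some : (N ⊕ M → ℝ) → OnePoint (N ⊕ M → ℝ)) ⁻¹' U)ᶜ =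
        (fun v : N ⊕ M → ℝ => (v ∘ Sum.inl, v ∘ Sum.inr)) ''
          ((OnePoint.some : (N ⊕ M → ℝ) → OnePoint (N ⊕ M → ℝ)) ⁻¹' U)ᶜ := by
      ext ⟨u, w⟩
      constructor
      · intro h
        exact ⟨Sum.elim u w, h, rfl⟩
      · rintro ⟨v, hv, h⟩
        have h3 : v ∘ Sum.inl = u := congrArg Prod.fst h
        have h4 : v ∘ Sum.inr = w := congrArg Prod.snd h
        show Sum.elim u w ∈
          ((OnePoint.some : (N ⊕ M → ℝ) → OnePoint (N ⊕ M → ℝ)) ⁻¹' U)ᶜ
        rw [← h3, ← h4, Sum.elim_comp_inl_inr]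
        exact hv
    have hs' : Continuous fun v : N ⊕ M → ℝ => (v ∘ Sum.inl, v ∘ Sum.inr) :=
      (continuous_pi fun i => continuous_apply _).prodMk (continuous_pi fun i => continuous_apply _)
    rw [h2]
    exact ((hK.image hs').image hc).isClosed
  · have h1 : U = (OnePoint.some : (N ⊕ M → ℝ) → OnePoint (N ⊕ M → ℝ)) ''
        ((OnePoint.some : (N ⊕ M → ℝ) → OnePoint (N ⊕ M → ℝ)) ⁻¹' U) := by
      ext x
      induction x using OnePoint.rec with
      | infty =>
        constructor
        · exact fun h => absurd h hinf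
        · rintro ⟨v, -, hv⟩
          exact absurd hv (OnePoint.coe_ne_infty v)
      | coe v =>
        constructor
        · exact fun h => ⟨v, h, rfl⟩
        · rintro ⟨v', hv', h'⟩
          have := OnePoint.coe_injective h'
          subst this
          exact hv'
    rw [h1, pq_pre]
    exact ho _ (hU'.2.preimage hs)

theorem pPx : S_Px := by
  intro N M _ _ κ hκ
  rw [px_van] at hκ ⊢
  have hqc := pq_cont N M
  have hsurj : Function.Surjective (pq N M) := by
    intro x
    induction x using OnePoint.rec with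
    | infty => exact ⟨(∞, ∞), rfl⟩
    | coe v =>
      refine ⟨(((v ∘ Sum.inl : N → ℝ) : OnePoint (N → ℝ)), ((v ∘ Sum.inr : M → ℝ) :
        OnePoint (M → ℝ))), ?_⟩
      rw [pq_coe, Sum.elim_comp_inl_inr]
  have hquot : IsQuotientMap (pq N M) := hqc.isClosedMap.isQuotientMap hqc hsurj
  rw [hquot.continuous_iff]
  have key : Cel.hat ∞ (px M κ) ∘ pq N M = pq N M ∘ Prod.map (Cel.hat ∞ κ) id := by
    funext p
    obtain ⟨a, b⟩ := p
    induction a using OnePoint.rec with
    | infty => rfl
    | coe u =>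
      induction b using OnePoint.rec with
      | infty =>
        show Cel.hat ∞ (px M κ) (pq N M (_, ∞)) = pq N M (_, ∞)
        rw [pq_inr, pq_inr]
        rfl
      | coe w =>
        show px M κ (Sum.elim u w) = pq N M (κ u, (w : OnePoint (M → ℝ)))
        unfold px
        rw [Sum.elim_comp_inl, Sum.elim_comp_inr]
        rfl
  rw [key]
  exact hqc.comp (hκ.prodMap continuous_id)

end Pool.Agent.Tate.Ec
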