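import Pool.Agent.Lib.Tate.R.Ec.Spec

/-!
# C42 (MP_071d69_gt), R/Ec/Q1: `q*` of a map which does not depend on `CP^1` (helper82)
-/

set_option linter.unusedSectionVars false

open Topology unitInterval Filter Set
open scoped Topology.Homotopy OnePoint

noncomputable section

namespace Pool.Agent.Tate.Ec

namespace Q1Aux

/-- The path from `r` to `1`. -/
def pa (t r : I) : I := σ (σ t * σ r)

theorem pa_zero (r : I) : pa 0 r = r := by
  unfold pa
  rw [symm_zero, one_mul, symm_symm]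

theorem pa_one (r : I) : pa 1 r = 1 := by
  unfold pa
  rw [symm_one, zero_mul, symm_zero]

theorem pa_one' (t : I) : pa t 1 = 1 := by
  unfold pa
  rw [symm_one, mul_zero, symm_zero]

theorem cont_pa : Continuous fun p : I × I => pa p.1 p.2 := by
  unfold pa
  fun_prop

/-- The argument of the homotopy. -/
def ar {M : Type} (t : I) (s : Fin 3 ⊕ M → I) : Unit ⊕ M → I :=
  Sum.elim (fun _ => pa t (rad (s ∘ Sum.inl))) (s ∘ Sum.inr)

theorem cont_ar {M : Type} : Continuous fun p : I × (Fin 3 ⊕ M → I) => ar p.1 p.2 := by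
  refine continuous_pi fun i => ?_
  rcases i with i | i
  · show Continuous fun p : I × (Fin 3 ⊕ M → I) => pa p.1 (rad (p.2 ∘ Sum.inl))
    refine cont_pa.comp (continuous_fst.prodMk (continuous_rad.comp ?_))
    fun_prop
  · show Continuous fun p : I × (Fin 3 ⊕ M → I) => p.2 (Sum.inr i)
    fun_prop

end Q1Aux

open Q1Aux

/-- **Q1.** `q*` of a map which does not depend on `CP^1`. -/
theorem pQ1 (hQc : S_Qc) : S_Q1 := by
  intro M X _ x₀ g hg
  have hq : ∀ s, qst g s = qst' g s := by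
    intro s
    unfold qst
    rw [dif_pos (hQc M X x₀ g).1]
    rfl
  have hb : ∀ s ∈ Cube.boundary (Unit ⊕ M), (g s : C(KK, X)) k0 = x₀ := by
    intro s hs
    have h : g s = ContinuousMap.const KK x₀ := g.2 s hs
    rw [h]
    rfl
  have hc : Continuous fun p : I × (Fin 3 ⊕ M → I) => (g (ar p.1 p.2) : C(KK, X)) k0 :=
    (continuous_eval_const (F := C(KK, X)) k0).comp (g.1.continuous.comp cont_ar)
  refine ⟨⟨⟨⟨fun p => (g (ar p.1 p.2) : C(KK, X)) k0, hc⟩, ?_, ?_⟩, ?_⟩⟩
  · intro s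
    show (g (ar 0 s) : C(KK, X)) k0 = qst g s
    rw [hq]
    have h1 : ar 0 s = Sum.elim (fun _ => rad (s ∘ Sum.inl)) (s ∘ Sum.inr) := by
      unfold ar
      rw [pa_zero]
    rw [h1]
    exact hg _ _ _
  · intro s
    show (g (ar 1 s) : C(KK, X)) k0 = x₀
    refine hb _ ⟨Sum.inl (), Or.inr ?_⟩
    exact pa_one _
  · intro t s hs
    show (g (ar t s) : C(KK, X)) k0 = qst g s
    have h2 : qst g s = x₀ := (qst g).2 s hs
    rw [h2]
    refine hb _ ?_
    obtain ⟨i | i, hi⟩ := hs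
    · refine ⟨Sum.inl (), Or.inr ?_⟩
      show pa t (rad (s ∘ Sum.inl)) = 1
      rw [rad_bdry ⟨i, hi⟩]
      exact pa_one' t
    · exact ⟨Sum.inr i, hi⟩

end Pool.Agent.Tate.Ec
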