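import Pool.Agent.Lib.Tate.R.Ec.Spec

/-!
# C42, block R/Ec: `q*` of a based map (`S_Q2`) (helper56)
-/

set_option autoImplicit false

open Topology unitInterval Filter Set
open scoped Topology.Homotopy OnePoint

noncomputable section

namespace Pool.Agent.Tate.Ec

namespace Q2

variable {M X : Type} [TopologicalSpace X] {x₀ : X}

theorem g_bdry (g : GK M x₀) (u : Unit ⊕ M → I) (hu : u ∈ Cube.boundary (Unit ⊕ M)) (k : KK) :
    g u k = x₀ := by
  have h : g u = ContinuousMap.const KK x₀ := g.2 u hu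
  rw [h]
  rfl

theorem gh_bdry (g : GK M x₀) (hk : ∀ s, g s k0 = x₀) (s : Fin 3 ⊕ M → I)
    (hs : s ∈ Cube.boundary (Fin 3 ⊕ M)) : gh' g s = x₀ := by
  obtain ⟨i | i, hi⟩ := hs
  · fin_cases i
    · have hi' : s (Sum.inl 0) = 0 ∨ s (Sum.inl 0) = 1 := hi
      unfold gh' psi'
      rw [if_pos (Or.inl hi')]
      exact hk _
    · have hi' : s (Sum.inl 1) = 0 ∨ s (Sum.inl 1) = 1 := hi
      unfold gh' psi'
      rw [if_pos (Or.inr hi')]
      exact hk _
    · exact g_bdry g _ ⟨Sum.inl (), hi⟩ _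
  · exact g_bdry g _ ⟨Sum.inr i, hi⟩ _

theorem gh_eq (hQc : S_Qc) (g : GK M x₀) (hk : ∀ s, g s k0 = x₀) (s : Fin 3 ⊕ M → I) :
    gh g s = gh' g s := by
  have h : Continuous (gh' g) ∧ ∀ s ∈ Cube.boundary (Fin 3 ⊕ M), gh' g s = x₀ :=
    ⟨(hQc M X x₀ g).2, gh_bdry g hk⟩
  unfold gh
  rw [dif_pos h]
  rfl

theorem rad_ne_zero {s : Fin 3 → I} (h : ctr s ≠ 0) : rad s ≠ 0 := by
  intro e
  have h1 : ‖ctr s‖ = 0 := congrArg Subtype.val e
  exact h (norm_eq_zero.1 h1)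

theorem rad_ne_one {s : Fin 3 → I} (h : ∀ i, s i ≠ 0 ∧ s i ≠ 1) : rad s ≠ 1 := by
  intro e
  have h1 : ‖ctr s‖ = 1 := congrArg Subtype.val e
  have h2 : ‖ctr s‖ < 1 := by
    rw [pi_norm_lt_iff one_pos]
    intro i
    have h3 : (0 : ℝ) < s i :=
      lt_of_le_of_ne (s i).2.1 fun e => (h i).1 (Subtype.ext e.symm)
    have h4 : ((s i : I) : ℝ) < 1 :=
      lt_of_le_of_ne (s i).2.2 fun e => (h i).2 (Subtype.ext e)
    rw [Real.norm_eq_abs, abs_lt]
    unfold ctr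
    constructor <;> linarith
  exact absurd h1 h2.ne

theorem key (hRi : S_Ri) (hPs : S_Ps) (hQc : S_Qc) (g : GK M x₀) (hk : ∀ s, g s k0 = x₀)
    (s : Fin 3 ⊕ M → I) (hs : s ∉ Cube.boundary (Fin 3 ⊕ M)) :
    Cel.hat x₀ (fun v : Fin 3 ⊕ M → ℝ => gh g fun i => ri (v i))
      (px M kap fun i => rho (s i)) = qst' g s := by
  classical
  have hn : ∀ i, s i ≠ 0 ∧ s i ≠ 1 := by
    intro i
    have h : ¬ ∃ i, s i = 0 ∨ s i = 1 := hs
    push Not at h
    exact h i
  have hri : ∀ i, ri (rho (s i)) = s i := fun i => hRi.2.2.2.1 _ (hn i).1 (hn i).2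
  have e1 : (fun i : Fin 3 => ri (((fun i => rho (s i)) ∘ Sum.inl : Fin 3 → ℝ) i)) =
      s ∘ Sum.inl := funext fun i => hri _
  have e2 : kap ((fun i => rho (s i)) ∘ Sum.inl) =
      if ctr (s ∘ Sum.inl) = 0 then ∞ else
        OnePoint.elim (phi (ln (ctr (s ∘ Sum.inl)))) ∞ fun w =>
          ((![w.re, w.im, rho (rad (s ∘ Sum.inl))] : Fin 3 → ℝ) : OnePoint (Fin 3 → ℝ)) := by
    unfold kap
    rw [e1]
  unfold px
  rw [e2]
  by_cases h0 : ctr (s ∘ Sum.inl) = 0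
  · rw [if_pos h0]
    show x₀ = qst' g s
    unfold qst'
    rw [rad_eq_zero h0]
    exact (g_bdry g _ ⟨Sum.inl (), Or.inl rfl⟩ _).symm
  · rw [if_neg h0]
    have hln : psiH (phi (ln (ctr (s ∘ Sum.inl)))) = ln (ctr (s ∘ Sum.inl)) := hPs.2.2.2.1 _
    generalize hw : phi (ln (ctr (s ∘ Sum.inl))) = w at hln
    induction w using OnePoint.rec with
    | infty =>
      show x₀ = qst' g s
      have h1 : k0 = ln (ctr (s ∘ Sum.inl)) := hln
      unfold qst'
      rw [← h1]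
      exact (hk _).symm
    | coe w =>
      have h1 : psi w = ln (ctr (s ∘ Sum.inl)) := hln
      show gh g (fun i => ri ((Sum.elim (![w.re, w.im, rho (rad (s ∘ Sum.inl))] : Fin 3 → ℝ)
        ((fun i => rho (s i)) ∘ Sum.inr) : Fin 3 ⊕ M → ℝ) i)) = qst' g s
      rw [gh_eq hQc g hk]
      unfold gh' qst'
      have h2 : psi' (ri w.re) (ri w.im) = ln (ctr (s ∘ Sum.inl)) := by
        unfold psi'
        rw [if_neg, hRi.2.2.1, hRi.2.2.1]
        · exact h1
        · rintro ((h3 | h3) | (h3 | h3))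
          · exact (hRi.2.1 _).1 h3
          · exact (hRi.2.1 _).2 h3
          · exact (hRi.2.1 _).1 h3
          · exact (hRi.2.1 _).2 h3
      have h4 : ri (rho (rad (s ∘ Sum.inl))) = rad (s ∘ Sum.inl) :=
        hRi.2.2.2.1 _ (rad_ne_zero h0) (rad_ne_one fun i => hn _)
      have h5 : (Sum.elim (fun _ : Unit => ri (rho (rad (s ∘ Sum.inl))))
          ((fun i => ri ((Sum.elim (![w.re, w.im, rho (rad (s ∘ Sum.inl))] : Fin 3 → ℝ)
            ((fun i => rho (s i)) ∘ Sum.inr) : Fin 3 ⊕ M → ℝ) i)) ∘ Sum.inr) : Unit ⊕ M → I) =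
          Sum.elim (fun _ => rad (s ∘ Sum.inl)) (s ∘ Sum.inr) := by
        rw [h4]
        congr 1
        funext m
        exact hri _
      show g (Sum.elim (fun _ : Unit => ri (rho (rad (s ∘ Sum.inl))))
          ((fun i => ri ((Sum.elim (![w.re, w.im, rho (rad (s ∘ Sum.inl))] : Fin 3 → ℝ)
            ((fun i => rho (s i)) ∘ Sum.inr) : Fin 3 ⊕ M → ℝ) i)) ∘ Sum.inr) : Unit ⊕ M → I)
          (psi' (ri w.re) (ri w.im)) = _
      rw [h2, h5]

theorem qst_eq (hRi : S_Ri) (hPs : S_Ps) (hQc : S_Qc) (g : GK M x₀) (hk : ∀ s, g s k0 = x₀) :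
    qst g = gl x₀ (fun v => Cel.hat x₀ (fun v : Fin 3 ⊕ M → ℝ => gh g fun i => ri (v i))
      (px M kap v)) := by
  classical
  have h1 : gl' x₀ (fun v => Cel.hat x₀ (fun v : Fin 3 ⊕ M → ℝ => gh g fun i => ri (v i))
      (px M kap v)) = qst' g := by
    funext s
    unfold gl'
    split_ifs with hs
    · exact (qst'_bdry g s hs).symm
    · exact key hRi hPs hQc g hk s hs
  have h2 : Continuous (qst' g) := (hQc M X x₀ g).1
  have h3 : Continuous (gl' x₀ (fun v => Cel.hat x₀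
      (fun v : Fin 3 ⊕ M → ℝ => gh g fun i => ri (v i)) (px M kap v))) := by
    rw [h1]
    exact h2
  apply GenLoop.ext
  intro s
  unfold qst gl
  rw [dif_pos h2, dif_pos h3]
  exact (congrFun h1 s).symm

end Q2

open Q2 in
theorem pQ2 (hRi : S_Ri) (hPs : S_Ps) (hQc : S_Qc) (_hGl : S_Gl) (hLg : S_Lg) (hPx : S_Px)
    (hZo : S_Zo) (hLi : S_Li) (hKa : S_Ka) : S_Q2 := by
  intro M X _ _ _ x₀ g hk
  refine ⟨fun s => gh_eq hQc g hk s, ?_⟩
  obtain ⟨hV, hE⟩ := hLg (Fin 3 ⊕ M) X x₀ (gh g)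
  rw [qst_eq hRi hPs hQc g hk]
  conv_rhs => rw [← hE]
  generalize (fun v : Fin 3 ⊕ M → ℝ => gh g fun i => ri (v i)) = f at hV
  obtain ⟨hK, p, κ', a, hz, hev, hp0, ha0, ha1, ha2, hd⟩ := hKa
  have hP := hPx (Fin 3) M kap hK
  let e : Fin 3 ⊕ M → ℝ := Sum.elim a fun _ => 1
  have he : ∀ i, e i ≠ 0 := by
    rintro (i | i)
    · show a i ≠ 0
      fin_cases i
      · exact ha0.ne'
      · exact ha1.ne
      · exact ha2.ne
    · exact one_ne_zero
  let L : (Fin 3 ⊕ M → ℝ) →L[ℝ] (Fin 3 ⊕ M → ℝ) := ContinuousLinearMap.pi fun i =>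
    e i • (ContinuousLinearMap.proj i : (Fin 3 ⊕ M → ℝ) →L[ℝ] ℝ)
  have hL : ∀ v i, L v i = e i * v i := fun v i => rfl
  have hcont : Continuous fun v : Fin 3 ⊕ M → ℝ => v ∘ Sum.inl (β := M) :=
    continuous_pi fun i => continuous_apply _
  have h1 : GenLoop.Homotopic (gl x₀ fun v => Cel.hat x₀ f (px M kap v))
      (gl x₀ fun v => f (L v)) := by
    refine hZo (Fin 3 ⊕ M) X x₀ f (px M kap) (fun v => Sum.elim (κ' (v ∘ Sum.inl)) (v ∘ Sum.inr))
      (Sum.elim p fun _ => 0) L hV hP ?_ ?_ ?_ ?_ ?_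
    · intro v hv
      unfold px at hv
      generalize hu : kap (v ∘ Sum.inl) = u at hv
      induction u using OnePoint.rec with
      | infty => exact absurd hv (OnePoint.infty_ne_coe _)
      | coe u =>
        have h2 : (Sum.elim u (v ∘ Sum.inr) : Fin 3 ⊕ M → ℝ) = 0 := OnePoint.coe_injective hv
        have h3 : u = 0 := funext fun i => congrFun h2 (Sum.inl i)
        rw [h3] at hu
        have h4 := hz _ hu
        funext i
        rcases i with i | i
        · exact congrFun h4 i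
        · exact congrFun h2 (Sum.inr i)
    · have h2 : Tendsto (fun v : Fin 3 ⊕ M → ℝ => v ∘ Sum.inl (β := M))
          (𝓝 (Sum.elim p fun _ => 0)) (𝓝 p) := hcont.tendsto _
      filter_upwards [h2.eventually hev] with v hv
      unfold px
      rw [hv]
      rfl
    · funext i
      rcases i with i | i
      · exact congrFun hp0 i
      · rfl
    · rw [hasFDerivAt_pi']
      rintro (i | i)
      · have h2 : HasFDerivAt (fun v : Fin 3 ⊕ M → ℝ => v ∘ Sum.inl (β := M))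
            (ContinuousLinearMap.pi fun i : Fin 3 =>
              (ContinuousLinearMap.proj (Sum.inl i) : (Fin 3 ⊕ M → ℝ) →L[ℝ] ℝ))
            (Sum.elim p fun _ => 0) :=
          (ContinuousLinearMap.pi fun i : Fin 3 =>
              (ContinuousLinearMap.proj (Sum.inl i) : (Fin 3 ⊕ M → ℝ) →L[ℝ] ℝ)).hasFDerivAt
        have h3 := (hasFDerivAt_pi'.1 hd i)
        exact HasFDerivAt.comp (Sum.elim p fun _ => 0 : Fin 3 ⊕ M → ℝ)
          (g := fun v => κ' v i) (f := fun v : Fin 3 ⊕ M → ℝ => v ∘ Sum.inl (β := M)) h3 h2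
      · have h2 : HasFDerivAt (fun v : Fin 3 ⊕ M → ℝ => v (Sum.inr i))
            (ContinuousLinearMap.proj (Sum.inr i) : (Fin 3 ⊕ M → ℝ) →L[ℝ] ℝ)
            (Sum.elim p fun _ => 0) :=
          (ContinuousLinearMap.proj (Sum.inr i) : (Fin 3 ⊕ M → ℝ) →L[ℝ] ℝ).hasFDerivAt
        refine h2.congr_fderiv ?_
        ext v
        show v (Sum.inr i) = 1 * v (Sum.inr i)
        rw [one_mul]
    · intro v w hvw
      funext i
      have h2 := congrFun hvw i
      rw [hL, hL] at h2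
      exact mul_left_cancel₀ (he i) h2
  have h2 : (fun v => f (L v)) = fun v => f ((Matrix.diagonal e).mulVec v) := by
    funext v
    congr 1
    funext i
    rw [Matrix.mulVec_diagonal, hL]
  rw [h2] at h1
  refine h1.trans ((hLi (Fin 3 ⊕ M) X x₀ f (Matrix.diagonal e) (Sum.inl 0) hV).1 ?_)
  rw [Matrix.det_diagonal, Fintype.prod_sum_type]
  show 0 < (∏ i : Fin 3, a i) * ∏ _i : M, (1 : ℝ)
  rw [Finset.prod_const_one, mul_one, Fin.prod_univ_three]
  exact mul_pos_of_neg_of_neg (mul_neg_of_pos_of_neg ha0 ha1) ha2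

end Pool.Agent.Tate.Ec
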