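import Pool.Agent.Lib.Tate.R.Ec.Spec

/-!
# C42 (MP_071d69_gt), R/Ec/Qc: continuity of the operation `q*` (helper82)
-/

set_option linter.unusedSectionVars false

open Topology unitInterval Filter Set
open scoped Topology.Homotopy OnePoint

noncomputable section

namespace Pool.Agent.Tate.Ec

namespace QcAux

/-- The entries of a projection of rank one in `ℂ²` are at most `1`. -/
theorem norm_le_one (p : KK) (a b : Bool) : ‖p.1 a b‖ ≤ 1 := by
  obtain ⟨p, h1, h2, h3⟩ := p
  show ‖p a b‖ ≤ 1
  have hd : ∀ a, p a a = ((∑ b, ‖p a b‖ ^ 2 : ℝ) : ℂ) := by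
    intro a
    conv_lhs => rw [← h2]
    rw [Matrix.mul_apply]
    push_cast
    refine Finset.sum_congr rfl fun b _ => ?_
    have : p b a = (starRingEnd ℂ) (p a b) := by
      conv_lhs => rw [← h1]
      rfl
    rw [this, Complex.mul_conj, Complex.normSq_eq_norm_sq]
    push_cast
    rfl
  have htr : (∑ a, ∑ b, ‖p a b‖ ^ 2 : ℝ) = 1 := by
    have : ((∑ a, ∑ b, ‖p a b‖ ^ 2 : ℝ) : ℂ) = 1 := by
      rw [← h3]
      unfold Matrix.trace
      push_cast
      refine Finset.sum_congr rfl fun a _ => ?_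
      rw [Matrix.diag_apply, hd a]
      push_cast
      rfl
    exact_mod_cast this
  have h4 : ‖p a b‖ ^ 2 ≤ 1 := by
    calc ‖p a b‖ ^ 2 ≤ ∑ b, ‖p a b‖ ^ 2 :=
          Finset.single_le_sum (f := fun b => ‖p a b‖ ^ 2) (fun _ _ => by positivity)
            (Finset.mem_univ b)
      _ ≤ ∑ a, ∑ b, ‖p a b‖ ^ 2 :=
          Finset.single_le_sum (f := fun a => ∑ b, ‖p a b‖ ^ 2) (fun _ _ => by positivity)
            (Finset.mem_univ a)
      _ = 1 := htr
  nlinarith [norm_nonneg (p a b)]

instance compactSpace_KK : CompactSpace KK := by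
  have hcl : IsClosed {p : Matrix Bool Bool ℂ |
      p.conjTranspose = p ∧ p * p = p ∧ p.trace = 1} := by
    refine IsClosed.inter ?_ (IsClosed.inter ?_ ?_)
    · exact isClosed_eq (by fun_prop) continuous_id
    · exact isClosed_eq (by fun_prop) continuous_id
    · exact isClosed_eq (by fun_prop) continuous_const
  have hK : IsCompact {p : Matrix Bool Bool ℂ |
      p.conjTranspose = p ∧ p * p = p ∧ p.trace = 1} := by
    have hb : IsCompact (Set.univ.pi fun _ : Bool => Set.univ.pi fun _ : Bool =>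
        Metric.closedBall (0 : ℂ) 1) :=
      isCompact_univ_pi fun _ => isCompact_univ_pi fun _ => isCompact_closedBall _ _
    refine hb.of_isClosed_subset hcl ?_
    intro p hp a _ b _
    rw [mem_closedBall_zero_iff]
    exact norm_le_one ⟨p, hp⟩ a b
  exact isCompact_iff_compactSpace.1 hK

instance locallyCompactSpace_KK : LocallyCompactSpace KK := inferInstance

theorem continuousAt_ln {u : Fin 3 → ℝ} (hu : u ≠ 0) : ContinuousAt (fun u => (ln u : KK)) u := by
  refine Topology.IsInducing.subtypeVal.continuousAt_iff.2 ?_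
  refine continuousAt_pi.2 fun a => continuousAt_pi.2 fun b => ?_
  exact continuousAt_lnm hu a b

/-- The main continuity statement. -/
theorem main {W X : Type*} [TopologicalSpace W] [TopologicalSpace X] (x₀ : X) (Φ : W → C(KK, X))
    (u : W → Fin 3 → I) (hΦ : Continuous Φ) (hu : Continuous u)
    (h0 : ∀ w, ctr (u w) = 0 → Φ w = ContinuousMap.const KK x₀) :
    Continuous fun w => Φ w (ln (ctr (u w))) := by
  rw [continuous_iff_continuousAt]
  intro w
  by_cases hw : ctr (u w) = 0
  · have h1 : Φ w (ln (ctr (u w))) = x₀ := by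
      rw [h0 w hw]
      rfl
    show Tendsto (fun w => Φ w (ln (ctr (u w)))) (𝓝 w) (𝓝 (Φ w (ln (ctr (u w)))))
    rw [h1, tendsto_nhds]
    intro U hU hxU
    have h2 : ∀ᶠ v in 𝓝 w, MapsTo (Φ v) univ U := by
      refine ContinuousMap.tendsto_nhds_compactOpen.1 hΦ.continuousAt univ isCompact_univ U hU ?_
      rw [h0 w hw]
      intro k _
      exact hxU
    filter_upwards [h2] with v hv
    exact hv (mem_univ _)
  · refine ContinuousAt.eval hΦ.continuousAt ?_
    exact ContinuousAt.comp (x := w) (g := fun u => (ln u : KK)) (f := fun w => ctr (u w))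
      (continuousAt_ln hw) (continuous_ctr.comp hu).continuousAt

theorem cont_arg {M : Type} : Continuous fun s : Fin 3 ⊕ M → I =>
    (Sum.elim (fun _ => rad (s ∘ Sum.inl)) (s ∘ Sum.inr) : Unit ⊕ M → I) := by
  refine continuous_pi fun i => ?_
  rcases i with i | i
  · show Continuous fun s : Fin 3 ⊕ M → I => rad (s ∘ Sum.inl)
    exact continuous_rad.comp (by fun_prop)
  · show Continuous fun s : Fin 3 ⊕ M → I => s (Sum.inr i)
    fun_prop

end QcAux

open QcAux

/-- **Qc.** Continuity of `q*`. -/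
theorem pQc (hPs : S_Ps) : S_Qc := by
  intro M X _ x₀ g
  constructor
  · refine main x₀ (fun s : Fin 3 ⊕ M → I =>
      g (Sum.elim (fun _ => rad (s ∘ Sum.inl)) (s ∘ Sum.inr))) (fun s => s ∘ Sum.inl)
      (g.1.continuous.comp cont_arg) (by fun_prop) ?_
    intro s hs
    refine g.2 _ ⟨Sum.inl (), Or.inl ?_⟩
    exact rad_eq_zero hs
  · have h1 : Continuous fun s : Fin 3 ⊕ M → I =>
        (Sum.elim (fun _ => s (Sum.inl 2)) (s ∘ Sum.inr) : Unit ⊕ M → I) := by
      refine continuous_pi fun i => ?_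
      rcases i with i | i
      · show Continuous fun s : Fin 3 ⊕ M → I => s (Sum.inl 2)
        fun_prop
      · show Continuous fun s : Fin 3 ⊕ M → I => s (Sum.inr i)
        fun_prop
    have h2 : Continuous fun s : Fin 3 ⊕ M → I => psi' (s (Sum.inl 0)) (s (Sum.inl 1)) :=
      hPs.2.2.2.2.comp (g := fun p : I × I => psi' p.1 p.2)
        (f := fun s : Fin 3 ⊕ M → I => (s (Sum.inl 0), s (Sum.inl 1))) (by fun_prop)
    exact Continuous.eval (g.1.continuous.comp h1) h2

end Pool.Agent.Tate.Ec
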