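import Pool.Agent.Lib.Tate.R.Ec.Spec
import Pool.Agent.Lib.Tate.R.Ec.Qc

/-!
# C42 (MP_071d69_gt), R/Ec/Qa: `q*` is compatible with homotopies and concatenation (helper82)
-/

set_option linter.unusedSectionVars false

open Topology unitInterval Filter Set
open scoped Topology.Homotopy OnePoint

noncomputable section

namespace Pool.Agent.Tate.Ec

namespace QaAux

variable {M X : Type} [TopologicalSpace X] {x₀ : X}

theorem qst_apply (hQc : S_Qc) (g : GK M x₀) (s : Fin 3 ⊕ M → I) : qst g s = qst' g s := by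
  unfold qst
  rw [dif_pos (hQc M X x₀ g).1]
  rfl

/-- The argument of `g` in `q*`. -/
def arg (s : Fin 3 ⊕ M → I) : Unit ⊕ M → I :=
  Sum.elim (fun _ => rad (s ∘ Sum.inl)) (s ∘ Sum.inr)

theorem arg_bdry (s : Fin 3 ⊕ M → I) (hs : s ∈ Cube.boundary (Fin 3 ⊕ M)) :
    arg s ∈ Cube.boundary (Unit ⊕ M) := by
  obtain ⟨i | i, hi⟩ := hs
  · exact ⟨Sum.inl (), Or.inr (rad_bdry ⟨i, hi⟩)⟩
  · exact ⟨Sum.inr i, hi⟩

theorem qst'_eq (g : GK M x₀) (s : Fin 3 ⊕ M → I) :
    qst' g s = g (arg s) (ln (ctr (s ∘ Sum.inl))) := rfl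

theorem hom (hQc : S_Qc) (g g' : GK M x₀) (H : GenLoop.Homotopic g g') :
    GenLoop.Homotopic (qst g) (qst g') := by
  obtain ⟨H⟩ := H
  have hH : Continuous fun p : I × (Fin 3 ⊕ M → I) =>
      (H (p.1, arg p.2) : C(KK, X)) (ln (ctr (p.2 ∘ Sum.inl))) := by
    refine QcAux.main x₀ (fun p : I × (Fin 3 ⊕ M → I) => (H (p.1, arg p.2) : C(KK, X)))
      (fun p => p.2 ∘ Sum.inl) ?_ (by fun_prop) ?_
    · refine H.continuous.comp ?_
      exact continuous_fst.prodMk (QcAux.cont_arg.comp continuous_snd)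
    · rintro ⟨t, s⟩ hs
      have hb : arg s ∈ Cube.boundary (Unit ⊕ M) := ⟨Sum.inl (), Or.inl (rad_eq_zero hs)⟩
      show H (t, arg s) = _
      rw [H.eq_fst t hb]
      exact g.2 _ hb
  refine ⟨⟨⟨⟨fun p => (H (p.1, arg p.2) : C(KK, X)) (ln (ctr (p.2 ∘ Sum.inl))), hH⟩, ?_, ?_⟩, ?_⟩⟩
  · intro s
    show (H (0, arg s) : C(KK, X)) (ln (ctr (s ∘ Sum.inl))) = qst g s
    rw [H.apply_zero, qst_apply hQc]
    rfl
  · intro s
    show (H (1, arg s) : C(KK, X)) (ln (ctr (s ∘ Sum.inl))) = qst g' s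
    rw [H.apply_one, qst_apply hQc]
    rfl
  · intro t s hs
    show (H (t, arg s) : C(KK, X)) (ln (ctr (s ∘ Sum.inl))) = qst g s
    rw [H.eq_fst t (arg_bdry s hs), qst_apply hQc]
    rfl

variable [DecidableEq M]

theorem arg_update (s : Fin 3 ⊕ M → I) (m : M) (v : I) :
    arg (Function.update s (Sum.inr m) v) = Function.update (arg s) (Sum.inr m) v := by
  funext i
  rcases i with i | i
  · rw [Function.update_of_ne Sum.inl_ne_inr]
    show rad (Function.update s (Sum.inr m) v ∘ Sum.inl) = rad (s ∘ Sum.inl)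
    refine congrArg rad ?_
    funext j
    show Function.update s (Sum.inr m) v (Sum.inl j) = s (Sum.inl j)
    rw [Function.update_of_ne Sum.inl_ne_inr]
  · show Function.update s (Sum.inr m) v (Sum.inr i) = _
    by_cases h : i = m
    · subst h
      rw [Function.update_self, Function.update_self]
    · have h' : (Sum.inr i : Fin 3 ⊕ M) ≠ Sum.inr m := fun e => h (Sum.inr_injective e)
      have h'' : (Sum.inr i : Unit ⊕ M) ≠ Sum.inr m := fun e => h (Sum.inr_injective e)
      rw [Function.update_of_ne h', Function.update_of_ne h'']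
      rfl

theorem inl_update (s : Fin 3 ⊕ M → I) (m : M) (v : I) :
    (Function.update s (Sum.inr m) v) ∘ Sum.inl = s ∘ Sum.inl := by
  funext j
  show Function.update s (Sum.inr m) v (Sum.inl j) = s (Sum.inl j)
  rw [Function.update_of_ne Sum.inl_ne_inr]

theorem qst'_update (g : GK M x₀) (s : Fin 3 ⊕ M → I) (m : M) (v : I) :
    qst' g (Function.update s (Sum.inr m) v) =
      g (Function.update (arg s) (Sum.inr m) v) (ln (ctr (s ∘ Sum.inl))) := by
  rw [qst'_eq, arg_update, inl_update]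

theorem trans_at (hQc : S_Qc) (g g' : GK M x₀) (m : M) :
    qst (GenLoop.transAt (Sum.inr m) g g') =
      GenLoop.transAt (Sum.inr m) (qst g) (qst g') := by
  ext s
  rw [qst_apply hQc, qst'_eq]
  unfold GenLoop.transAt
  rw [GenLoop.coe_copy, GenLoop.coe_copy]
  rw [qst_apply hQc, qst_apply hQc, qst'_update, qst'_update]
  show ((if ((s (Sum.inr m) : I) : ℝ) ≤ 1 / 2 then _ else _ : C(KK, X)) _ : X) = _
  by_cases h : ((s (Sum.inr m) : I) : ℝ) ≤ 1 / 2
  · rw [if_pos h, if_pos h]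
    rfl
  · rw [if_neg h, if_neg h]
    rfl

theorem symm_at (hQc : S_Qc) (g : GK M x₀) (m : M) :
    qst (GenLoop.symmAt (Sum.inr m) g) = GenLoop.symmAt (Sum.inr m) (qst g) := by
  ext s
  rw [qst_apply hQc, qst'_eq]
  unfold GenLoop.symmAt
  rw [GenLoop.coe_copy, GenLoop.coe_copy]
  beta_reduce
  have h1 : (fun j => if j = Sum.inr m then σ (s (Sum.inr m)) else s j) =
      Function.update s (Sum.inr m) (σ (s (Sum.inr m))) := by
    funext j
    rw [Function.update_apply]
  have h2 : (fun j => if j = Sum.inr m then σ (arg s (Sum.inr m)) else arg s j) =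
      Function.update (arg s) (Sum.inr m) (σ (s (Sum.inr m))) := by
    funext j
    rw [Function.update_apply]
    rfl
  rw [h1, h2, qst_apply hQc, qst'_update]

end QaAux

open QaAux

/-- **Qa.** `q*` is compatible with homotopies and a homomorphism. -/
theorem pQa (hQc : S_Qc) : S_Qa := by
  intro M X _ _ x₀ g g'
  exact ⟨hom hQc g g', trans_at hQc g g', symm_at hQc g⟩

end Pool.Agent.Tate.Ec
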