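import Pool.Agent.Lib.Tate.R.Ec.Spec

/-!
# C42, block R/Ec: a map is null homotopic if its value at `k0` and its `q*` are (`S_Sp`)
-/

set_option autoImplicit false

open Topology unitInterval Filter Set
open scoped Topology.Homotopy OnePoint

noncomputable section

namespace Pool.Agent.Tate.Ec

theorem pSp (h1 : S_Qa) (h2 : S_Q2) (h3 : S_Bn) (h4 : S_Gn) : S_Sp := by
  intro M X _ _ _ x₀ g hev hq
  obtain ⟨g', hgg', hg'⟩ := h3 (Unit ⊕ M) X x₀ g hev
  obtain ⟨ha, hb⟩ := h2 M X x₀ g' hg'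
  have hc := (h1 M X x₀ g g').1 hgg'
  exact hgg'.trans (h4 M X x₀ g' hg' ha ((hb.symm.trans hc.symm).trans hq))

end Pool.Agent.Tate.Ec
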