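import Pool.Agent.Lib.Tate.W.Spec
import Pool.Agent.Lib.Tate.Inj.Spec

/-!
# C42 (MP_071d69_gt), block R/Ec (helper66): calculus of based maps of spheres

A based map `S^N → X` is described either by a `GenLoop N X x₀` (a map of the cube) or by a function
`f : ℝ^N → X` with `Cel.VanOn x₀ univ f` (continuous, limit `x₀` at infinity); `gl x₀ f` is the
`GenLoop` of `f` (coordinates `rho`).  Results: homotopies, linear maps, permutations of coordinates,
the zoom lemma (a self map of the sphere with one simple zero is homotopic to its derivative), sums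
over half spaces, the squaring map `ℂ → ℂ` has degree two.  Then the operation `q*` (`qst`):
`π_{1+M}(Map(CP^1, X)) → π_{3+M}(X)`, `(q* g)(s, m) = g(rad s, m)(ln (ctr s))`.

Statement `S_X` is proved by `theorem pX : S_X` in `Pool/Agent/Lib/Tate/R/Ec/X.lean` (namespace
`Pool.Agent.Tate.Ec`); statements which are used are hypotheses of the theorem.  Complete proofs in
the docstrings.
-/

set_option linter.unusedSectionVars false

open Topology unitInterval Filter Set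
open scoped Topology.Homotopy OnePoint

noncomputable section

namespace Pool.Agent.Tate.Ec

/-! ### Definitions -/

/-- The inverse of `rho`. -/
def ri (u : ℝ) : I := Set.projIcc 0 1 zero_le_one ((1 + u / (2 + Real.sqrt (4 + u ^ 2))) / 2)

open Classical in
/-- The map `I^N → X` given by `f : ℝ^N → X` and by `x₀` on the boundary. -/
def gl' {N X : Type} (x₀ : X) (f : (N → ℝ) → X) (s : N → I) : X :=
  if s ∈ Cube.boundary N then x₀ else f fun i => rho (s i)

open Classical in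
/-- The based map of the sphere given by `f : ℝ^N → X` with limit `x₀` at infinity. -/
def gl {N X : Type} [TopologicalSpace X] (x₀ : X) (f : (N → ℝ) → X) : GenLoop N X x₀ :=
  if h : Continuous (gl' x₀ f) then ⟨⟨gl' x₀ f, h⟩, fun _ hs => if_pos hs⟩ else GenLoop.const

/-- `κ × id`. -/
def px {N : Type} (M : Type) (κ : (N → ℝ) → OnePoint (N → ℝ)) (v : N ⊕ M → ℝ) :
    OnePoint (N ⊕ M → ℝ) :=
  OnePoint.elim (κ (v ∘ Sum.inl)) ∞ fun u => ((Sum.elim u (v ∘ Sum.inr) : N ⊕ M → ℝ) :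
    OnePoint (N ⊕ M → ℝ))

/-- The map of `ℝ^N` which expands the open ball of radius `c` to the whole space. -/
def sh {N : Type} [Fintype N] (c : ℝ) (v : N → ℝ) : OnePoint (N → ℝ) :=
  if ‖v‖ < c then (((c - ‖v‖)⁻¹ • v : N → ℝ) : OnePoint (N → ℝ)) else ∞

/-- The squaring map of `ℝ^2 = ℂ`. -/
def sq (u : Fin 2 → ℝ) : Fin 2 → ℝ := ![u 0 ^ 2 - u 1 ^ 2, 2 * u 0 * u 1]

/-- `CP^1`, the projections of rank one in `ℂ²`. -/
abbrev KK : Type := {p : Matrix Bool Bool ℂ // p.conjTranspose = p ∧ p * p = p ∧ p.trace = 1}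

/-- The line spanned by the base vector `false`. -/
def k0 : KK :=
  ⟨fun a b => if a = false ∧ b = false then 1 else 0, by
    refine ⟨?_, ?_, ?_⟩
    · ext a b
      rw [Matrix.conjTranspose_apply]
      cases a <;> cases b <;> simp
    · ext a b
      rw [Matrix.mul_apply, Fintype.sum_bool]
      cases a <;> cases b <;> simp
    · rw [Matrix.trace, Fintype.sum_bool, Matrix.diag_apply, Matrix.diag_apply]
      simp⟩

/-- The line spanned by the vector `(w, 1)` (rows and columns: `false`, `true`). -/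
def psi (w : ℂ) : KK :=
  ⟨fun a b => match a, b with
    | false, false => ((Complex.normSq w / (1 + Complex.normSq w) : ℝ) : ℂ)
    | false, true => w / (1 + Complex.normSq w : ℝ)
    | true, false => (starRingEnd ℂ) w / (1 + Complex.normSq w : ℝ)
    | true, true => ((1 / (1 + Complex.normSq w) : ℝ) : ℂ), by
    have h0 : (0 : ℝ) < 1 + Complex.normSq w := by
      have := Complex.normSq_nonneg w
      linarith
    have hn : ((1 + Complex.normSq w : ℝ) : ℂ) ≠ 0 := by exact_mod_cast h0.ne'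
    have hn' : (1 + (Complex.normSq w : ℂ)) ≠ 0 := by exact_mod_cast h0.ne'
    have hw : w * (starRingEnd ℂ) w = (Complex.normSq w : ℂ) := Complex.mul_conj w
    refine ⟨?_, ?_, ?_⟩
    · ext a b
      rw [Matrix.conjTranspose_apply]
      cases a <;> cases b <;> simp [Complex.conj_ofReal]
    · ext a b
      rw [Matrix.mul_apply, Fintype.sum_bool]
      cases a <;> cases b <;> simp only [] <;> push_cast <;> field_simp <;>
        linear_combination hw
    · rw [Matrix.trace, Fintype.sum_bool, Matrix.diag_apply, Matrix.diag_apply]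
      simp only []
      push_cast
      field_simp⟩

/-- The homeomorphism from the one point compactification of `ℂ` to `CP^1`. -/
def psiH (p : OnePoint ℂ) : KK := OnePoint.elim p k0 psi

/-- The inverse of `psiH`. -/
def phi (k : KK) : OnePoint ℂ :=
  open Classical in if k.1 true true = 0 then ∞ else ((k.1 false true / k.1 true true : ℂ) : OnePoint ℂ)

open Classical in
/-- `psi` in the coordinates of the square. -/
def psi' (a b : I) : KK :=
  if (a = 0 ∨ a = 1) ∨ b = 0 ∨ b = 1 then k0 else psi ⟨rho a, rho b⟩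

section q

variable {M X : Type} [TopologicalSpace X] {x₀ : X}

/-- Based maps `S^{1+M} → Map(CP^1, X)`. -/
abbrev GK (M : Type) {X : Type} [TopologicalSpace X] (x₀ : X) :=
  GenLoop (Unit ⊕ M) C(KK, X) (ContinuousMap.const KK x₀)

/-- `(q* g)(s, m) = g(rad s, m)(ln (ctr s))`. -/
def qst' (g : GK M x₀) (s : Fin 3 ⊕ M → I) : X :=
  g (Sum.elim (fun _ => rad (s ∘ Sum.inl)) (s ∘ Sum.inr)) (ln (ctr (s ∘ Sum.inl)))

theorem qst'_bdry (g : GK M x₀) (s : Fin 3 ⊕ M → I) (hs : s ∈ Cube.boundary (Fin 3 ⊕ M)) :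
    qst' g s = x₀ := by
  have h : g (Sum.elim (fun _ : Unit => rad (s ∘ Sum.inl)) (s ∘ Sum.inr)) =
      ContinuousMap.const KK x₀ := by
    apply g.2
    obtain ⟨i | i, hi⟩ := hs
    · exact ⟨Sum.inl (), Or.inr (rad_bdry ⟨i, hi⟩)⟩
    · exact ⟨Sum.inr i, hi⟩
  unfold qst'
  rw [h]
  rfl

open Classical in
/-- The operation `q*`. -/
def qst (g : GK M x₀) : GenLoop (Fin 3 ⊕ M) X x₀ :=
  if h : Continuous (qst' g) then ⟨⟨qst' g, h⟩, qst'_bdry g⟩ else GenLoop.const

/-- The adjoint of a based map: `(gh g)(a, b, r, m) = g(r, m)(psi'(a, b))`. -/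
def gh' (g : GK M x₀) (s : Fin 3 ⊕ M → I) : X :=
  g (Sum.elim (fun _ => s (Sum.inl 2)) (s ∘ Sum.inr)) (psi' (s (Sum.inl 0)) (s (Sum.inl 1)))

open Classical in
/-- The adjoint of a based map. -/
def gh (g : GK M x₀) : GenLoop (Fin 3 ⊕ M) X x₀ :=
  if h : Continuous (gh' g) ∧ ∀ s ∈ Cube.boundary (Fin 3 ⊕ M), gh' g s = x₀ then
    ⟨⟨gh' g, h.1⟩, h.2⟩ else GenLoop.const

/-- The homotopy class. -/
def hcl {N : Type} (f : GenLoop N X x₀) : HomotopyGroup N X x₀ := Quotient.mk _ f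

/-- The value at the base point `k0` of `CP^1`. -/
def ev0 {N : Type} (g : GenLoop N C(KK, X) (ContinuousMap.const KK x₀)) : GenLoop N X x₀ :=
  ⟨⟨fun s => g s k0, (continuous_eval_const k0).comp g.1.continuous⟩, by
    intro s hs
    show (g.1 s) k0 = x₀
    rw [g.2 s hs]
    rfl⟩

end q

/-- Folding of `CP^1` to the disc `|w| ≤ 1` (reflection at the unit circle), and contraction. -/
def fo (t : ℝ) (k : KK) : KK :=
  OnePoint.elim (phi k) (psi 0) fun w =>
    if ‖w‖ ≤ 1 then psi (t * w) else psi (t * ((starRingEnd ℂ) w)⁻¹)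

/-- The map of the three-sphere in `q*`: `u ↦ (Re w, Im w, rho (rad s))`, `s = ri u`,
`w = phi (ln (ctr s))`. -/
def kap (u : Fin 3 → ℝ) : OnePoint (Fin 3 → ℝ) :=
  open Classical in
  if ctr (fun i => ri (u i)) = 0 then ∞ else
    OnePoint.elim (phi (ln (ctr fun i => ri (u i)))) ∞ fun w =>
      ((![w.re, w.im, rho (rad fun i => ri (u i))] : Fin 3 → ℝ) : OnePoint (Fin 3 → ℝ))

/-! ### Maps of spheres -/

/-- **Ri.** The inverse of `rho`.

Proof. With `R = √(4 + u²) > |u|` and `c = u / (2 + R)`: `|c| < 1`, `1 - c² = 4 / (2 + R)` (use `R² = 4 + u²`), so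
`(1 + c)/2 ∈ (0, 1)`, `projIcc_of_mem`, and `rho ((1 + c)/2) = 4 c / (1 - c²) = u`.  `rho` is strictly increasing on
`(0, 1)`: `rho t = u` and `t ≠ 0, 1` mean `u t² - (u - 2) t ... ` (quadratic equation) or directly: `rho t - rho t'` has the sign of
`t - t'` (`(2t-1) t'(1-t') - (2t'-1) t(1-t) = (t - t')(2 t t' - t - t' + 1)`, and
`2 t t' - t - t' + 1 = t t' + (1-t)(1-t') > 0`).  So `rho` is injective on `(0, 1)` and `ri (rho t) = t`.
`c` is a differentiable function of `u` with the derivative `2 / (R (2 + R)) > 0` (at `u`), since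
`(u / (2 + R))' = (2 + R - u²/R)/(2+R)² = (2R + 4)/(R (2+R)²)`; strictly monotone by `rho` strictly monotone. -/
def S_Ri : Prop :=
  (∀ u, ((ri u : I) : ℝ) = (1 + u / (2 + Real.sqrt (4 + u ^ 2))) / 2) ∧
  (∀ u, ri u ≠ 0 ∧ ri u ≠ 1) ∧ (∀ u, rho (ri u) = u) ∧
  (∀ t : I, t ≠ 0 → t ≠ 1 → ri (rho t) = t) ∧ Continuous ri ∧ (∀ t, rho (σ t) = -rho t) ∧
  (∀ u, ri (-u) = σ (ri u)) ∧ StrictMono (fun u => (ri u : ℝ)) ∧
  ∀ u, HasDerivAt (fun u => (ri u : ℝ))
    (1 / (Real.sqrt (4 + u ^ 2) * (2 + Real.sqrt (4 + u ^ 2)))) u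

/-- **Gl.** The `GenLoop` of a function.  (Uses `Wi.S_Rh`.)

Proof. Let `f` be `VanOn x₀ univ`, so `hat x₀ f : OnePoint (N → ℝ) → X` is continuous (`insert ∞ (range coe) = univ`).
`gl' x₀ f = hat x₀ f ∘ j`, `j s = ∞` on the boundary, `j s = (rho (s i))_i` else; `j` is continuous: outside of the boundary
(closed) by `Wi.S_Rh`; at a boundary point some `|rho (s i)|` tends to infinity, and for a compact set `K` of `N → ℝ`
(bounded) `j s ∉ K` near that point (`OnePoint.continuousAt_infty'` style or `OnePoint.tendsto_nhds_infty`). -/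
def S_Gl : Prop := ∀ (N X : Type) [Fintype N] [TopologicalSpace X] (x₀ : X) (f : (N → ℝ) → X),
  Cel.VanOn x₀ univ f → Continuous (gl' x₀ f)

/-- **Lg.** Every `GenLoop` comes from a function.  (Uses `S_Ri`, `Cel.S_Ha`.)

Proof. `f v = g (fun i => ri (v i))`.  `Cel.S_Ha`: `f` is continuous; let `U` be an open neighbourhood of `x₀`: the set
`C = {s | g s ∉ U}` is compact and disjoint from the boundary, its image under the continuous map `s ↦ (rho (s i))_i`
(continuous outside the boundary: `rho t = (2t-1)/(t(1-t))`) is a compact set `K`, and `f v ∈ U` for `v ∉ K`.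
`gl' x₀ f = g` by `S_Ri` (so it is continuous, and `gl x₀ f = g`, `dif_pos`). -/
def S_Lg : Prop := ∀ (N X : Type) [Fintype N] [TopologicalSpace X] (x₀ : X) (g : GenLoop N X x₀),
  Cel.VanOn x₀ univ (fun v : N → ℝ => g fun i => ri (v i)) ∧
    gl x₀ (fun v : N → ℝ => g fun i => ri (v i)) = g

/-- **Ho.** Homotopies.  (Uses `Wi.S_Rh`, `S_Gl`.)

Proof. The functions `F (·, 0)`, `F (·, 1)` are `VanOn x₀ univ` (restriction), so the `gl` are given by `gl'` (`S_Gl`).
The homotopy is `(t, s) ↦ if s ∈ boundary then x₀ else F (rho ∘ s, t) = hat x₀ F (j (s, t))`, `j (s, t) = ∞` on the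
boundary, `((rho ∘ s, t) : OnePoint)` else, continuous as in `S_Gl` with values in
`insert ∞ (coe '' (univ ×ˢ Icc 0 1))`. -/
def S_Ho : Prop := ∀ (N X : Type) [Fintype N] [TopologicalSpace X] (x₀ : X)
  (F : (N → ℝ) × ℝ → X), Cel.VanOn x₀ (univ ×ˢ Icc (0 : ℝ) 1) F →
  GenLoop.Homotopic (gl x₀ fun v => F (v, 0)) (gl x₀ fun v => F (v, 1))

/-- **Pu.** Composition with a homotopy of maps of spheres.  (Uses `S_Ho`.)

Proof. `hat x₀ f` is continuous on `OnePoint Z`; `F = hat x₀ f ∘ k` satisfies `hat x₀ F = hat x₀ f ∘ hat ∞ k`, so `F` is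
`VanOn x₀`; `S_Ho`. -/
def S_Pu : Prop := ∀ (N Z X : Type) [Fintype N] [TopologicalSpace Z] [TopologicalSpace X] (x₀ : X)
  (f : Z → X) (k : (N → ℝ) × ℝ → OnePoint Z), Cel.VanOn x₀ univ f →
  Cel.VanOn (∞ : OnePoint Z) (univ ×ˢ Icc (0 : ℝ) 1) k →
  GenLoop.Homotopic (gl x₀ fun v => Cel.hat x₀ f (k (v, 0)))
    (gl x₀ fun v => Cel.hat x₀ f (k (v, 1)))

/-- **Pc.** A criterion for `VanOn ∞`, for maps to a finite dimensional space with the value `∞`.

Proof. `k = coe ∘ k'` where `k'` is continuous; the neighbourhoods of `∞` in `OnePoint V` are the complements of the compact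
(bounded closed, `V` proper) sets; so `k → ∞` at infinity because `‖k'‖ → ∞`. -/
def S_Pc : Prop := ∀ (Z V : Type) [TopologicalSpace Z] [T2Space Z] [NormedAddCommGroup V]
  [NormedSpace ℝ V] [FiniteDimensional ℝ V] (C : Set Z) (k' : Z → V), ContinuousOn k' C →
  Tendsto (fun z => ‖k' z‖) (cocompact Z ⊓ 𝓟 C) atTop →
  Cel.VanOn (∞ : OnePoint V) C fun z => (k' z : OnePoint V)

/-- **Li.** Linear maps.  (Uses `S_Pu`, `S_Pc`, `S_Gl`.)

Proof. (a) If `A_t`, `t ∈ [0, 1]`, is a continuous path of invertible matrices, then `f ∘ A_0 ~ f ∘ A_1`: `S_Pu`, `S_Pc` with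
`k' (v, t) = A_t v` and `‖v‖ ≤ C ‖A_t v‖` (`C` a bound for the norms of the `A_t⁻¹`; compactness).
(b) `symmAt i (gl x₀ f) = gl x₀ (f ∘ R_i)`, `R_i v = update v i (-v i)`, from `rho (1 - t) = -rho t` (no `S_Ri` needed).
Let `P A` be: for all `f` (`VanOn`), `0 < det A → gl (f ∘ A) ~ gl f` and `det A < 0 → gl (f ∘ A) ~ symmAt i (gl f)`.
`Matrix.diagonal_transvection_induction_of_det_ne_zero`.  Transvections: (a) with `c ↦ t c`.  Products: apply `P B` to
`f ∘ A`, then `P A` to `f` (`symmAt` respects homotopy, `symmAt i (symmAt i g) = g`).  Diagonal matrices: products of a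
diagonal matrix with positive entries (path `(1 - t) D + t`) and of `R_j`; `R_i` by (b); for `j ≠ i`, `R_j = R_i ρ_π` with
`ρ_θ` the rotation by `θ` in the coordinates `i, j`: path `R_i ρ_{(1-t)π}`. -/
def S_Li : Prop := ∀ (N X : Type) [Fintype N] [DecidableEq N] [TopologicalSpace X] (x₀ : X)
  (f : (N → ℝ) → X) (A : Matrix N N ℝ) (i : N), Cel.VanOn x₀ univ f →
  (0 < A.det → GenLoop.Homotopic (gl x₀ fun v => f (A.mulVec v)) (gl x₀ f)) ∧
  (A.det < 0 → GenLoop.Homotopic (gl x₀ fun v => f (A.mulVec v)) (GenLoop.symmAt i (gl x₀ f)))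

/-- **Pm.** Permutations of the coordinates act by the sign.  (Uses `S_Lg`, `S_Li`.)

Proof. `g = gl x₀ f` by `S_Lg`; `congr π g = gl x₀ (f ∘ A)`, `A = permMatrix π` (`(A v) i = v (π i)`), as both are
`t ↦ g (t ∘ π)`; `Matrix.det_permutation`; `S_Li`. -/
def S_Pm : Prop := ∀ (N X : Type) [Fintype N] [DecidableEq N] [TopologicalSpace X] (x₀ : X)
  (π : Equiv.Perm N) (i : N) (g : GenLoop N X x₀),
  (Equiv.Perm.sign π = 1 → GenLoop.Homotopic (GenLoop.congr x₀ π g) g) ∧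
  (Equiv.Perm.sign π = -1 → GenLoop.Homotopic (GenLoop.congr x₀ π g) (GenLoop.symmAt i g))

/-- **Px.** Products with an identity map.

Proof. `hat ∞ (px M κ)` is continuous.  At a point `v` with `κ (v ∘ inl) = u` finite: composition of continuous maps
(`OnePoint.isOpenEmbedding_coe`).  At `v` with `κ (v ∘ inl) = ∞`, and at `∞`: a neighbourhood of `∞` contains the complement of a
box `‖·‖ ≤ R`; near `v` the value `κ (v' ∘ inl)` is `∞` or of norm `> R`.  At infinity: let `S` be such that `κ u` is `∞` or of norm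
`> R` for `‖u‖ > S`; if `‖v‖ > max R S` then `‖v ∘ inl‖ > S` or `‖v ∘ inr‖ > R`, in both cases `px M κ v` is outside of the box. -/
def S_Px : Prop := ∀ (N M : Type) [Fintype N] [Fintype M] (κ : (N → ℝ) → OnePoint (N → ℝ)),
  Cel.VanOn ∞ univ κ → Cel.VanOn ∞ univ (px M κ)

/-- **Zo.** The zoom lemma.  (Uses `S_Pu`.)

Proof. Scaling `c • ∞ = ∞` is continuous on `(0, ∞) × OnePoint`.  Let `k (v, t) = t⁻¹ • κ (p + t v)` for `t > 0` and
`k (v, 0) = L v`.  Then `k (v, 1) = κ (p + v)`.  `VanOn ∞ (univ ×ˢ Icc 0 1) k`: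
continuity at `(v, t)`, `t > 0`: composition.  At `(v₀, 0)`: for `(v, t)` near and `t > 0` the value is
`t⁻¹ • κ' (p + t v) = L v + t⁻¹ • o(t v) → L v₀` (`hasFDerivAt_iff_isLittleO_nhds_zero`), and `L v → L v₀`.
At infinity: write `|∞| = ∞`.  There is `c > 0` with `|κ (p + h)| ≥ c min(‖h‖, 1)` for all `h`: near `h = 0` from the derivative
(`‖L h‖ ≥ 2c‖h‖`, `L` injective on a finite dimensional space), and for `‖h‖ ≥ δ` because `|κ|` is bounded from below by a positive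
constant: the continuous map `hat ∞ κ` on the compact set `{∞} ∪ {‖h‖ ≥ δ}` does not take the value `0`.  Given `R`: let
`|κ (p + h)| > R` for `‖h‖ ≥ T`, `T ≥ 1`.  If `‖v‖ ≥ V` and `t‖v‖ ≥ T`: `|k| ≥ |κ| > R`.  If `t‖v‖ < T`: `t < T/V`,
`|k| ≥ c min(‖v‖, 1/t) ≥ c V / T > R` for large `V`.  `S_Pu` gives `f∘L ~ hat f (κ (p + ·))`, and
`k₂ (v, t) = κ (v + t p)` (`S_Pu`; composition of `κ` with a proper map, `Tendsto (v + t p)`) gives
`hat f (κ (p + ·)) ~ hat f (κ ·)`. -/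
def S_Zo : Prop := ∀ (N X : Type) [Fintype N] [TopologicalSpace X] (x₀ : X) (f : (N → ℝ) → X)
  (κ : (N → ℝ) → OnePoint (N → ℝ)) (κ' : (N → ℝ) → (N → ℝ)) (p : N → ℝ)
  (L : (N → ℝ) →L[ℝ] (N → ℝ)), Cel.VanOn x₀ univ f → Cel.VanOn ∞ univ κ →
  (∀ v, κ v = ((0 : N → ℝ) : OnePoint (N → ℝ)) → v = p) →
  (∀ᶠ v in 𝓝 p, κ v = (κ' v : OnePoint (N → ℝ))) → κ' p = 0 → HasFDerivAt κ' L p →
  Function.Injective L →
  GenLoop.Homotopic (gl x₀ fun v => Cel.hat x₀ f (κ v)) (gl x₀ fun v => f (L v))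

/-- **Sh.** Shrinking the support.  (Uses `S_Pu`.)

Proof. `k (v, t) = d⁻¹ • v` if `d = 1 - t + t (c - ‖v‖) > 0`, else `∞`; `k (v, 0) = v`, `k (v, 1) = sh c v`.  Continuous on
`univ ×ˢ Icc 0 1`: if `d → 0` then `‖v‖ = c + (1 - t)/t + ... ≥ c` stays away from `0`, so `‖d⁻¹ v‖ → ∞`.  At infinity:
`d ≤ max 1 c`, so `‖k‖ ≥ ‖v‖ / max 1 c`.  The first statement is the case `t = 1`. -/
def S_Sh : Prop := ∀ (N X : Type) [Fintype N] [TopologicalSpace X] (x₀ : X) (f : (N → ℝ) → X)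
  (c : ℝ), 0 < c → Cel.VanOn (∞ : OnePoint (N → ℝ)) univ (sh (N := N) c) ∧
    (Cel.VanOn x₀ univ f →
      GenLoop.Homotopic (gl x₀ fun v => Cel.hat x₀ f (sh c v)) (gl x₀ f))

/-- **Su.** Sums over half spaces.  (Uses `S_Gl`, `Cel.S_Un`, `Wi.S_Rh`.)

Proof. The two functions are `f` on one closed half space and `x₀` on the other one: `Cel.S_Un`.  Let `g = gl x₀ f`, so `g t = x₀` for
`t i = 1/2` (`rho (1/2) = 0`).  `g = transAt i g_L g_R` with `g_L t = g (update t i (t i / 2))`,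
`g_R t = g (update t i ((1 + t i)/2))`.  `g_L ~ gl f₋` by `(λ, t) ↦ g (update t i (min ((1 + λ)/2 * t i) (1/2)))`
(for `λ = 1`: `min (t i) (1/2)`, and `rho t < 0` iff `t < 1/2` for `0 < t < 1`).  The same on the right with
`max ((1 + λ)/2 * t i + (1 - λ)/2) (1/2)`.  `transAt` respects homotopies (`HomotopyGroup.mul_spec` or by hand). -/
def S_Su : Prop := ∀ (N X : Type) [Fintype N] [DecidableEq N] [TopologicalSpace X] (x₀ : X) (i : N)
  (f : (N → ℝ) → X), Cel.VanOn x₀ univ f → (∀ v, v i = 0 → f v = x₀) →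
  Cel.VanOn x₀ univ (fun v => if v i < 0 then f v else x₀) ∧
  Cel.VanOn x₀ univ (fun v => if 0 < v i then f v else x₀) ∧
  GenLoop.Homotopic (gl x₀ f) (GenLoop.transAt i (gl x₀ fun v => if v i < 0 then f v else x₀)
    (gl x₀ fun v => if 0 < v i then f v else x₀))

/-- **Sq.** The squaring map has degree two.  (Uses `S_Gl`, `S_Pu`, `S_Pc`, `S_Li`, `S_Zo`, `S_Sh`, `S_Su`, `S_Ho`.)

Proof. `N = Fin 2 ⊕ M`, `Q_t v = (sq (v ∘ inl) - t e_0, v ∘ inr)`.  (1) `gl (f ∘ Q_0) ~ gl (f ∘ Q_1)`: `S_Pu`, `S_Pc`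
(`‖sq u‖ ≥ ‖u‖² / 2` in the maximum norm: `|sq u|₂ = |u|₂²`).  (2) `S_Sh` with `c = 1/2`, composed with `Q_1`: the homotopy `k` of the
proof of `S_Sh` can be composed with `Q_1` (`S_Pu` with `k (Q_1 v, t)`); so `gl (f ∘ Q_1) ~ gl (hat f ∘ sh c ∘ Q_1) =: gl g`
(alternatively homotope `f` to `hat f ∘ sh c` and compose the homotopy with `Q_1`, `S_Ho`).
(3) `g v = x₀` for `v (inl 0) = 0`, since then `‖Q_1 v‖ ≥ 1 + y² ≥ c`.  `S_Su` with `i = inl 0`.
(4) `g₊ v = hat f (κ v)`, `κ v = sh c (Q_1 v)` if `0 < v (inl 0)`, else `∞`; `VanOn ∞ univ κ` (near `v (inl 0) = 0` the value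
is `∞`).  Zero: `v ∘ inr = 0`, `sq (v ∘ inl) = e_0`, `v (inl 0) > 0`: only `p = (1, 0; 0)`.  Derivative of `Q_1` at `p`:
`diag(2, 2; 1)`, derivative of `w ↦ (c - ‖w‖)⁻¹ • w` at `0`: `c⁻¹`; `S_Zo`, `S_Li`: `gl g₊ ~ gl f`.  The same for `g₋`:
`p = (-1, 0; 0)`, derivative `c⁻¹ diag(-2, -2; 1)`, determinant `> 0`.  `HomotopyGroup.mul_spec`. -/
def S_Sq : Prop := ∀ (M X : Type) [Fintype M] [DecidableEq M] [TopologicalSpace X] (x₀ : X)
  (f : (Fin 2 ⊕ M → ℝ) → X), Cel.VanOn x₀ univ f →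
  GenLoop.Homotopic (gl x₀ fun v => f (Sum.elim (sq (v ∘ Sum.inl)) (v ∘ Sum.inr)))
    (GenLoop.transAt (Sum.inl 0) (gl x₀ f) (gl x₀ f))

/-! ### The operation `q*` -/

/-- **Ps.** `CP^1` is the one point compactification of `ℂ`.  (Uses `Wi.S_Rh`.)

Proof. Entries of `psi w` tend to those of `k0` for `|w| → ∞`.  `phi (psi w) = w` by the formulas; `k.1 true true = 0` implies
`k = k0`: for a projection `k` of rank one (`k = k*`, `k² = k`) `k_tt = |k_tf|² + k_tt²`, so `k_tf = 0`, `k_ft = 0`,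
`k_ff = 1` (trace).  If `k_tt ≠ 0` and `w = k_ft / k_tt`: `k_tt` is real, `k_ff = 1 - k_tt`,
`|k_ft|² = k_tt (1 - k_tt)` so `|w|² = (1 - k_tt)/k_tt`, `1/(1 + |w|²) = k_tt`, `k = psi w`.  `phi` is the inverse of the continuous
bijection `psiH` from a compact to a Hausdorff space.  `psi' a b = psiH (j (a, b))`, `j` continuous by `Wi.S_Rh`
(as in `S_Gl`). -/
def S_Ps : Prop := Continuous psiH ∧ Continuous phi ∧ (∀ p, phi (psiH p) = p) ∧
  (∀ k, psiH (phi k) = k) ∧ Continuous fun p : I × I => psi' p.1 p.2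

/-- **Qc.** Continuity of `q*`.  (Uses `S_Ps`.)

Proof. The evaluation `C(KK, X) × KK → X` is continuous (`KK` is compact Hausdorff, so locally compact).  `gh' g`: composition.
`qst' g`: at `s` with `ctr (s ∘ inl) ≠ 0` composition (`continuousAt_lnm`: `ln` is continuous at non-zero vectors).  If
`ctr (s ∘ inl) = 0` then `rad = 0` (`rad_eq_zero`), and `g (0, m) = const`; for an open neighbourhood `U` of `x₀` the set of all
`(r, m)` with `g (r, m) ∈ {h | h(KK) ⊆ U}` is open (compact-open topology), so `qst' g ∈ U` near `s`. -/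
def S_Qc : Prop := ∀ (M X : Type) [TopologicalSpace X] (x₀ : X) (g : GK M x₀),
  Continuous (qst' g) ∧ Continuous (gh' g)

/-- **Qa.** `q*` is compatible with homotopies and a homomorphism.  (Uses `S_Qc`.)

Proof. (1) A homotopy `H` from `g` to `g'` relative to the boundary gives
`(t, s) ↦ H (t, (rad (s ∘ inl), s ∘ inr)) (ln (ctr (s ∘ inl)))`, continuous as in `S_Qc`.  (2), (3): the formulas for
`transAt`, `symmAt` (`GenLoop.transAt`, `coe_copy`): the coordinate `inr m` is not touched by `q*`. -/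
def S_Qa : Prop := ∀ (M X : Type) [DecidableEq M] [TopologicalSpace X] (x₀ : X) (g g' : GK M x₀),
  (GenLoop.Homotopic g g' → GenLoop.Homotopic (qst g) (qst g')) ∧
  (∀ m : M, qst (GenLoop.transAt (Sum.inr m) g g') =
    GenLoop.transAt (Sum.inr m) (qst g) (qst g')) ∧
  ∀ m : M, qst (GenLoop.symmAt (Sum.inr m) g) = GenLoop.symmAt (Sum.inr m) (qst g)

/-- **Q1.** `q*` of a map which does not depend on `CP^1`.  (Uses `S_Qc`.)

Proof. `qst' g s = g (rad s, m) k0`; homotopy `(t, s) ↦ g ((1 - t) rad s + t, m) k0` (`1` at the boundary, so the boundary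
goes to `x₀`). -/
def S_Q1 : Prop := ∀ (M X : Type) [TopologicalSpace X] (x₀ : X) (g : GK M x₀),
  (∀ s k k', g s k = g s k') → GenLoop.Homotopic (qst g) GenLoop.const

/-- **Ka.** The map `kap`.  (Uses `S_Ri`, `S_Ps`, `Wi.S_Rh`.)

Proof. Continuity at `u` with `ctr s ≠ 0`, `s = ri u` (then `0 < rad s < 1`, because all `ri (u i) ≠ 0, 1`): `ln` is continuous
there, `phi` is continuous, `(w, r) ↦ (w.re, w.im, r)`, `∞ ↦ ∞` is continuous on `OnePoint ℂ × ℝ`.  If `ctr s = 0`: `rad → 0`, so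
`rho (rad) → -∞` and `kap → ∞`.  At infinity: `rad s → 1` (some `ri (u i)` tends to `0` or `1`), `rho (rad) → ∞`.
Zeros: `w = 0` means `ln (ctr s) = psi 0` (`S_Ps`), so the entry `false, false`, `(1 + c 2 / nrm c)/2`, vanishes, `c = ctr s`: `c 2 = -nrm c`,
`c 0 = c 1 = 0`; `rho (rad s) = 0` means `rad s = 1/2`, `c = (0, 0, -1/2)`, `u = p = (0, 0, rho (1/4)) = (0, 0, -8/3)`.
Near `p` (`c 2 < 0`, `|c 0|, |c 1| < -c 2`): `rad s = -c 2` and
`kap u = (c 0 / (nrm c - c 2), -c 1 / (nrm c - c 2), rho (-c 2))`, from `w = k_ft / k_tt =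
(c 0 - i c 1) / (nrm c - c 2)`.  Here `c i = 2 ri (u i) - 1` is a differentiable function of `u i` with a positive derivative `2 a_i`
(`S_Ri`).  A product `a b` with `a(p) = 0`, `a` differentiable and `b` continuous at `p` has the derivative `b(p) a'(p)`; `nrm c - c 2 = 1` at `p`;
`rho' (1/2) = 8`.  So the derivative is `diag(2 a_0, -2 a_1, -16 a_2)`. -/
def S_Ka : Prop := Cel.VanOn ∞ univ kap ∧ ∃ (p : Fin 3 → ℝ) (κ' : (Fin 3 → ℝ) → Fin 3 → ℝ)
  (a : Fin 3 → ℝ), (∀ v, kap v = ((0 : Fin 3 → ℝ) : OnePoint (Fin 3 → ℝ)) → v = p) ∧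
  (∀ᶠ v in 𝓝 p, kap v = (κ' v : OnePoint (Fin 3 → ℝ))) ∧ κ' p = 0 ∧
  0 < a 0 ∧ a 1 < 0 ∧ a 2 < 0 ∧
  HasFDerivAt κ' (ContinuousLinearMap.pi fun i =>
    a i • (ContinuousLinearMap.proj i : (Fin 3 → ℝ) →L[ℝ] ℝ)) p

/-- **Q2.** `q*` of a based map.  (Uses `S_Ri`, `S_Ps`, `S_Qc`, `S_Gl`, `S_Lg`, `S_Px`, `S_Zo`, `S_Li`, `S_Ka`.)

Proof. `gh g` is given by `gh' g` (boundary: `psi' = k0` if the coordinate `0` or `1` is on the boundary, `g (∂) = const`
else).  By `S_Lg` `gh g = gl x₀ f`, `f v = gh' g (ri ∘ v)`, and `qst g = gl x₀ (hat x₀ f ∘ px M kap)`: at `v`, with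
`s = ri ∘ v`: if `ctr (s ∘ inl) = 0` both are `x₀`; if `phi (ln (ctr ..)) = ∞` then `ln (ctr ..) = k0` and both are `x₀`; else
`px M kap v = (w.re, w.im, rho (rad s); v ∘ inr)`, and `ri (rho (rad s)) = rad s`, `psi' (ri w.re) (ri w.im) = psi w = ln (ctr s)`
(`S_Ri`, `S_Ps`).  `S_Px`, `S_Ka`: the map `px M kap` has the only zero `(p, 0)` and there the derivative
`diag(a; 1)`, with determinant `a 0 * a 1 * a 2 > 0`; `S_Zo` and `S_Li`. -/
def S_Q2 : Prop := ∀ (M X : Type) [Fintype M] [DecidableEq M] [TopologicalSpace X] (x₀ : X)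
  (g : GK M x₀), (∀ s, g s k0 = x₀) → (∀ s, gh g s = gh' g s) ∧ GenLoop.Homotopic (qst g) (gh g)

/-- **Bn.** Homotopy extension for `{k0} ⊆ CP^1`.  (Uses `S_Ps`.)

Proof. Let `h : I × I^N → X` be a null homotopy of `ev0 g` (`h (0, s) = g s k0`, `h (1, s) = x₀`, `h = x₀` for `s ∈ ∂`).
`χ_a (w) = (1 - a |w|)⁻¹ w` if `a |w| < 1`, else `∞`; `χ_a (∞) = ∞`; continuous in `(a, w) ∈ [0, 1] × OnePoint ℂ` (`|χ_a w| ≥ |w|`).
First homotopy: `g s (psiH (χ_a (phi k)))`, `a` from `0` to `1`.  Second homotopy, `k = psiH p`: `g s (psiH (χ_1 p))` if `|p| ≤ 1`,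
`h (t min(1, |p| - 1), s)` if `|p| ≥ 1` (also for `p = ∞`: `h (t, s)`); both agree for `|p| = 1`.  At `t = 1` the value at `k0` is
`h (1, s) = x₀`.  Continuity into `C(KK, X)`: `ContinuousMap.continuous_of_continuous_uncurry`. -/
def S_Bn : Prop := ∀ (N X : Type) [TopologicalSpace X] (x₀ : X)
  (g : GenLoop N C(KK, X) (ContinuousMap.const KK x₀)), GenLoop.Homotopic (ev0 g) GenLoop.const →
  ∃ g' : GenLoop N C(KK, X) (ContinuousMap.const KK x₀), GenLoop.Homotopic g g' ∧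
    ∀ s, g' s k0 = x₀

/-- **Gn.** A based map is null homotopic if its adjoint is.  (Uses `S_Ri`, `S_Ps`.)

Proof. Let `H : I × I^(Fin 3 ⊕ M) → X` be the null homotopy of `gh g` (which is given by `gh' g`), relative to the boundary.
`G (t, s) k = H (t, (a, b, s (inl ()); s ∘ inr))` for `k = psi' a b` (with `a, b` interior, unique for `k ≠ k0` by `S_Ri`, `S_Ps`, or on
the boundary, then the value is `x₀`).  Continuous: the map `I × I^.. × (I × I) → I × I^.. × KK`, `id × psi'`, is a closed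
continuous surjection (compact to Hausdorff), so a quotient map.  `G (0, s) = g s`, `G (1, s) = const`, `G (t, s) = const`
for `s ∈ ∂`. -/
def S_Gn : Prop := ∀ (M X : Type) [Fintype M] [DecidableEq M] [TopologicalSpace X] (x₀ : X)
  (g : GK M x₀), (∀ s, g s k0 = x₀) → (∀ s, gh g s = gh' g s) →
  GenLoop.Homotopic (gh g) GenLoop.const → GenLoop.Homotopic g GenLoop.const

/-- **Sp.** A map is null homotopic if its value at `k0` and its `q*` are.
(Uses `S_Qa`, `S_Q2`, `S_Bn`, `S_Gn`.)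

Proof. `g ~ g'` from `S_Bn`; `gh g' ~ qst g' ~ qst g ~ const`; `S_Gn`. -/
def S_Sp : Prop := ∀ (M X : Type) [Fintype M] [DecidableEq M] [TopologicalSpace X] (x₀ : X)
  (g : GK M x₀), GenLoop.Homotopic (ev0 g) GenLoop.const →
  GenLoop.Homotopic (qst g) GenLoop.const → GenLoop.Homotopic g GenLoop.const

/-- **Fo.** Folding `CP^1` to the disc.  (Uses `S_Ps`.)

Proof. `fo t k = elim (phi k) (psi 0) F_t`; the two formulas agree for `|w| = 1` (`(conj w)⁻¹ = w`); for `|w| → ∞` and bounded `t`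
the value tends to `psi 0`; `phi`, `psi` are continuous. -/
def S_Fo : Prop := (Continuous fun p : ℝ × KK => fo p.1 p.2) ∧
  (∀ t (w : ℂ), ‖w‖ ≤ 1 → fo t (psi w) = psi (t * w)) ∧
  (∀ t (w : ℂ), 1 ≤ ‖w‖ → fo t (psi w) = psi (t * ((starRingEnd ℂ) w)⁻¹)) ∧
  ∀ t, fo t k0 = psi 0

/-- **Dz.** The difference of two families which agree for `|w| ≥ 1` depends only on their values for
`|w| ≤ 1`.  (Uses `S_Ps`.)

Proof. Let `fold t = 2 t` for `t ≤ 1/2`, `2 - 2t` for `t ≥ 1/2`.  For `|w| ≥ 1` (and at `k0`, by continuity)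
`transAt i A (symmAt i B) s (psi w) = B (update s i (fold (s i))) (psi w)`.  First homotopy (parameter `a ∈ [0, 1]`): for
`|w| ≥ 1` the value `B (update s i ((1 - a c) fold (s i))) (psi w)`, `c = min(1, |w| - 1)` (`c = 1` at `k0`); for `|w| ≤ 1` no
change.  At `a = 1` the value for `|w| ≥ 2` is `B (update s i 0) = x₀`.  Second homotopy (parameter `b`): for `1 ≤ |w|` the value
`B (update s i ((1 - c) fold (s i))) (psi ((1 - b) w + b w/|w|))` (`x₀` for `|w| ≥ 2` and at `k0`).  At `b = 1` we get a map `D` with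
`D s (psi w) = transAt i A (symmAt i B) s (psi w)` for `|w| ≤ 1`,
`D s (psi w) = B (update s i ((2 - |w|) fold (s i))) (psi (w/|w|))` for `1 ≤ |w| ≤ 2`, `x₀` for `|w| ≥ 2`.  The same construction
for `A'`, `B'` gives the same `D`.  Continuity: gluing along the closed sets `|w| ≤ 1`, `1 ≤ |w| ≤ 2`, `{|w| ≥ 2} ∪ {k0}`
(`phi` is continuous); values in `C(KK, X)`: `ContinuousMap.continuous_of_continuous_uncurry`. -/
def S_Dz : Prop := ∀ (N X : Type) [DecidableEq N] [TopologicalSpace X] (x₀ : X)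
  (A B A' B' : GenLoop N C(KK, X) (ContinuousMap.const KK x₀)) (i : N),
  (∀ s (w : ℂ), 1 ≤ ‖w‖ → A s (psi w) = B s (psi w)) →
  (∀ s (w : ℂ), 1 ≤ ‖w‖ → A' s (psi w) = B' s (psi w)) →
  (∀ s (w : ℂ), ‖w‖ ≤ 1 → A s (psi w) = A' s (psi w) ∧ B s (psi w) = B' s (psi w)) →
  GenLoop.Homotopic (GenLoop.transAt i A (GenLoop.symmAt i B))
    (GenLoop.transAt i A' (GenLoop.symmAt i B'))

/-- **Df.** The difference of two families which agree for `|w| ≥ 1` is given by gluing them to a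
family over the sphere.  (Uses `S_Fo`, `S_Dz`, `S_Qa`, `S_Q1`.)

Proof. Let `C s = (B s).comp (fo 1)`.  `S_Dz` with `A' = G`, `B' = C`, `i = inr m`, then `S_Qa`:
`transAt i (qst A) (symmAt i (qst B)) ~ transAt i (qst G) (symmAt i (qst C))`.  `C` is homotopic to
`s ↦ const (B s (psi 0))` by `(B s).comp (fo t)`, `fo 0 k = psi 0`; so `qst C ~ const` (`S_Qa`, `S_Q1`).
`HomotopyGroup.mul_spec`, `inv_spec`: `[B]⁻¹ [A] = [C]⁻¹ [G] = [G]`. -/
def S_Df : Prop := ∀ (M X : Type) [Fintype M] [DecidableEq M] [TopologicalSpace X] (x₀ : X) (m : M)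
  (A B G : GK M x₀), (∀ s (w : ℂ), 1 ≤ ‖w‖ → A s (psi w) = B s (psi w)) →
  (∀ s (w : ℂ), ‖w‖ ≤ 1 → G s (psi w) = A s (psi w)) →
  (∀ s (w : ℂ), 1 ≤ ‖w‖ → G s (psi w) = B s (fo 1 (psi w))) →
  hcl (qst A) = hcl (qst B) * hcl (qst G)

end Pool.Agent.Tate.Ec
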