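import Pool.Agent.Lib.Tate.R.Ec.Spec

/-!
# C42, block R/Ec, statement Su: sums over half spaces (helper59)
-/

open Topology unitInterval Filter Set
open scoped Topology.Homotopy OnePoint

noncomputable section

namespace Pool.Agent.Tate.Ec

namespace SuAux

/-- restriction and change of a function with limit at infinity -/
theorem van_congr {Z Y : Type} [TopologicalSpace Z] [TopologicalSpace Y] {y0 : Y} {C : Set Z}
    {f g : Z → Y} (h : Cel.VanOn y0 univ f) (hfg : ∀ z ∈ C, g z = f z) : Cel.VanOn y0 C g := by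
  refine (ContinuousOn.mono h (insert_subset_insert (image_mono (subset_univ C)))).congr ?_
  rintro p (rfl | ⟨z, hz, rfl⟩)
  · rfl
  · exact hfg z hz

theorem van_const {Z Y : Type} [TopologicalSpace Z] [TopologicalSpace Y] {y0 : Y} {C : Set Z}
    {g : Z → Y} (hg : ∀ z ∈ C, g z = y0) : Cel.VanOn y0 C g := by
  refine (continuousOn_const (c := y0)).congr ?_
  rintro p (rfl | ⟨z, hz, rfl⟩)
  · rfl
  · exact hg z hz

theorem gl_apply (h1 : S_Gl) {N X : Type} [Fintype N] [TopologicalSpace X] {x₀ : X}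
    {f : (N → ℝ) → X} (hf : Cel.VanOn x₀ univ f) (s : N → I) : gl x₀ f s = gl' x₀ f s := by
  have h := h1 N X x₀ f hf
  unfold gl
  rw [dif_pos h]
  rfl

theorem rho_neg {t : I} (h0 : t ≠ 0) (h1 : t ≠ 1) : rho t < 0 ↔ (t : ℝ) < 1 / 2 := by
  have h2 : (0 : ℝ) < t := lt_of_le_of_ne t.2.1 fun h => h0 (Subtype.ext h.symm)
  have h3 : (t : ℝ) < 1 := lt_of_le_of_ne t.2.2 fun h => h1 (Subtype.ext h)
  have hd : (0 : ℝ) < (t : ℝ) * (1 - t) := mul_pos h2 (by linarith)
  unfold rho
  rw [div_lt_iff₀ hd, zero_mul]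
  constructor <;> intro h <;> linarith

theorem rho_pos {t : I} (h0 : t ≠ 0) (h1 : t ≠ 1) : 0 < rho t ↔ 1 / 2 < (t : ℝ) := by
  have h2 : (0 : ℝ) < t := lt_of_le_of_ne t.2.1 fun h => h0 (Subtype.ext h.symm)
  have h3 : (t : ℝ) < 1 := lt_of_le_of_ne t.2.2 fun h => h1 (Subtype.ext h)
  have hd : (0 : ℝ) < (t : ℝ) * (1 - t) := mul_pos h2 (by linarith)
  unfold rho
  rw [lt_div_iff₀ hd, zero_mul]
  constructor <;> intro h <;> linarith

/-- the map of the interval -/
def ph (l τ : ℝ) : ℝ := min ((1 + l) * τ) (1 / 2) + max ((1 + l) * τ - l) (1 / 2) - 1 / 2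

theorem ph_cont : Continuous fun p : ℝ × ℝ => ph p.1 p.2 := by
  unfold ph
  fun_prop

theorem ph_zero (l : ℝ) (hl : 0 ≤ l) : ph l 0 = 0 := by
  unfold ph
  rw [mul_zero, min_eq_left (by norm_num), max_eq_right (by linarith)]
  ring

theorem ph_one (l : ℝ) (hl : 0 ≤ l) : ph l 1 = 1 := by
  unfold ph
  rw [mul_one, min_eq_right (by linarith), max_eq_left (by linarith)]
  ring

theorem ph_id (τ : ℝ) : ph 0 τ = τ := by
  unfold ph
  rw [add_zero, one_mul, sub_zero]
  rcases le_total τ (1 / 2) with h | h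
  · rw [min_eq_left h, max_eq_right h]
    ring
  · rw [min_eq_right h, max_eq_left h]
    ring

theorem ph_left (τ : ℝ) (h : τ ≤ 1 / 2) : ph 1 τ = min (2 * τ) (1 / 2) := by
  unfold ph
  rw [max_eq_right (by linarith)]
  norm_num

theorem ph_right (τ : ℝ) (h : 1 / 2 ≤ τ) : ph 1 τ = max (2 * τ - 1) (1 / 2) := by
  unfold ph
  rw [min_eq_right (by linarith)]
  norm_num

theorem proj_eq {a : ℝ} {t : I} (h : a = t) : Set.projIcc 0 1 zero_le_one a = t := by
  rw [h]
  exact Set.projIcc_val zero_le_one t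

variable {N X : Type} [DecidableEq N] [TopologicalSpace X]

/-- the homotopy -/
def hom (i : N) {x₀ : X} (g : GenLoop N X x₀) (p : I × (N → I)) : X :=
  g (Function.update p.2 i (Set.projIcc 0 1 zero_le_one (ph p.1 (p.2 i))))

theorem hom_cont (i : N) {x₀ : X} (g : GenLoop N X x₀) : Continuous (hom i g) := by
  refine g.1.continuous.comp (Continuous.update continuous_snd i ?_)
  refine continuous_projIcc.comp (ph_cont.comp (f := fun p : I × (N → I) =>
    ((p.1 : ℝ), (p.2 i : ℝ))) ?_)
  fun_prop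

theorem upd_bdry (i : N) {t : N → I} (ht : t ∈ Cube.boundary N) {τ : I}
    (h0 : t i = 0 → τ = 0) (h1 : t i = 1 → τ = 1) :
    Function.update t i τ ∈ Cube.boundary N := by
  obtain ⟨j, hj⟩ := ht
  by_cases hji : j = i
  · subst hji
    refine ⟨j, ?_⟩
    rw [Function.update_self]
    exact hj.imp h0 h1
  · refine ⟨j, ?_⟩
    rw [Function.update_of_ne hji]
    exact hj

end SuAux

theorem pSu (h1 : S_Gl) (h2 : Cel.S_Un) (_ : Wi.S_Rh) : S_Su := by
  intro N X _ _ _ x₀ i f hf hf0
  have hC : IsClosed {v : N → ℝ | v i ≤ 0} := isClosed_le (continuous_apply i) continuous_const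
  have hD : IsClosed {v : N → ℝ | 0 ≤ v i} := isClosed_le continuous_const (continuous_apply i)
  have hCD : {v : N → ℝ | v i ≤ 0} ∪ {v : N → ℝ | 0 ≤ v i} = univ := by
    ext v
    simp only [mem_union, mem_ofPred_eq, mem_univ, iff_true]
    exact le_total _ _
  have hm : Cel.VanOn x₀ univ (fun v => if v i < 0 then f v else x₀) := by
    rw [← hCD]
    refine h2.1 _ _ x₀ _ _ _ hC hD (SuAux.van_congr hf fun v hv => ?_)
      (SuAux.van_const fun v hv => if_neg (not_lt.mpr hv))
    rcases lt_or_eq_of_le (show v i ≤ 0 from hv) with h | h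
    · exact if_pos h
    · rw [if_neg (by rw [h]; exact lt_irrefl _), hf0 v h]
  have hp : Cel.VanOn x₀ univ (fun v => if 0 < v i then f v else x₀) := by
    rw [← hCD]
    refine h2.1 _ _ x₀ _ _ _ hC hD (SuAux.van_const fun v hv => if_neg (not_lt.mpr hv))
      (SuAux.van_congr hf fun v hv => ?_)
    rcases lt_or_eq_of_le (show 0 ≤ v i from hv) with h | h
    · exact if_pos h
    · rw [if_neg (by rw [← h]; exact lt_irrefl _), hf0 v h.symm]
  refine ⟨hm, hp, ?_⟩
  -- the value on the middle hyperplane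
  have hmid : ∀ s : N → I, (s i : ℝ) = 1 / 2 → gl x₀ f s = x₀ := by
    intro s hs
    rw [SuAux.gl_apply h1 hf]
    unfold gl'
    split_ifs with h
    · rfl
    · refine hf0 _ ?_
      show rho (s i) = 0
      unfold rho
      rw [hs]
      norm_num
  have hl : ∀ s : N → I, gl x₀ (fun v => if v i < 0 then f v else x₀) s =
      if (s i : ℝ) < 1 / 2 then gl x₀ f s else x₀ := by
    intro s
    rw [SuAux.gl_apply h1 hf, SuAux.gl_apply h1 hm]
    unfold gl'
    by_cases h : s ∈ Cube.boundary N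
    · rw [if_pos h, if_pos h, ite_self]
    · rw [if_neg h, if_neg h]
      have h3 := SuAux.rho_neg (t := s i) (fun h4 => h ⟨i, Or.inl h4⟩) (fun h4 => h ⟨i, Or.inr h4⟩)
      by_cases h4 : rho (s i) < 0
      · rw [if_pos (h3.1 h4)]
        exact if_pos h4
      · rw [if_neg (fun h5 => h4 (h3.2 h5))]
        exact if_neg h4
  have hr : ∀ s : N → I, gl x₀ (fun v => if 0 < v i then f v else x₀) s =
      if 1 / 2 < (s i : ℝ) then gl x₀ f s else x₀ := by
    intro s
    rw [SuAux.gl_apply h1 hf, SuAux.gl_apply h1 hp]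
    unfold gl'
    by_cases h : s ∈ Cube.boundary N
    · rw [if_pos h, if_pos h, ite_self]
    · rw [if_neg h, if_neg h]
      have h3 := SuAux.rho_pos (t := s i) (fun h4 => h ⟨i, Or.inl h4⟩) (fun h4 => h ⟨i, Or.inr h4⟩)
      by_cases h4 : 0 < rho (s i)
      · rw [if_pos (h3.1 h4)]
        exact if_pos h4
      · rw [if_neg (fun h5 => h4 (h3.2 h5))]
        exact if_neg h4
  set g := gl x₀ f with hg
  refine ⟨⟨⟨⟨SuAux.hom i g, SuAux.hom_cont i g⟩, ?_, ?_⟩, ?_⟩⟩
  · intro t
    show g (Function.update t i (Set.projIcc 0 1 zero_le_one (SuAux.ph ((0 : I) : ℝ) (t i)))) = g t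
    rw [SuAux.proj_eq (t := t i) (by rw [Set.Icc.coe_zero]; exact SuAux.ph_id _),
      Function.update_eq_self]
  · intro t
    show g (Function.update t i (Set.projIcc 0 1 zero_le_one (SuAux.ph ((1 : I) : ℝ) (t i)))) =
      if (t i : ℝ) ≤ 1 / 2
      then gl x₀ (fun v => if v i < 0 then f v else x₀)
        (Function.update t i <| Set.projIcc 0 1 zero_le_one (2 * t i))
      else gl x₀ (fun v => if 0 < v i then f v else x₀)
        (Function.update t i <| Set.projIcc 0 1 zero_le_one (2 * t i - 1))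
    have ht0 := (t i).2.1
    have ht1 := (t i).2.2
    rw [Set.Icc.coe_one]
    split_ifs with h
    · rw [hl, Function.update_self, SuAux.ph_left _ h]
      have h4 : ((Set.projIcc 0 1 zero_le_one (2 * (t i : ℝ)) : I) : ℝ) = 2 * t i := by
        rw [Set.projIcc_of_mem zero_le_one ⟨by linarith, by linarith⟩]
      rw [h4]
      split_ifs with h5
      · rw [min_eq_left h5.le]
      · rw [min_eq_right (not_lt.mp h5)]
        refine hmid _ ?_
        rw [Function.update_self, Set.projIcc_of_mem zero_le_one ⟨by norm_num, by norm_num⟩]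
    · rw [not_le] at h
      rw [hr, Function.update_self, SuAux.ph_right _ h.le]
      have h4 : ((Set.projIcc 0 1 zero_le_one (2 * (t i : ℝ) - 1) : I) : ℝ) = 2 * t i - 1 := by
        rw [Set.projIcc_of_mem zero_le_one ⟨by linarith, by linarith⟩]
      rw [h4]
      split_ifs with h5
      · rw [max_eq_left h5.le]
      · rw [max_eq_right (not_lt.mp h5)]
        refine hmid _ ?_
        rw [Function.update_self, Set.projIcc_of_mem zero_le_one ⟨by norm_num, by norm_num⟩]
  · intro l t ht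
    show g (Function.update t i (Set.projIcc 0 1 zero_le_one (SuAux.ph (l : ℝ) (t i)))) = g t
    rw [GenLoop.boundary g t ht]
    refine GenLoop.boundary g _ (SuAux.upd_bdry i ht ?_ ?_)
    · intro h
      refine SuAux.proj_eq ?_
      rw [h, Set.Icc.coe_zero]
      exact SuAux.ph_zero _ l.2.1
    · intro h
      refine SuAux.proj_eq ?_
      rw [h, Set.Icc.coe_one]
      exact SuAux.ph_one _ l.2.1

end Pool.Agent.Tate.Ec
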