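import Pool.Agent.Lib.Tate.R.Ec.Spec
import Pool.Agent.Lib.Tate.Inj.Ha

/-!
# C42, block R/Ec, Zo: the zoom lemma
-/

set_option autoImplicit false

open Topology unitInterval Filter Set
open scoped Topology.Homotopy OnePoint

noncomputable section

namespace Pool.Agent.Tate.Ec

namespace ZoM

variable {E : Type} [NormedAddCommGroup E] [NormedSpace ℝ E] [FiniteDimensional ℝ E]

/-- `q = ∞` or the norm of `q` is larger than `R`. -/
def Big (R : ℝ) (q : OnePoint E) : Prop := ∀ u : E, q = (u : OnePoint E) → R < ‖u‖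

theorem big_infty (R : ℝ) : Big R (∞ : OnePoint E) := fun u h => absurd h.symm (OnePoint.coe_ne_infty u)

theorem big_coe {R : ℝ} {u : E} : Big R (u : OnePoint E) ↔ R < ‖u‖ :=
  ⟨fun h => h u rfl, fun h w hw => by rw [← OnePoint.coe_injective hw]; exact h⟩

theorem big_mono {R R' : ℝ} (h : R' ≤ R) {q : OnePoint E} (hq : Big R q) : Big R' q :=
  fun u hu => lt_of_le_of_lt h (hq u hu)

theorem big_mem (R : ℝ) : {q : OnePoint E | Big R q} ∈ 𝓝 (∞ : OnePoint E) := by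
  haveI : ProperSpace E := FiniteDimensional.proper ℝ E
  have h4 : ((fun z : E => (z : OnePoint E)) '' (Metric.closedBall 0 R))ᶜ ∈ 𝓝 (∞ : OnePoint E) := by
    apply IsOpen.mem_nhds
    · exact OnePoint.isOpen_compl_image_coe.2 ⟨Metric.isClosed_closedBall,
        isCompact_closedBall 0 R⟩
    · rintro ⟨w, _, hw⟩
      exact OnePoint.coe_ne_infty w hw
  refine Filter.mem_of_superset h4 ?_
  intro q hq u hu
  by_contra h
  push Not at h
  exact hq ⟨u, by rw [mem_closedBall_zero_iff]; exact h, hu.symm⟩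

theorem tendsto_infty_of {Z : Type} {l : Filter Z} {F : Z → OnePoint E}
    (h : ∀ R : ℝ, ∀ᶠ z in l, Big R (F z)) : Tendsto F l (𝓝 ∞) := by
  rw [OnePoint.hasBasis_nhds_infty.tendsto_right_iff]
  rintro s ⟨_, hs⟩
  obtain ⟨R, hR⟩ := hs.isBounded.subset_closedBall 0
  filter_upwards [h R] with z hz
  induction hq : F z using OnePoint.rec with
  | infty => exact Or.inr rfl
  | coe u =>
    left
    refine ⟨u, fun hu => ?_, rfl⟩
    have h1 := hR hu
    rw [mem_closedBall_zero_iff] at h1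
    rw [hq, big_coe] at hz
    exact absurd h1 (not_le.2 hz)

/-- Scaling. -/
def sc (c : ℝ) (q : OnePoint E) : OnePoint E :=
  OnePoint.elim q ∞ fun u => ((c • u : E) : OnePoint E)

theorem sc_coe (c : ℝ) (u : E) : sc c (u : OnePoint E) = ((c • u : E) : OnePoint E) := rfl

theorem sc_infty (c : ℝ) : sc c (∞ : OnePoint E) = ∞ := rfl

theorem sc_continuousAt (c : ℝ) (hc : 0 < c) (q : OnePoint E) :
    ContinuousAt (fun x : ℝ × OnePoint E => sc x.1 x.2) (c, q) := by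
  induction q using OnePoint.rec with
  | infty =>
    unfold ContinuousAt
    show Tendsto _ _ (𝓝 (sc c ∞))
    rw [sc_infty]
    apply tendsto_infty_of
    intro R
    have h1 : ∀ᶠ x : ℝ × OnePoint E in 𝓝 (c, ∞), c / 2 < x.1 := by
      have : ∀ᶠ y : ℝ in 𝓝 c, c / 2 < y := lt_mem_nhds (by linarith)
      exact (continuous_fst.tendsto (c, (∞ : OnePoint E))).eventually this
    have h2 : ∀ᶠ x : ℝ × OnePoint E in 𝓝 (c, ∞), Big (2 * |R| / c) x.2 :=
      (continuous_snd.tendsto (c, (∞ : OnePoint E))).eventually (big_mem _)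
    filter_upwards [h1, h2] with x hx1 hx2 u hu
    obtain ⟨x1, x2⟩ := x
    induction x2 using OnePoint.rec with
    | infty => exact absurd hu.symm (OnePoint.coe_ne_infty u)
    | coe w =>
      have hw : x1 • w = u := OnePoint.coe_injective hu
      have h3 := big_coe.1 hx2
      simp only at hx1
      have hx0 : 0 < x1 := by linarith
      rw [← hw, norm_smul, Real.norm_eq_abs, abs_of_pos hx0]
      have h4 : 2 * |R| < ‖w‖ * c := (div_lt_iff₀ hc).1 h3
      have h5 : 0 ≤ |R| := abs_nonneg R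
      have h6 : R ≤ |R| := le_abs_self R
      have h7 : 0 < ‖w‖ := by
        by_contra h
        push Not at h
        nlinarith
      nlinarith
  | coe u =>
    have h1 := OnePoint.isOpenEmbedding_coe (X := E)
    have h2 : 𝓝 ((c, (u : OnePoint E)) : ℝ × OnePoint E) =
        Filter.map (Prod.map id (fun z : E => (z : OnePoint E))) (𝓝 (c, u)) := by
      have h3 := (Topology.IsOpenEmbedding.id (X := ℝ)).prodMap h1
      exact (h3.map_nhds_eq (c, u)).symm
    unfold ContinuousAt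
    rw [h2, tendsto_map'_iff]
    have h3 : Continuous fun x : ℝ × E => ((x.1 • x.2 : E) : OnePoint E) :=
      OnePoint.continuous_coe.comp (continuous_fst.smul continuous_snd)
    exact h3.tendsto (c, u)

/-- Lower bound for `κ` away from the zero `p`. -/
theorem lower (κ : E → OnePoint E) (κ' : E → E) (p : E) (L : E →L[ℝ] E) (hκ : Continuous κ)
    (hinf : Tendsto κ (cocompact E) (𝓝 ∞)) (hz : ∀ v, κ v = ((0 : E) : OnePoint E) → v = p)
    (hloc : ∀ᶠ v in 𝓝 p, κ v = (κ' v : OnePoint E)) (h0 : κ' p = 0) (hd : HasFDerivAt κ' L p)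
    (hL : Function.Injective L) :
    ∃ c : ℝ, 0 < c ∧ (∀ v, c * ‖v‖ ≤ ‖L v‖) ∧
      ∀ h u : E, κ (p + h) = (u : OnePoint E) → c * min ‖h‖ 1 ≤ ‖u‖ := by
  haveI : ProperSpace E := FiniteDimensional.proper ℝ E
  obtain ⟨K, hK, hKL⟩ := LinearMap.exists_antilipschitzWith (L : E →ₗ[ℝ] E)
    (LinearMap.ker_eq_bot.2 hL)
  have hK0 : (0 : ℝ) < K := by exact_mod_cast hK
  set c₁ : ℝ := 1 / (2 * K) with hc₁
  have hc₁0 : 0 < c₁ := by positivity
  have hLb : ∀ v, 2 * c₁ * ‖v‖ ≤ ‖L v‖ := by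
    intro v
    have h1 := hKL.le_mul_dist v 0
    rw [map_zero, dist_zero_right, dist_zero_right] at h1
    have h2 : 2 * c₁ = 1 / K := by rw [hc₁]; field_simp
    rw [h2, one_div, inv_mul_le_iff₀ hK0]
    exact h1
  -- near zero
  have h1 : ∀ᶠ h in 𝓝 (0 : E), ‖κ' (p + h) - κ' p - L h‖ ≤ c₁ * ‖h‖ :=
    (hasFDerivAt_iff_isLittleO_nhds_zero.1 hd).def hc₁0
  have h2 : ∀ᶠ h in 𝓝 (0 : E), κ (p + h) = (κ' (p + h) : OnePoint E) := by
    have h3 : Tendsto (fun h : E => p + h) (𝓝 0) (𝓝 p) := by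
      have h4 : Continuous fun h : E => p + h := by fun_prop
      have h5 := h4.tendsto 0
      rwa [add_zero] at h5
    exact h3.eventually hloc
  obtain ⟨δ, hδ, hδ'⟩ := Metric.eventually_nhds_iff.1 (h1.and h2)
  have hnear : ∀ h u : E, ‖h‖ < δ → κ (p + h) = (u : OnePoint E) → c₁ * ‖h‖ ≤ ‖u‖ := by
    intro h u hh hu
    obtain ⟨h3, h4⟩ := hδ' (y := h) (by rwa [dist_zero_right])
    rw [h4] at hu
    have h5 : κ' (p + h) = u := OnePoint.coe_injective hu
    rw [h5, h0, sub_zero] at h3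
    have h6 := hLb h
    have h7 : ‖L h‖ ≤ ‖u‖ + ‖u - L h‖ := by
      have h8 : L h = u - (u - L h) := by abel
      calc ‖L h‖ = ‖u - (u - L h)‖ := by rw [← h8]
        _ ≤ ‖u‖ + ‖u - L h‖ := norm_sub_le _ _
    nlinarith [norm_nonneg h]
  -- at infinity
  have h3 : ∀ᶠ w in cocompact E, Big 1 (κ w) := hinf.eventually (big_mem 1)
  obtain ⟨K', hK', hKK⟩ := mem_cocompact.1 h3
  set C : Set E := K' ∩ {w | δ ≤ ‖w - p‖} with hC
  have hCc : IsCompact C := hK'.inter_right (isClosed_le continuous_const (by fun_prop))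
  have hm : ∃ m : ℝ, 0 < m ∧ ∀ w ∈ C, ∀ u : E, κ w = (u : OnePoint E) → m ≤ ‖u‖ := by
    have h4 : IsCompact (κ '' C) := hCc.image hκ
    have h5 : ((0 : E) : OnePoint E) ∈ (κ '' C)ᶜ := by
      rintro ⟨w, hw, hw0⟩
      have h6 := hz w hw0
      have h7 := hw.2
      rw [h6, mem_setOf_eq, sub_self, norm_zero] at h7
      linarith
    have h6 : (fun z : E => (z : OnePoint E)) ⁻¹' (κ '' C)ᶜ ∈ 𝓝 (0 : E) :=
      OnePoint.continuous_coe.continuousAt.preimage_mem_nhds (h4.isClosed.isOpen_compl.mem_nhds h5)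
    obtain ⟨m, hm, hmb⟩ := Metric.mem_nhds_iff.1 h6
    refine ⟨m, hm, fun w hw u hu => ?_⟩
    by_contra h7
    push Not at h7
    have h8 := hmb (mem_ball_zero_iff.2 h7)
    exact h8 ⟨w, hw, hu⟩
  obtain ⟨m, hm0, hm⟩ := hm
  refine ⟨min c₁ (min m 1), by positivity, ?_, ?_⟩
  · intro v
    have h4 : min c₁ (min m 1) ≤ c₁ := min_le_left _ _
    have h5 := hLb v
    nlinarith [norm_nonneg v]
  · intro h u hu
    have h4 : min c₁ (min m 1) ≤ c₁ := min_le_left _ _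
    have h5 : min c₁ (min m 1) ≤ m := (min_le_right _ _).trans (min_le_left _ _)
    have h6 : min c₁ (min m 1) ≤ 1 := (min_le_right _ _).trans (min_le_right _ _)
    have h7 : 0 < min c₁ (min m 1) := by positivity
    have h8 : 0 ≤ min ‖h‖ 1 := by positivity
    have h9 : min ‖h‖ 1 ≤ 1 := min_le_right _ _
    have h10 : min ‖h‖ 1 ≤ ‖h‖ := min_le_left _ _
    by_cases hh : ‖h‖ < δ
    · have h11 := hnear h u hh hu
      calc min c₁ (min m 1) * min ‖h‖ 1 ≤ c₁ * ‖h‖ :=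
            mul_le_mul h4 h10 h8 hc₁0.le
        _ ≤ ‖u‖ := h11
    · push Not at hh
      by_cases hK2 : p + h ∈ K'
      · have h11 := hm (p + h) ⟨hK2, by rw [mem_setOf_eq, add_sub_cancel_left]; exact hh⟩ u hu
        calc min c₁ (min m 1) * min ‖h‖ 1 ≤ m * 1 := mul_le_mul h5 h9 h8 hm0.le
          _ ≤ ‖u‖ := by rw [mul_one]; exact h11
      · have h11 : 1 < ‖u‖ := hKK (a := p + h) hK2 u hu
        calc min c₁ (min m 1) * min ‖h‖ 1 ≤ 1 * 1 := mul_le_mul h6 h9 h8 zero_le_one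
          _ ≤ ‖u‖ := by rw [mul_one]; exact h11.le

/-- The homotopy from the derivative. -/
def k1 (κ : E → OnePoint E) (p : E) (L : E →L[ℝ] E) (x : E × ℝ) : OnePoint E :=
  if x.2 ≤ 0 then ((L x.1 : E) : OnePoint E) else sc x.2⁻¹ (κ (p + x.2 • x.1))

theorem k1_cont (κ : E → OnePoint E) (κ' : E → E) (p : E) (L : E →L[ℝ] E) (hκ : Continuous κ)
    (hloc : ∀ᶠ v in 𝓝 p, κ v = (κ' v : OnePoint E)) (h0 : κ' p = 0) (hd : HasFDerivAt κ' L p) :
    ContinuousOn (k1 κ p L) (univ ×ˢ Icc (0 : ℝ) 1) := by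
  rintro ⟨v₀, t₀⟩ ⟨_, ht₀⟩
  apply ContinuousAt.continuousWithinAt
  rcases lt_or_eq_of_le ht₀.1 with ht | ht
  · have h1 : ContinuousAt (fun x : E × ℝ => (x.2⁻¹, κ (p + x.2 • x.1))) (v₀, t₀) := by
      apply ContinuousAt.prodMk
      · exact continuousAt_snd.inv₀ ht.ne'
      · exact (hκ.comp (by fun_prop)).continuousAt
    have h2 := (sc_continuousAt (t₀⁻¹) (inv_pos.2 ht) (κ (p + t₀ • v₀)))
    have h3 : ContinuousAt (fun x : E × ℝ => sc x.2⁻¹ (κ (p + x.2 • x.1))) (v₀, t₀) :=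
      Filter.Tendsto.comp (g := fun x : ℝ × OnePoint E => sc x.1 x.2) h2 h1
    refine h3.congr ?_
    have h4 : ∀ᶠ x : E × ℝ in 𝓝 (v₀, t₀), 0 < x.2 :=
      (continuous_snd.tendsto (v₀, t₀)).eventually (lt_mem_nhds ht)
    filter_upwards [h4] with x hx
    unfold k1
    rw [if_neg (not_le.2 hx)]
  · simp only at ht
    subst ht
    -- the finite representative
    have h1 : ∀ᶠ x : E × ℝ in 𝓝 (v₀, (0 : ℝ)), κ (p + x.2 • x.1) = (κ' (p + x.2 • x.1) : OnePoint E) := by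
      have h3 : Tendsto (fun x : E × ℝ => p + x.2 • x.1) (𝓝 (v₀, (0 : ℝ))) (𝓝 p) := by
        have h4 : Continuous fun x : E × ℝ => p + x.2 • x.1 := by fun_prop
        have h5 := h4.tendsto (v₀, (0 : ℝ))
        simpa using h5
      exact h3.eventually hloc
    set g : E × ℝ → E := fun x => if x.2 ≤ 0 then L x.1 else x.2⁻¹ • κ' (p + x.2 • x.1) with hg
    have h2 : (fun x => ((g x : E) : OnePoint E)) =ᶠ[𝓝 (v₀, (0 : ℝ))] k1 κ p L := by
      filter_upwards [h1] with x hx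
      unfold k1
      rw [hg]
      by_cases hx2 : x.2 ≤ 0
      · simp only [if_pos hx2]
      · simp only [if_neg hx2]
        rw [hx, sc_coe]
    refine ContinuousAt.congr ?_ h2
    refine ContinuousAt.comp (g := fun z : E => (z : OnePoint E))
      OnePoint.continuous_coe.continuousAt ?_
    -- continuity of g
    have hg0 : g (v₀, 0) = L v₀ := by rw [hg]; simp
    rw [ContinuousAt, hg0, Metric.tendsto_nhds]
    intro ε hε
    set η : ℝ := ε / (2 * (‖v₀‖ + 1)) with hη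
    have hv1 : 0 < ‖v₀‖ + 1 := by positivity
    have hη0 : 0 < η := by positivity
    have h3 : ∀ᶠ h in 𝓝 (0 : E), ‖κ' (p + h) - κ' p - L h‖ ≤ η * ‖h‖ :=
      (hasFDerivAt_iff_isLittleO_nhds_zero.1 hd).def hη0
    have h4 : ∀ᶠ x : E × ℝ in 𝓝 (v₀, (0 : ℝ)),
        ‖κ' (p + x.2 • x.1) - κ' p - L (x.2 • x.1)‖ ≤ η * ‖x.2 • x.1‖ := by
      have h5 : Tendsto (fun x : E × ℝ => x.2 • x.1) (𝓝 (v₀, (0 : ℝ))) (𝓝 0) := by
        have h6 : Continuous fun x : E × ℝ => x.2 • x.1 := by fun_prop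
        have h7 := h6.tendsto (v₀, (0 : ℝ))
        simpa using h7
      exact h5.eventually h3
    have h5 : ∀ᶠ x : E × ℝ in 𝓝 (v₀, (0 : ℝ)), ‖x.1‖ < ‖v₀‖ + 1 := by
      have h6 : Continuous fun x : E × ℝ => ‖x.1‖ := by fun_prop
      exact (h6.tendsto (v₀, (0 : ℝ))).eventually (gt_mem_nhds (by simp))
    have h6 : ∀ᶠ x : E × ℝ in 𝓝 (v₀, (0 : ℝ)), dist (L x.1) (L v₀) < ε / 2 := by
      have h7 : Continuous fun x : E × ℝ => L x.1 := by fun_prop
      exact (h7.tendsto (v₀, (0 : ℝ))).eventually (Metric.ball_mem_nhds _ (by positivity))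
    filter_upwards [h4, h5, h6] with x hx4 hx5 hx6
    by_cases hx2 : x.2 ≤ 0
    · have : g x = L x.1 := by rw [hg]; simp only [if_pos hx2]
      rw [this]
      linarith
    · have hgx : g x = x.2⁻¹ • κ' (p + x.2 • x.1) := by rw [hg]; simp only [if_neg hx2]
      push Not at hx2
      have h8 : dist (g x) (L x.1) ≤ ε / 2 := by
        rw [hgx, dist_eq_norm]
        have h9 : x.2⁻¹ • κ' (p + x.2 • x.1) - L x.1 =
            x.2⁻¹ • (κ' (p + x.2 • x.1) - κ' p - L (x.2 • x.1)) := by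
          rw [h0, sub_zero, smul_sub, map_smul, smul_smul, inv_mul_cancel₀ hx2.ne', one_smul]
        rw [h9, norm_smul, norm_inv, Real.norm_eq_abs, abs_of_pos hx2]
        rw [norm_smul, Real.norm_eq_abs, abs_of_pos hx2] at hx4
        rw [inv_mul_le_iff₀ hx2]
        have h10 : η * ‖x.1‖ ≤ ε / 2 := by
          have h11 : η * ‖x.1‖ ≤ η * (‖v₀‖ + 1) := by nlinarith
          have h12 : η * (‖v₀‖ + 1) = ε / 2 := by rw [hη]; field_simp
          linarith
        nlinarith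
      calc dist (g x) (L v₀) ≤ dist (g x) (L x.1) + dist (L x.1) (L v₀) := dist_triangle _ _ _
        _ < ε := by linarith

theorem k1_inf (κ : E → OnePoint E) (κ' : E → E) (p : E) (L : E →L[ℝ] E) (hκ : Continuous κ)
    (hinf : Tendsto κ (cocompact E) (𝓝 ∞)) (hz : ∀ v, κ v = ((0 : E) : OnePoint E) → v = p)
    (hloc : ∀ᶠ v in 𝓝 p, κ v = (κ' v : OnePoint E)) (h0 : κ' p = 0) (hd : HasFDerivAt κ' L p)
    (hL : Function.Injective L) :
    Tendsto (k1 κ p L) (cocompact (E × ℝ) ⊓ 𝓟 (univ ×ˢ Icc (0 : ℝ) 1)) (𝓝 ∞) := by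
  haveI : ProperSpace E := FiniteDimensional.proper ℝ E
  obtain ⟨c, hc, hcL, hcκ⟩ := lower κ κ' p L hκ hinf hz hloc h0 hd hL
  apply tendsto_infty_of
  intro R
  -- the radius T
  have h3 : ∀ᶠ w in cocompact E, Big R (κ w) := hinf.eventually (big_mem R)
  obtain ⟨K', hK', hKK⟩ := mem_cocompact.1 h3
  obtain ⟨T₀, hT₀⟩ := hK'.isBounded.subset_closedBall 0
  set T : ℝ := max 1 (|T₀| + ‖p‖ + 1) with hT
  have hT1 : 1 ≤ T := le_max_left _ _
  have hTb : ∀ h : E, T ≤ ‖h‖ → Big R (κ (p + h)) := by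
    intro h hh
    apply hKK
    intro hm
    have h4 := hT₀ hm
    rw [mem_closedBall_zero_iff] at h4
    have h5 : |T₀| + ‖p‖ + 1 ≤ T := le_max_right _ _
    have h6 : ‖h‖ ≤ ‖p + h‖ + ‖p‖ := by
      have h7 : h = (p + h) - p := by abel
      calc ‖h‖ = ‖(p + h) - p‖ := by rw [← h7]
        _ ≤ ‖p + h‖ + ‖p‖ := norm_sub_le _ _
    have h7 : T₀ ≤ |T₀| := le_abs_self _
    linarith
  set V : ℝ := max 1 (T * (|R| + 1) / c) with hV
  have hV1 : 1 ≤ V := le_max_left _ _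
  have hV2 : T * (|R| + 1) ≤ c * V := by
    have h4 : T * (|R| + 1) / c ≤ V := le_max_right _ _
    rw [div_le_iff₀ hc] at h4
    linarith
  have hRR : R ≤ |R| := le_abs_self R
  have hR0 : 0 ≤ |R| := abs_nonneg R
  rw [eventually_inf_principal]
  have h4 : IsCompact ((Metric.closedBall (0 : E) V) ×ˢ (Icc (0 : ℝ) 1)) :=
    (isCompact_closedBall 0 V).prod isCompact_Icc
  filter_upwards [h4.compl_mem_cocompact] with x hx hxC
  have hxV : V < ‖x.1‖ := by
    by_contra h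
    push Not at h
    exact hx ⟨by rw [mem_closedBall_zero_iff]; exact h, hxC.2⟩
  obtain ⟨ht0, ht1⟩ := hxC.2
  unfold k1
  by_cases hx2 : x.2 ≤ 0
  · rw [if_pos hx2, big_coe]
    have h5 := hcL x.1
    nlinarith
  · rw [if_neg hx2]
    push Not at hx2
    have hnorm : ‖x.2 • x.1‖ = x.2 * ‖x.1‖ := by
      rw [norm_smul, Real.norm_eq_abs, abs_of_pos hx2]
    intro u hu
    -- κ(p + t v) is finite
    have h5 : ∃ w : E, κ (p + x.2 • x.1) = (w : OnePoint E) ∧ u = x.2⁻¹ • w := by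
      cases hq : κ (p + x.2 • x.1) using OnePoint.rec with
      | infty =>
        rw [hq, sc_infty] at hu
        exact absurd hu.symm (OnePoint.coe_ne_infty u)
      | coe w =>
        rw [hq, sc_coe] at hu
        exact ⟨w, rfl, (OnePoint.coe_injective hu).symm⟩
    obtain ⟨w, hw, huw⟩ := h5
    have hun : ‖u‖ = x.2⁻¹ * ‖w‖ := by
      rw [huw, norm_smul, norm_inv, Real.norm_eq_abs, abs_of_pos hx2]
    have hinv1 : 1 ≤ x.2⁻¹ := (one_le_inv₀ hx2).2 ht1
    by_cases hTx : T ≤ ‖x.2 • x.1‖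
    · have h6 : R < ‖w‖ := hTb _ hTx w hw
      rw [hun]
      nlinarith [norm_nonneg w]
    · push Not at hTx
      rw [hnorm] at hTx
      have h6 := hcκ _ w hw
      rw [hnorm] at h6
      rw [hun, inv_mul_eq_div, lt_div_iff₀ hx2]
      rcases le_total (x.2 * ‖x.1‖) 1 with h7 | h7
      · rw [min_eq_left h7] at h6
        have h8 : (|R| + 1) ≤ c * ‖x.1‖ := by nlinarith
        nlinarith
      · rw [min_eq_right h7, mul_one] at h6
        -- c ≤ ‖w‖, x.2 * V < T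
        have h8 : x.2 * V < T := by nlinarith
        have h9 : (|R| + 1) * x.2 ≤ c := by
          have h10 : T * (|R| + 1) * x.2 ≤ c * V * x.2 := by nlinarith
          have h11 : c * V * x.2 ≤ c * T := by nlinarith
          have h12 : T * ((|R| + 1) * x.2) ≤ T * c := by nlinarith
          exact le_of_mul_le_mul_left h12 (by linarith)
        nlinarith

end ZoM

open ZoM in
theorem pZo (hPu : S_Pu) : S_Zo := by
  intro N X _ _ x₀ f κ κ' p L hf hκ hz hloc h0 hd hL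
  obtain ⟨hκ1, hκ2⟩ := (Cel.pHa (N → ℝ) (OnePoint (N → ℝ)) ∞ univ κ).1 hκ
  rw [continuousOn_univ] at hκ1
  rw [principal_univ, inf_top_eq] at hκ2
  -- first homotopy
  have h1 : Cel.VanOn (∞ : OnePoint (N → ℝ)) (univ ×ˢ Icc (0 : ℝ) 1) (k1 κ p L) :=
    (Cel.pHa _ _ _ _ _).2 ⟨k1_cont κ κ' p L hκ1 hloc h0 hd,
      k1_inf κ κ' p L hκ1 hκ2 hz hloc h0 hd hL⟩
  have h2 := hPu N (N → ℝ) X x₀ f (k1 κ p L) hf h1
  have h3 : (fun v => Cel.hat x₀ f (k1 κ p L (v, 0))) = fun v => f (L v) := by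
    funext v
    unfold k1
    rw [if_pos le_rfl]
    rfl
  have h4 : (fun v => Cel.hat x₀ f (k1 κ p L (v, 1))) = fun v => Cel.hat x₀ f (κ (p + v)) := by
    funext v
    unfold k1
    rw [if_neg (by norm_num)]
    show Cel.hat x₀ f (sc (1 : ℝ)⁻¹ (κ (p + (1 : ℝ) • v))) = _
    rw [one_smul, inv_one]
    cases κ (p + v) using OnePoint.rec with
    | infty => rfl
    | coe w => rw [sc_coe, one_smul]
  rw [h3, h4] at h2
  -- second homotopy
  have h5 : Cel.VanOn (∞ : OnePoint (N → ℝ)) (univ ×ˢ Icc (0 : ℝ) 1)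
      (fun x : (N → ℝ) × ℝ => κ (x.1 + x.2 • p)) := by
    refine (Cel.pHa _ _ _ _ _).2 ⟨(hκ1.comp (by fun_prop)).continuousOn, ?_⟩
    refine hκ2.comp ?_
    rw [Filter.tendsto_def]
    intro s hs
    obtain ⟨K', hK', hKK⟩ := mem_cocompact.1 hs
    obtain ⟨T₀, hT₀⟩ := hK'.isBounded.subset_closedBall 0
    rw [mem_inf_principal]
    have h4 : IsCompact ((Metric.closedBall (0 : N → ℝ) (T₀ + ‖p‖)) ×ˢ (Icc (0 : ℝ) 1)) :=
      (isCompact_closedBall 0 _).prod isCompact_Icc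
    filter_upwards [h4.compl_mem_cocompact] with x hx hxC
    apply hKK
    intro hm
    apply hx
    refine ⟨?_, hxC.2⟩
    have h6 := hT₀ hm
    rw [mem_closedBall_zero_iff] at h6 ⊢
    have h7 : x.1 = (x.1 + x.2 • p) - x.2 • p := by abel
    have h8 : ‖x.2 • p‖ ≤ ‖p‖ := by
      rw [norm_smul, Real.norm_eq_abs, abs_of_nonneg hxC.2.1]
      nlinarith [norm_nonneg p, hxC.2.2]
    calc ‖x.1‖ = ‖(x.1 + x.2 • p) - x.2 • p‖ := by rw [← h7]
      _ ≤ ‖x.1 + x.2 • p‖ + ‖x.2 • p‖ := norm_sub_le _ _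
      _ ≤ T₀ + ‖p‖ := add_le_add h6 h8
  have h6 := hPu N (N → ℝ) X x₀ f (fun x : (N → ℝ) × ℝ => κ (x.1 + x.2 • p)) hf h5
  have h7 : (fun v => Cel.hat x₀ f ((fun x : (N → ℝ) × ℝ => κ (x.1 + x.2 • p)) (v, 0))) =
      fun v => Cel.hat x₀ f (κ v) := by
    funext v
    show Cel.hat x₀ f (κ (v + (0 : ℝ) • p)) = _
    rw [zero_smul, add_zero]
  have h8 : (fun v => Cel.hat x₀ f ((fun x : (N → ℝ) × ℝ => κ (x.1 + x.2 • p)) (v, 1))) =
      fun v => Cel.hat x₀ f (κ (p + v)) := by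
    funext v
    show Cel.hat x₀ f (κ (v + (1 : ℝ) • p)) = _
    rw [one_smul, add_comm]
  rw [h7, h8] at h6
  exact h6.trans h2.symm

end Pool.Agent.Tate.Ec
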